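import Pool.Agent.MP_f21dda_al.Mg.H92_Transfer

-- part MP_f21dda_al.H92.Model
section

/-!
From the Engel identity in a unipotent group to the formal identity in the adjoint representation.
-/

namespace Pool.Agent.MP_f21dda_al.H92

open Polynomial

attribute [local instance 100] LieRing.ofAssociativeRing

variable {R : Type*} [Ring R] [Algebra ℚ R]

theorem ad_eq_add (x : R) :
    LieAlgebra.ad ℚ R x = LinearMap.mulLeft ℚ x + LinearMap.mulRight ℚ (-x) := by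
  ext z
  simp [Ring.lie_def, sub_eq_add_neg]

theorem exp_mulLeft {x : R} (hx : IsNilpotent x) (z : R) :
    IsNilpotent.exp (LinearMap.mulLeft ℚ x) z = IsNilpotent.exp x * z := by
  obtain ⟨k, hk⟩ := hx
  have h : LinearMap.mulLeft ℚ x ^ k = 0 := by
    rw [LinearMap.pow_mulLeft, hk, LinearMap.mulLeft_zero_eq_zero]
  rw [IsNilpotent.exp_eq_sum h, IsNilpotent.exp_eq_sum hk, Finset.sum_mul, LinearMap.sum_apply]
  simp only [LinearMap.pow_mulLeft, LinearMap.smul_apply, LinearMap.mulLeft_apply, smul_mul_assoc]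

theorem exp_mulRight {x : R} (hx : IsNilpotent x) (z : R) :
    IsNilpotent.exp (LinearMap.mulRight ℚ x) z = z * IsNilpotent.exp x := by
  obtain ⟨k, hk⟩ := hx
  have h : LinearMap.mulRight ℚ x ^ k = 0 := by
    rw [LinearMap.pow_mulRight, hk, LinearMap.mulRight_zero_eq_zero]
  rw [IsNilpotent.exp_eq_sum h, IsNilpotent.exp_eq_sum hk, Finset.mul_sum, LinearMap.sum_apply]
  simp only [LinearMap.pow_mulRight, LinearMap.smul_apply, LinearMap.mulRight_apply, mul_smul_comm]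

/- PROOF.  `ad x = mulLeft x - mulRight x`, `IsNilpotent.exp_add_of_commute`. -/
theorem exp_ad {x : R} (hx : IsNilpotent x) (z : R) :
    IsNilpotent.exp (LieAlgebra.ad ℚ R x) z = IsNilpotent.exp x * z * IsNilpotent.exp (-x) := by
  obtain ⟨k, hk⟩ := hx
  have hk' : (-x) ^ k = 0 := by rw [neg_pow, hk, mul_zero]
  rw [ad_eq_add, IsNilpotent.exp_add_of_commute (LinearMap.commute_mulLeft_right x (-x))
    ⟨k, by rw [LinearMap.pow_mulLeft, hk, LinearMap.mulLeft_zero_eq_zero]⟩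
    ⟨k, by rw [LinearMap.pow_mulRight, hk', LinearMap.mulRight_zero_eq_zero]⟩,
    Module.End.mul_apply, exp_mulLeft ⟨k, hk⟩, exp_mulRight ⟨k, hk'⟩, mul_assoc]

theorem ad_pow_eq_zero {x : R} {s : ℕ} (hx : x ^ s = 0) : LieAlgebra.ad ℚ R x ^ (2 * s) = 0 := by
  have hk' : (-x) ^ s = 0 := by rw [neg_pow, hx, mul_zero]
  rw [ad_eq_add]
  exact (LinearMap.commute_mulLeft_right x (-x)).add_pow_eq_zero_of_add_le_succ_of_pow_eq_zero
    (m := s) (n := s) (by rw [LinearMap.pow_mulLeft, hx, LinearMap.mulLeft_zero_eq_zero])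
    (by rw [LinearMap.pow_mulRight, hk', LinearMap.mulRight_zero_eq_zero]) (by omega)

theorem pow_apply_of_one_sub_exp {V : Type*} [AddCommGroup V] [Module ℚ V] {A : Module.End ℚ V}
    (hA : IsNilpotent A) {n : ℕ} {x : V} (h : ((1 - IsNilpotent.exp A) ^ n) x = 0) :
    (A ^ n) x = 0 := by
  obtain ⟨M, hM⟩ := hA
  set B : Module.End ℚ V := ∑ k ∈ Finset.range M, (((k + 2).factorial : ℚ)⁻¹) • A ^ k with hB
  have hAB : Commute A B :=
    Commute.sum_right _ _ _ fun k _ => ((Commute.refl A).pow_right k).smul_right _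
  have e : 1 - IsNilpotent.exp A = -(1 + A * B) * A := by
    rw [IsNilpotent.exp_eq_sum (k := M + 2) (by rw [pow_add, hM, zero_mul]), Finset.sum_range_succ',
      Finset.sum_range_succ', neg_mul, add_mul, hB, Finset.mul_sum, Finset.sum_mul]
    simp only [zero_add, Nat.factorial_one, Nat.cast_one, inv_one, pow_one, one_smul,
      Nat.factorial_zero, pow_zero, one_mul]
    have : ∀ k ∈ Finset.range M, (((k + 1 + 1).factorial : ℚ)⁻¹) • A ^ (k + 1 + 1) =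
        A * (((k + 2).factorial : ℚ)⁻¹ • A ^ k) * A := fun k _ => by
      rw [mul_smul_comm, smul_mul_assoc, pow_succ, pow_succ']
    rw [Finset.sum_congr rfl this]
    abel
  have hu : IsUnit (-(1 + A * B)) :=
    (IsNilpotent.isUnit_one_add (hAB.isNilpotent_mul_right ⟨M, hM⟩)).neg
  have hc : Commute (-(1 + A * B)) A :=
    ((Commute.one_left A).add_left ((Commute.refl A).mul_left hAB.symm)).neg_left
  rw [e, hc.mul_pow, Module.End.mul_apply] at h
  obtain ⟨v, hv⟩ := (hu.pow n).exists_left_inv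
  have := congrArg v h
  rwa [← Module.End.mul_apply, hv, map_zero, Module.End.one_apply] at this

theorem iter_linear {e e' x : R} (h1 : e * e' = 1) (h2 : e' * e = 1) (T : Module.End ℚ R)
    (hT : ∀ z, T z = z - e * z * e') {u u' : R[X]} (hu : evC R 0 u = x) (hu' : evC R 0 u' = -x)
    (k : ℕ) : ∃ P P' : R[X],
      (iter (C e) (C e'))^[k + 1] (1 + X * u, 1 + X * u') = (C e + X * P, C e' + X * P') ∧
      evC R 0 P = (T ^ (k + 1)) x * e ∧ evC R 0 P' = -(e' * (T ^ (k + 1)) x) := by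
  have key : ∀ a b c p q : R[X], (a + X * p) * c * (b + X * q) =
      a * c * b + X * (p * c * b + a * c * q + X * (p * c * q)) := fun a b c p q => by
    have e1 : a * c * X = X * (a * c) := (commute_X (a * c)).eq.symm
    have e2 : p * c * X = X * (p * c) := (commute_X (p * c)).eq.symm
    calc (a + X * p) * c * (b + X * q)
        = a * c * b + X * p * c * b + (a * c * X) * q + X * (p * c * X) * q := by noncomm_ring
      _ = _ := by rw [e1, e2]; noncomm_ring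
  induction k with
  | zero =>
    refine ⟨u * C e * 1 + 1 * C e * u' + X * (u * C e * u'),
      u * C e' * 1 + 1 * C e' * u' + X * (u * C e' * u'), ?_, ?_, ?_⟩
    · simp only [zero_add, Function.iterate_one, iter, key, one_mul, mul_one]
    · simp only [map_add, evC_X_mul, zero_smul, add_zero, mul_one, one_mul]
      simp only [map_mul, evC_C, hu, hu', zero_add, pow_one, hT, mul_assoc, h2, mul_one,
        mul_neg, sub_eq_add_neg, add_mul, neg_mul]
    · simp only [map_add, evC_X_mul, zero_smul, add_zero, mul_one, one_mul]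
      simp only [map_mul, evC_C, hu, hu', zero_add, pow_one, hT, mul_sub, ← mul_assoc, h2, one_mul,
        mul_neg, neg_sub]
      rw [sub_eq_add_neg]
  | succ k ih =>
    obtain ⟨P, P', hP, h0, h0'⟩ := ih
    refine ⟨P * C e * C e' + C e * C e * P' + X * (P * C e * P'),
      P * C e' * C e' + C e * C e' * P' + X * (P * C e' * P'), ?_, ?_, ?_⟩
    · rw [Function.iterate_succ_apply', hP]
      simp only [iter, key]
      rw [← C_mul, ← C_mul, ← C_mul, ← C_mul, mul_assoc e e e', h1, mul_one, one_mul]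
    · simp only [map_add, evC_X_mul, zero_smul, add_zero]
      rw [pow_succ' T (k + 1), Module.End.mul_apply, hT]
      simp only [map_mul, evC_C, h0, h0']
      generalize (T ^ (k + 1)) x = y
      calc y * e * e * e' + e * e * -(e' * y) = y * e * (e * e') - e * (e * e') * y := by
            noncomm_ring
        _ = y * e - e * y * (e' * e) := by rw [h1, h2]; noncomm_ring
        _ = _ := by noncomm_ring
    · simp only [map_add, evC_X_mul, zero_smul, add_zero]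
      rw [pow_succ' T (k + 1), Module.End.mul_apply, hT]
      simp only [map_mul, evC_C, h0, h0']
      generalize (T ^ (k + 1)) x = y
      calc y * e * e' * e' + e * e' * -(e' * y) = y * (e * e') * e' - (e * e') * e' * y := by
            noncomm_ring
        _ = (e' * e) * y * e' - e' * y := by rw [h1, h2]; noncomm_ring
        _ = _ := by noncomm_ring

theorem evC_zero_of_const {c : R} {P : R[X]} {e : R} (h : ∀ t : ℚ, evC R t (C c + X * P) = e) :
    evC R 0 P = 0 := by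
  have h0 : c = e := by simpa only [map_add, evC_C, evC_X_mul, zero_smul, add_zero] using h 0
  have := evC_eq P 0 infinite_ne_zero (fun t ht => by
    have h1 := h t
    rw [map_add, evC_C, evC_X_mul, h0, add_eq_left] at h1
    rw [map_zero, ← one_smul ℚ (evC R t P), ← inv_mul_cancel₀ ht, ← smul_smul, h1, smul_zero]) 0
  rwa [map_zero] at this

/- PROOF.  With `e = exp a`, the coefficient of `c` in the pair
`(iter e e⁻¹)^[k] (exp (c x), exp (-c x))` (computed in `R[X]`, constant and linear coefficients):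
for `k ≥ 1` it is `(e + c w k, e⁻¹ - c e⁻¹ (w k) e⁻¹)` with `w 1 = (x - e x e⁻¹) e`,
`w (k + 1) = w k - e (w k) e⁻¹`.  So `(1 - exp A) ^ n x = 0`; and `1 - exp A = -A * unit` with a unit
commuting with `A` (`IsNilpotent.isUnit_one_add`).  For `n = 0` the hypothesis with `x` and `c`
arbitrary gives `exp (c x) = e` for all `c`, so `x = 0`. -/
theorem ad_pow_apply {a x : R} {s n : ℕ} (ha : a ^ s = 0) (hx : x ^ s = 0)
    (h : ∀ c : ℚ, ((iter (IsNilpotent.exp a) (IsNilpotent.exp (-a)))^[n]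
      (IsNilpotent.exp (c • x), IsNilpotent.exp (-(c • x)))).1 = IsNilpotent.exp a) :
    (LieAlgebra.ad ℚ R a ^ n) x = 0 := by
  obtain ⟨u, hu, hu0⟩ := texp_X_mul s (C x)
  obtain ⟨u', hu', hu0'⟩ := texp_X_mul s (C (-x))
  rw [evC_C] at hu0 hu0'
  have hev : ∀ (y : R), y ^ s = 0 → ∀ t : ℚ,
      evC R t (texp (s + 2) (X * C y)) = IsNilpotent.exp (t • y) := fun y hy t => by
    rw [evC_texp, evC_X_mul, evC_C]
    rw [evC_X_mul, evC_C, pow_add, _root_.smul_pow, hy, smul_zero, zero_mul]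
  have key : ∀ t : ℚ, evC R t ((iter (C (IsNilpotent.exp a)) (C (IsNilpotent.exp (-a))))^[n]
      (1 + X * u, 1 + X * u')).1 = IsNilpotent.exp a := fun t => by
    have := congrArg Prod.fst (map_iter (evC R t) (C (IsNilpotent.exp a))
      (C (IsNilpotent.exp (-a))) n (1 + X * u, 1 + X * u'))
    simp only [evC_C] at this
    rw [this, ← hu, ← hu', hev x hx, hev (-x) (by rw [neg_pow, hx, mul_zero]), smul_neg]
    exact h t
  rcases n with _ | k
  · rw [pow_zero, Module.End.one_apply, ← hu0]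
    exact evC_zero_of_const (c := 1) (e := IsNilpotent.exp a) fun t => by
      rw [C_1]
      exact key t
  · have h1 := IsNilpotent.exp_mul_exp_neg_self (⟨s, ha⟩ : IsNilpotent a)
    have h2 := IsNilpotent.exp_neg_mul_exp_self (⟨s, ha⟩ : IsNilpotent a)
    obtain ⟨P, P', hP, h0, -⟩ := iter_linear h1 h2 (1 - IsNilpotent.exp (LieAlgebra.ad ℚ R a))
      (fun z => by rw [LinearMap.sub_apply, exp_ad ⟨s, ha⟩, Module.End.one_apply]) hu0 hu0' k
    rw [hP] at key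
    rw [evC_zero_of_const key] at h0
    refine pow_apply_of_one_sub_exp ⟨_, ad_pow_eq_zero ha⟩ ?_
    rw [← mul_one (((1 - IsNilpotent.exp (LieAlgebra.ad ℚ R a)) ^ (k + 1)) x), ← h1, ← mul_assoc,
      ← h0, zero_mul]

theorem texp_congr {S : Type*} [Ring S] [Algebra ℚ S] {M M' : ℕ} (hM : M ≤ M') {y : S}
    (hy : y ^ M = 0) : texp M y = texp M' y ∧ texp M (-y) = texp M' (-y) := by
  have hy' : (-y) ^ M = 0 := by rw [neg_pow, hy, mul_zero]
  rw [texp_eq_exp hy, texp_eq_exp hy', texp_eq_exp (pow_eq_zero_of_le hM hy),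
    texp_eq_exp (pow_eq_zero_of_le hM hy')]
  exact ⟨rfl, rfl⟩

/-- Congruence modulo `X ^ M`. -/
def xCon (S : Type*) [Ring S] (M : ℕ) : RingCon S[X] where
  r p q := X ^ M ∣ p - q
  iseqv := ⟨fun p => by simp, fun h => by rw [← neg_sub]; exact h.neg_right,
    fun h1 h2 => by simpa using h1.add h2⟩
  mul' := fun {w x y z} h1 h2 => by
    obtain ⟨c, hc⟩ := h1
    obtain ⟨d, hd⟩ := h2
    refine ⟨c * y + x * d, ?_⟩
    have e : x * X ^ M = X ^ M * x := (commute_X_pow x M).eq.symm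
    calc w * y - x * z = (w - x) * y + x * (y - z) := by noncomm_ring
      _ = X ^ M * c * y + (x * X ^ M) * d := by rw [hc, hd, mul_assoc x]
      _ = _ := by rw [e]; noncomm_ring
  add' := fun {w x y z} h1 h2 => by
    have := h1.add h2
    rwa [show w - x + (y - z) = w + y - (x + z) by abel] at this

/- PROOF.  Congruence modulo `X ^ M` (`Polynomial.X_pow_dvd_iff`) is compatible with sums and
products (or map to the quotient ring by the two-sided ideal generated by `X ^ M`);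
`(X * z) ^ k = X ^ k * z ^ k`. -/
theorem engExpr_congr {S : Type*} [Ring S] [Algebra ℚ S] (n M M' : ℕ) (hM : M ≤ M')
    (A B R₁ R₂ : S[X]) (hA : texp M A = texp M' A ∧ texp M (-A) = texp M' (-A))
    (hB : ∃ z, B = X * z) (h1 : ∃ z, R₁ = X * z) (h2 : ∃ z, R₂ = X * z) (j : ℕ) (hj : j < M) :
    (engExpr n M A B R₁ R₂).coeff j = (engExpr n M' A B R₁ R₂).coeff j := by
  have hz : ∀ y : S[X], (∃ z, y = X * z) → (xCon S M).mk' y ^ M = 0 := by
    rintro _ ⟨z, rfl⟩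
    rw [← map_pow, ← map_zero (xCon S M).mk']
    refine (RingCon.eq _).2 ?_
    change X ^ M ∣ (X * z) ^ M - 0
    rw [sub_zero, (commute_X z).mul_pow]
    exact dvd_mul_right _ _
  have hA1 : texp M ((xCon S M).mk' A) = texp M' ((xCon S M).mk' A) := by
    rw [← map_texp, ← map_texp, hA.1]
  have hA2 : texp M (-(xCon S M).mk' A) = texp M' (-(xCon S M).mk' A) := by
    rw [← map_neg, ← map_texp, ← map_texp, hA.2]
  have e : (xCon S M).mk' (engExpr n M A B R₁ R₂) = (xCon S M).mk' (engExpr n M' A B R₁ R₂) := by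
    rw [map_engExpr, map_engExpr]
    simp only [engExpr, hA1, hA2, (texp_congr hM (hz B hB)).1, (texp_congr hM (hz B hB)).2,
      (texp_congr hM (hz R₁ h1)).1, (texp_congr hM (hz R₁ h1)).2, (texp_congr hM (hz R₂ h2)).1,
      (texp_congr hM (hz R₂ h2)).2]
  have hd : X ^ M ∣ engExpr n M A B R₁ R₂ - engExpr n M' A B R₁ R₂ := (RingCon.eq _).1 e
  have := X_pow_dvd_iff.1 hd j hj
  rwa [coeff_sub, sub_eq_zero] at this

/-- The map `z ↦ g z g'`. -/
def cj (g g' : R) : Module.End ℚ R := LinearMap.mulLeft ℚ g * LinearMap.mulRight ℚ g'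

theorem cj_mul (g g' h h' : R) : cj g g' * cj h h' = cj (g * h) (h' * g') := by
  ext z
  simp [cj, mul_assoc]

theorem iter_cj (e e' : R) (n : ℕ) (g g' : R) :
    (iter (cj e e') (cj e' e))^[n] (cj g g', cj g' g) =
      (cj ((iter e e')^[n] (g, g')).1 ((iter e e')^[n] (g, g')).2,
        cj ((iter e e')^[n] (g, g')).2 ((iter e e')^[n] (g, g')).1) := by
  induction n with
  | zero => rfl
  | succ n ih =>
    rw [Function.iterate_succ_apply', Function.iterate_succ_apply', ih]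
    simp only [iter, cj_mul, mul_assoc]

omit [Algebra ℚ R] in
theorem iter_inv {e e' : R} (h1 : e * e' = 1) (h2 : e' * e = 1) (n : ℕ) {g g' : R}
    (h3 : g * g' = 1) (h4 : g' * g = 1) :
    ((iter e e')^[n] (g, g')).1 * ((iter e e')^[n] (g, g')).2 = 1 ∧
      ((iter e e')^[n] (g, g')).2 * ((iter e e')^[n] (g, g')).1 = 1 := by
  induction n with
  | zero => exact ⟨h3, h4⟩
  | succ n ih =>
    rw [Function.iterate_succ_apply']
    generalize (iter e e')^[n] (g, g') = p at ih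
    have key : ∀ a b : R, a * b = 1 → p.1 * a * p.2 * (p.1 * b * p.2) = 1 := fun a b hab => by
      calc p.1 * a * p.2 * (p.1 * b * p.2) = p.1 * (a * (p.2 * p.1) * b) * p.2 := by
            simp only [mul_assoc]
        _ = 1 := by rw [ih.2, mul_one, hab, mul_one, ih.1]
    exact ⟨key _ _ h1, key _ _ h2⟩

theorem texp_ad {s M : ℕ} (hM : 2 * s ≤ M) {y : R} (hy : y ^ s = 0) :
    texp M (LieAlgebra.ad ℚ R y) = cj (IsNilpotent.exp y) (IsNilpotent.exp (-y)) ∧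
      texp M (-LieAlgebra.ad ℚ R y) = cj (IsNilpotent.exp (-y)) (IsNilpotent.exp y) := by
  have key : ∀ y : R, y ^ s = 0 →
      texp M (LieAlgebra.ad ℚ R y) = cj (IsNilpotent.exp y) (IsNilpotent.exp (-y)) := fun y hy => by
    rw [texp_eq_exp (pow_eq_zero_of_le hM (ad_pow_eq_zero hy))]
    ext z
    rw [exp_ad ⟨s, hy⟩]
    simp [cj, mul_assoc]
  refine ⟨key y hy, ?_⟩
  have := key (-y) (by rw [neg_pow, hy, mul_zero])
  rwa [map_neg, neg_neg] at this

theorem engExpr_ad_eq_zero {s M n : ℕ} (hM : 2 * s ≤ M) {a b r₁ r₂ : R} (ha : a ^ s = 0)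
    (hb : b ^ s = 0) (h1 : r₁ ^ s = 0) (h2 : r₂ ^ s = 0)
    (h : ((iter (IsNilpotent.exp a) (IsNilpotent.exp (-a)))^[n]
      (IsNilpotent.exp r₁ * IsNilpotent.exp r₂ * IsNilpotent.exp b * IsNilpotent.exp (-r₂) *
        IsNilpotent.exp (-r₁), IsNilpotent.exp r₁ * IsNilpotent.exp r₂ * IsNilpotent.exp (-b) *
        IsNilpotent.exp (-r₂) * IsNilpotent.exp (-r₁))).1 = IsNilpotent.exp a) :
    engExpr n M (LieAlgebra.ad ℚ R a) (LieAlgebra.ad ℚ R b) (LieAlgebra.ad ℚ R r₁)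
      (LieAlgebra.ad ℚ R r₂) = 0 := by
  have i1 := fun {y : R} (hy : y ^ s = 0) =>
    IsNilpotent.exp_mul_exp_neg_self (⟨s, hy⟩ : IsNilpotent y)
  have i2 := fun {y : R} (hy : y ^ s = 0) =>
    IsNilpotent.exp_neg_mul_exp_self (⟨s, hy⟩ : IsNilpotent y)
  have key : ∀ c c' : R, c * c' = 1 →
      (IsNilpotent.exp r₁ * IsNilpotent.exp r₂ * c * IsNilpotent.exp (-r₂) *
        IsNilpotent.exp (-r₁)) * (IsNilpotent.exp r₁ * IsNilpotent.exp r₂ * c' *
        IsNilpotent.exp (-r₂) * IsNilpotent.exp (-r₁)) = 1 := fun c c' hc => by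
    calc _ = IsNilpotent.exp r₁ * (IsNilpotent.exp r₂ * (c * (IsNilpotent.exp (-r₂) *
          (IsNilpotent.exp (-r₁) * IsNilpotent.exp r₁) * IsNilpotent.exp r₂) * c') *
          IsNilpotent.exp (-r₂)) * IsNilpotent.exp (-r₁) := by simp only [mul_assoc]
      _ = 1 := by rw [i2 h1, mul_one, i2 h2, mul_one, hc, mul_one, i1 h2, mul_one, i1 h1]
  have hinv := (iter_inv (i1 ha) (i2 ha) n (key _ _ (i1 hb)) (key _ _ (i2 hb))).1
  have hc := iter_cj (IsNilpotent.exp a) (IsNilpotent.exp (-a)) n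
    (IsNilpotent.exp r₁ * IsNilpotent.exp r₂ * IsNilpotent.exp b * IsNilpotent.exp (-r₂) *
        IsNilpotent.exp (-r₁)) (IsNilpotent.exp r₁ * IsNilpotent.exp r₂ * IsNilpotent.exp (-b) *
        IsNilpotent.exp (-r₂) * IsNilpotent.exp (-r₁))
  generalize (iter (IsNilpotent.exp a) (IsNilpotent.exp (-a)))^[n] _ = p at h hinv hc
  have h' : p.2 = IsNilpotent.exp (-a) := by
    rw [← one_mul p.2, ← i2 ha, mul_assoc, ← h, hinv, mul_one]
  simp only [engExpr, (texp_ad hM ha).1, (texp_ad hM ha).2, (texp_ad hM hb).1, (texp_ad hM hb).2,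
    (texp_ad hM h1).1, (texp_ad hM h1).2, (texp_ad hM h2).1, (texp_ad hM h2).2, cj_mul]
  simp only [← mul_assoc]
  rw [hc, h, h', sub_self]

/- PROOF.  `(ad a) ^ n = 0` on `𝔤` by `ad_pow_apply` (with `l = [c • x]`) and `ad_pow_compat` for the
inclusion `𝔤.incl`.  For `M' ≥ max M (2 s)`, in `(Module.End ℚ R)[X]` the expression
`engExpr n M' …` evaluated at a rational `t` (ring hom `eval₂RingHom'` at the central element, and
`map_engExpr`) is `Conj (g n) - Conj (exp a) = 0`, where `Conj (g, g') z = g z g'`, by `exp_ad`,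
`texp_eq_exp`, `ad_pow_eq_zero` and `h` for `l = [t ^ 2 • r₁, t ^ d • r₂, t • b, -(t ^ d • r₂), -(t ^ 2 • r₁)]`;
so all coefficients vanish (`coeff_mem`).  Transfer to `𝔤` with `engExpr_compat` and go down from
`M'` to `M` with `engExpr_congr`. -/
theorem model_lieEng (𝔤 : LieSubalgebra ℚ R) (s n : ℕ) (hs : ∀ x ∈ 𝔤, x ^ s = 0) (a : 𝔤)
    (h : ∀ l : List R, (∀ x ∈ l, x ∈ 𝔤) →
      ((iter (IsNilpotent.exp (a : R)) (IsNilpotent.exp (-(a : R))))^[n]
        ((l.map IsNilpotent.exp).prod, (l.reverse.map fun x => IsNilpotent.exp (-x)).prod)).1 =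
          IsNilpotent.exp (a : R)) : LieEng n a := by
  have hA : LieAlgebra.ad ℚ 𝔤 a ^ n = 0 := by
    ext v
    have e := ad_pow_compat 𝔤.incl n a v
    have e2 : (LieAlgebra.ad ℚ R (a : R) ^ n) (v : R) = 0 :=
      ad_pow_apply (hs _ a.2) (hs _ v.2) fun c => by
        simpa using h [c • (v : R)] fun x hx => by
          rw [List.mem_singleton.1 hx]
          exact 𝔤.smul_mem c v.2
    exact e.trans e2
  refine ⟨hA, fun b r₁ r₂ M d j hn hd hj => ?_⟩
  obtain ⟨d, rfl⟩ := Nat.exists_eq_add_of_le' hd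
  rw [engExpr_congr n M (M + 2 * s) (Nat.le_add_right _ _) _ _ _ _
    (texp_congr (Nat.le_add_right _ _) (by
      rw [← map_pow, pow_eq_zero_of_le hn hA, map_zero])) ⟨_, rfl⟩
    ⟨X * C (LieAlgebra.ad ℚ 𝔤 r₁), by rw [pow_two, mul_assoc]⟩
    ⟨X ^ d * C (LieAlgebra.ad ℚ 𝔤 r₂), by rw [pow_succ', mul_assoc]⟩ j hj]
  ext v
  have e := engExpr_compat 𝔤.incl n (M + 2 * s) (d + 1) j a b r₁ r₂ v
  have hX : ∀ (t : ℚ) (k : ℕ) (y : R), evC (Module.End ℚ R) t (X ^ k * C (LieAlgebra.ad ℚ R y)) =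
      LieAlgebra.ad ℚ R (t ^ k • y) := fun t k y => by
    rw [map_mul, map_pow, evC_X, evC_C, ← map_pow, ← Algebra.smul_def, map_smul]
  have e2 := evC_coeff_mem ⊥ (engExpr n (M + 2 * s) (C (LieAlgebra.ad ℚ R (a : R)))
      (X * C (LieAlgebra.ad ℚ R (b : R))) (X ^ 2 * C (LieAlgebra.ad ℚ R (r₁ : R)))
      (X ^ (d + 1) * C (LieAlgebra.ad ℚ R (r₂ : R))) : (Module.End ℚ R)[X]) Set.infinite_univ
    (fun t _ => by
      have m1 := 𝔤.smul_mem (t ^ 2) r₁.2
      have m2 := 𝔤.smul_mem (t ^ (d + 1)) r₂.2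
      have m3 := 𝔤.smul_mem t b.2
      rw [Submodule.mem_bot, map_engExpr, hX, hX, evC_X_mul, evC_C, evC_C, ← map_smul]
      refine engExpr_ad_eq_zero (Nat.le_add_left _ _) (hs _ a.2) (hs _ m3) (hs _ m1) (hs _ m2) ?_
      have := h [t ^ 2 • (r₁ : R), t ^ (d + 1) • (r₂ : R), t • (b : R), -(t ^ (d + 1) • (r₂ : R)),
        -(t ^ 2 • (r₁ : R))] (by
          simp only [List.mem_cons, List.not_mem_nil, or_false]
          rintro x (rfl | rfl | rfl | rfl | rfl)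
          exacts [m1, m2, m3, neg_mem m2, neg_mem m1])
      simpa only [List.map_cons, List.map_nil, List.prod_cons, List.prod_nil, List.reverse_cons,
        List.reverse_nil, List.nil_append, List.cons_append, mul_one, neg_neg, ← mul_assoc]
        using this) j
  rw [Submodule.mem_bot] at e2
  refine e.trans ?_
  change _ = (0 : R)
  simp only [LieSubalgebra.coe_incl]
  rw [e2, LinearMap.zero_apply]

end Pool.Agent.MP_f21dda_al.H92

end

-- part MP_f21dda_al.H92.Filt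
section

/-!
The weight filtration of a nilpotent inner derivation is compatible with the bracket.
-/

namespace Pool.Agent.MP_f21dda_al.H92

open Finset

/- PROOF.  Reduce to `M = ℚ` by `Module.forall_dual_apply_eq_zero_iff`.  `x' i = (-1) ^ i * x i`
has vanishing `k`-th forward differences on windows inside `[0, g]`.  Let `q` be the Lagrange
interpolation polynomial of degree `< k` of `x'` at `0, …, k - 1`; `x' - q` satisfies the same
recurrence (`Polynomial.fwdDiff_iter_eq_zero_of_degree_lt`, `fwdDiff_iter_eq_sum_shift`) and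
vanishes at `0, …, k - 1`, so `x' i = q i` for `i ≤ g`; `q` has `k` roots so `q = 0`.
(If `k > g + 1` the hypothesis on `Z` is contradictory; `k = 0` is direct.) -/
theorem findiff {M : Type*} [AddCommGroup M] [Module ℚ M] (x : ℕ → M) (k g : ℕ)
    (h : ∀ i, i + k ≤ g → ∑ j ∈ range (k + 1), (k.choose j : ℚ) • x (i + j) = 0)
    (Z : Finset ℕ) (hZ : ∀ i ∈ Z, i ≤ g ∧ x i = 0) (hk : k ≤ Z.card) : ∀ i ≤ g, x i = 0 := by
  intro i hi
  rcases Nat.eq_zero_or_pos k with rfl | hk0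
  · simpa using h i hi
  rw [← Module.forall_dual_apply_eq_zero_iff ℚ]
  intro φ
  obtain ⟨q, h1, h2⟩ : ∃ q : Polynomial ℚ, q.natDegree < k ∧
      ∀ i < k, q.eval (i : ℚ) = (-1) ^ i * φ (x i) := by
    have hi : Set.InjOn (fun i : ℕ => (i : ℚ)) (range k) := fun _ _ _ _ e => Nat.cast_injective e
    refine ⟨Lagrange.interpolate (range k) (fun i : ℕ => (i : ℚ)) fun i => (-1) ^ i * φ (x i), ?_,
      fun i hi' => Lagrange.eval_interpolate_at_node _ hi (mem_range.2 hi')⟩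
    have := Lagrange.degree_interpolate_lt (fun i => (-1) ^ i * φ (x i)) hi
    rw [card_range] at this
    by_cases h0 : Lagrange.interpolate (range k) (fun i : ℕ => (i : ℚ))
      (fun i => (-1) ^ i * φ (x i)) = 0
    · rw [h0]; exact hk0
    · exact (Polynomial.natDegree_lt_iff_degree_lt h0).2 this
  have h3 : ∀ i, i ≤ g → q.eval (i : ℚ) = (-1) ^ i * φ (x i) := fun i => by
    induction i using Nat.strong_induction_on with
    | _ i ih =>
      intro hi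
      rcases lt_or_ge i k with hik | hik
      · exact h2 i hik
      obtain ⟨i, rfl⟩ := Nat.exists_eq_add_of_le' hik
      have e1 := congrArg φ (h i hi)
      have e2 := congrFun (Polynomial.fwdDiff_iter_eq_zero_of_degree_lt h1) (i : ℚ)
      rw [fwdDiff_iter_eq_sum_shift, sum_range_succ] at e2
      rw [map_sum, sum_range_succ, map_zero] at e1
      have e3 : ∑ j ∈ range k, ((-1 : ℤ) ^ (k - j) * k.choose j) • q.eval ((i : ℚ) + j • (1 : ℚ)) =
          (-1) ^ (i + k) * ∑ j ∈ range k, φ ((k.choose j : ℚ) • x (i + j)) := by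
        rw [mul_sum]
        refine sum_congr rfl fun j hj => ?_
        have hj := mem_range.1 hj
        obtain ⟨r, rfl⟩ := Nat.exists_eq_add_of_le hj.le
        rw [nsmul_one, ← Nat.cast_add, ih _ (by omega) (by omega), Nat.add_sub_cancel_left,
          map_smul, zsmul_eq_mul, smul_eq_mul]
        push_cast
        ring
      rw [e3, nsmul_one, ← Nat.cast_add] at e2
      simp only [Nat.sub_self, pow_zero, Nat.choose_self, Nat.cast_one, mul_one, one_smul,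
        Pi.zero_apply] at e1 e2
      linear_combination e2 - (-1) ^ (i + k) * e1
  have h4 : q = 0 := by
    refine Polynomial.eq_zero_of_natDegree_lt_card_of_eval_eq_zero' q
      (Z.image fun i : ℕ => (i : ℚ)) (fun t ht => ?_) ?_
    · obtain ⟨j, hj, rfl⟩ := mem_image.1 ht
      rw [h3 j (hZ j hj).1, (hZ j hj).2, map_zero, mul_zero]
    · rw [card_image_of_injective _ Nat.cast_injective]
      omega
  have := h3 i hi
  rw [h4, Polynomial.eval_zero] at this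
  exact (mul_eq_zero.1 this.symm).resolve_left (pow_ne_zero _ (by norm_num))

variable {L : Type*} [LieRing L] [LieAlgebra ℚ L]

/-- The weight filtration of an endomorphism. -/
def wfil (A : Module.End ℚ L) (k : ℤ) : Submodule ℚ L :=
  Submodule.span ℚ {v | ∃ (i j : ℕ) (u : L), (A ^ (i + j + 1)) u = 0 ∧ k ≤ (i : ℤ) - j ∧
    v = (A ^ i) u}

theorem pow_apply_zero {A : Module.End ℚ L} {u : L} {i j : ℕ} (h : (A ^ i) u = 0) (hij : i ≤ j) :
    (A ^ j) u = 0 := by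
  obtain ⟨r, rfl⟩ := Nat.exists_eq_add_of_le' hij
  rw [pow_add, Module.End.mul_apply, h, map_zero]

theorem wfil_anti (A : Module.End ℚ L) : Antitone (wfil A) := fun _ _ h =>
  Submodule.span_mono fun _ ⟨i, j, u, h1, h2, h3⟩ => ⟨i, j, u, h1, h.trans h2, h3⟩

theorem wfil_ker {A : Module.End ℚ L} {k : ℕ} {v : L} (h : (A ^ (k + 1)) v = 0) :
    v ∈ wfil A (-k) :=
  Submodule.subset_span ⟨0, k, v, by rwa [zero_add], by simp, by simp⟩

theorem wfil_step {A : Module.End ℚ L} {k : ℤ} {v : L} (h : v ∈ wfil A k) :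
    A v ∈ wfil A (k + 2) := by
  refine (Submodule.span_le (p := (wfil A (k + 2)).comap A)).2 ?_ h
  rintro _ ⟨i, j, u, h1, h2, rfl⟩
  change A ((A ^ i) u) ∈ wfil A (k + 2)
  rw [← Module.End.mul_apply, ← pow_succ']
  rcases j with _ | j
  · rw [add_zero] at h1
    rw [h1]
    exact Submodule.zero_mem _
  · exact Submodule.subset_span ⟨i + 1, j, u, pow_apply_zero h1 (by omega), by omega, rfl⟩

theorem wfil_pow {A : Module.End ℚ L} {k : ℤ} {v : L} (h : v ∈ wfil A k) (n : ℕ) :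
    (A ^ n) v ∈ wfil A (k + 2 * n) := by
  induction n with
  | zero => simpa using h
  | succ n ih =>
    rw [pow_succ', Module.End.mul_apply]
    exact wfil_anti A (by omega) (wfil_step ih)

/-- The span of the brackets of total degree `e`. -/
def lam (A : Module.End ℚ L) (u u' : L) (e : ℕ) : Submodule ℚ L :=
  Submodule.span ℚ {w | ∃ i i' : ℕ, i + i' = e ∧ w = ⁅(A ^ i) u, (A ^ i') u'⁆}

section

variable {A : Module.End ℚ L} (hA : ∀ x y, A ⁅x, y⁆ = ⁅A x, y⁆ + ⁅x, A y⁆) {u u' : L} {p p' : ℕ}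
  (hu : (A ^ (p + 1)) u = 0) (hu' : (A ^ (p' + 1)) u' = 0)

include hA in
theorem lam_pow {e : ℕ} {v : L} (h : v ∈ lam A u u' e) (n : ℕ) :
    (A ^ n) v ∈ lam A u u' (e + n) := by
  induction n with
  | zero => simpa using h
  | succ n ih =>
    rw [pow_succ', Module.End.mul_apply]
    refine (Submodule.span_le (p := (lam A u u' (e + (n + 1))).comap A)).2 ?_ ih
    rintro _ ⟨i, i', h1, rfl⟩
    change A _ ∈ lam A u u' (e + (n + 1))
    rw [hA, ← Module.End.mul_apply A (A ^ i), ← Module.End.mul_apply A (A ^ i'), ← pow_succ',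
      ← pow_succ']
    exact Submodule.add_mem _ (Submodule.subset_span ⟨_, _, by omega, rfl⟩)
      (Submodule.subset_span ⟨_, _, by omega, rfl⟩)

include hu hu' in
theorem lam_bot {e : ℕ} (he : p + p' < e) {v : L} (h : v ∈ lam A u u' e) : v = 0 := by
  refine (Submodule.span_le (p := ⊥)).2 ?_ h
  rintro _ ⟨i, i', h1, rfl⟩
  change _ = 0
  rcases le_or_gt i p with h2 | h2
  · rw [pow_apply_zero hu' (by omega), lie_zero]
  · rw [pow_apply_zero hu (by omega), zero_lie]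

include hA hu hu'

theorem lam_surj {e k : ℕ} (he : e + e + k = p + p') :
    lam A u u' (e + k) ≤ (lam A u u' e).map (A ^ k) := by
  refine Submodule.span_le.2 ?_
  rintro _ ⟨i, i', h1, rfl⟩
  have := findiff (fun i => ((lam A u u' e).map (A ^ k)).mkQ ⁅(A ^ i) u, (A ^ (e + k - i)) u'⁆)
    k (e + k) (fun i hi => ?_) (range (e + k + 1) \ Icc (e + k - p') (min p (e + k)))
    (fun i hi => ?_) ?_ i (by omega)
  · rw [show e + k - i = i' by omega] at this
    exact (Submodule.Quotient.mk_eq_zero _).1 this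
  · have h2 := leibniz (LinearMap.mk₂ ℚ (fun x y : L => ⁅x, y⁆) add_lie smul_lie lie_add lie_smul)
      A A A hA k ((A ^ i) u) ((A ^ (e - i)) u')
    have h3 : ((lam A u u' e).map (A ^ k)).mkQ ((A ^ k) ⁅(A ^ i) u, (A ^ (e - i)) u'⁆) = 0 :=
      (Submodule.Quotient.mk_eq_zero _).2
        ⟨_, Submodule.subset_span ⟨i, e - i, by omega, rfl⟩, rfl⟩
    change (A ^ k) ⁅(A ^ i) u, (A ^ (e - i)) u'⁆ = _ at h2
    rw [h2, map_sum] at h3
    rw [← h3]
    refine sum_congr rfl fun j hj => ?_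
    have hj := mem_range.1 hj
    rw [map_smul, show e + k - (i + j) = k - j + (e - i) by omega, add_comm i j, pow_add, pow_add]
    rfl
  · rw [mem_sdiff, mem_range, mem_Icc] at hi
    refine ⟨by omega, ?_⟩
    rcases le_or_gt i p with h2 | h2
    · rw [pow_apply_zero hu' (by omega), lie_zero, map_zero]
    · rw [pow_apply_zero hu (by omega), zero_lie, map_zero]
  · refine le_trans ?_ (le_card_sdiff _ _)
    rw [card_range, Nat.card_Icc]
    omega

theorem lam_low (e : ℕ) : ∀ k : ℕ, e + e + k = p + p' → ∀ v ∈ lam A u u' e, v ∈ wfil A (-k) := by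
  induction e with
  | zero => exact fun k hk v hv => wfil_ker (lam_bot hu hu' (by omega) (lam_pow hA hv _))
  | succ e ih =>
    intro k hk v hv
    have h1 := lam_pow hA hv (k + 1)
    rw [show e + 1 + (k + 1) = e + (k + 2) by ring] at h1
    obtain ⟨w, h2, h3⟩ := lam_surj hA hu hu' (by omega) h1
    have h4 : (A ^ (k + 1)) (v - A w) = 0 := by
      rw [map_sub, ← h3, pow_succ A (k + 1), Module.End.mul_apply, sub_self]
    have := Submodule.add_mem _ (wfil_ker h4)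
      (wfil_anti A (by omega) (wfil_step (ih (k + 2) (by omega) w h2)))
    rwa [sub_add_cancel] at this

theorem lam_le (e : ℕ) {v : L} (hv : v ∈ lam A u u' e) : v ∈ wfil A (2 * e - (p + p')) := by
  rcases le_or_gt (e + e) (p + p') with h | h
  · obtain ⟨k, hk⟩ := Nat.exists_eq_add_of_le h
    exact wfil_anti A (by omega) (lam_low hA hu hu' e k hk.symm v hv)
  rcases le_or_gt e (p + p') with h' | h'
  · obtain ⟨e', he'⟩ := Nat.exists_eq_add_of_le h'
    obtain ⟨k, rfl⟩ := Nat.exists_eq_add_of_le (show e' ≤ e by omega)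
    obtain ⟨w, h2, rfl⟩ := lam_surj hA hu hu' (by omega) hv
    exact wfil_anti A (by omega) (wfil_pow (lam_low hA hu hu' e' k (by omega) w h2) k)
  · rw [lam_bot hu hu' h' hv]
    exact Submodule.zero_mem _

end

/- PROOF.  `A = ad a`.  `F k = span {A ^ i u | A ^ (i + j + 1) u = 0, k ≤ i - j}`.
`top`: `i = 0`, `j = d`.  `bot`: `i ≥ d + 1`.  `ad`: `A (A ^ i u) = A ^ (i + 1) u` is zero if
`j = 0`, else use `(i + 1, j - 1)`.  `ker`: `i = 0`, `j = d - 1` (for `d = 0` the hypothesis says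
`x = 0`).  `lie`: fix `u, u'` with `A ^ (p + 1) u = 0`, `A ^ (p' + 1) u' = 0`, `P = p + p'`,
`e i i' = ⁅A ^ i u, A ^ i' u'⁆`, `Λ e = span {e i (e - i) | i ≤ e}`.  `A (Λ e) ≤ Λ (e + 1)`,
`Λ e = ⊥` for `e > P`.  SURJ: for `2 e ≤ P`, `Λ (P - e) ≤ (A ^ (P - 2 e)) (Λ e)`: apply `findiff`
in the quotient of `L` by the right side to `x i = e i (g - i)`, `g = P - e`, `k = P - 2 e`, using
`leibniz` (`A ^ k (e i (e - i)) = ∑ j, choose k j • e (i + j) (g - (i + j))`), with zero set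
`(p, g] ∪ [0, g - p')`, which has at least `k` elements.  Then `Λ e ≤ F (2 e - P)` for `2 e ≤ P` by
induction on `e`: for `v ∈ Λ e`, `A ^ (P - 2 e + 1) v ∈ Λ (P - e + 1) = A ^ (P - 2 e + 2) (Λ (e - 1))`
so `v - A w ∈ ker A ^ (P - 2 e + 1) ≤ F (2 e - P)`; for `2 e > P` use SURJ and `ad`.
Finally `⁅A ^ i u, A ^ i' u'⁆ ∈ F (2 (i + i') - P)` with `p = i + j`, `p' = i' + j'`, and
bilinearity (span induction). -/
theorem exists_WF (a : L) (d : ℕ) (h : LieAlgebra.ad ℚ L a ^ (d + 1) = 0) : Nonempty (WF a d) := by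
  refine ⟨⟨wfil (LieAlgebra.ad ℚ L a), wfil_anti _, ?_, ?_, fun k l x y hx hy => ?_,
    fun _ _ => wfil_step, fun x hx => ?_⟩⟩
  · exact eq_top_iff.2 fun x _ => wfil_ker (by rw [h, LinearMap.zero_apply])
  · refine eq_bot_iff.2 (Submodule.span_le.2 ?_)
    rintro _ ⟨i, j, u, -, h2, rfl⟩
    exact pow_apply_zero (i := d + 1) (by rw [h, LinearMap.zero_apply]) (by omega)
  · induction hx using Submodule.span_induction with
    | zero => rw [zero_lie]; exact Submodule.zero_mem _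
    | add _ _ _ _ h1 h2 => rw [add_lie]; exact Submodule.add_mem _ h1 h2
    | smul _ _ _ h1 => rw [smul_lie]; exact Submodule.smul_mem _ _ h1
    | mem x hx =>
      induction hy using Submodule.span_induction with
      | zero => rw [lie_zero]; exact Submodule.zero_mem _
      | add _ _ _ _ h1 h2 => rw [lie_add]; exact Submodule.add_mem _ h1 h2
      | smul _ _ _ h1 => rw [lie_smul]; exact Submodule.smul_mem _ _ h1
      | mem y hy =>
        obtain ⟨i, j, u, h1, h2, rfl⟩ := hx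
        obtain ⟨i', j', u', h1', h2', rfl⟩ := hy
        exact wfil_anti _ (by omega) (lam_le (leibniz_lie a) h1 h1' (i + i')
          (Submodule.subset_span ⟨i, i', rfl, rfl⟩))
  · rcases d with _ | d
    · rw [pow_zero, Module.End.one_apply] at hx
      rw [hx]
      exact Submodule.zero_mem _
    · exact wfil_anti _ (by omega) (wfil_ker hx)

end Pool.Agent.MP_f21dda_al.H92

end

-- part MP_f21dda_al.H92.Jordan
section

/-!
A nondegenerate Jordan algebra over the rationals which is nil of bounded index is zero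
(relative form).
-/

namespace Pool.Agent.MP_f21dda_al.H92

/-- Sequences with the recurrence `s (k + 2) = e₁ s (k + 1) - e₂ s k`. -/
def jseq {R : Type*} [CommRing R] (e₁ e₂ u v : R) : ℕ → R
  | 0 => u
  | 1 => v
  | k + 2 => e₁ * jseq e₁ e₂ u v (k + 1) - e₂ * jseq e₁ e₂ u v k

section

variable {R : Type*} [CommRing R] (e₁ e₂ : R)

theorem jseq_add (u v : R) (k : ℕ) :
    jseq e₁ e₂ u v (k + 2) = e₁ * jseq e₁ e₂ u v (k + 1) - e₂ * jseq e₁ e₂ u v k := rfl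

theorem jseq_ph (k : ℕ) :
    jseq e₁ e₂ 2 e₁ (k + 1) = 2 * jseq e₁ e₂ 1 e₁ (k + 1) - e₁ * jseq e₁ e₂ 1 e₁ k := by
  induction k using Nat.twoStepInduction with
  | zero => simp only [jseq]; ring
  | one => simp only [jseq]; ring
  | more k h1 h2 =>
    rw [jseq, h1, h2, jseq_add e₁ e₂ 1 e₁ (k + 1), jseq_add e₁ e₂ 1 e₁ k]
    ring

theorem jseq_hh (k : ℕ) : jseq e₁ e₂ 1 e₁ (k + 1) * jseq e₁ e₂ 1 e₁ (k + 1) -
    jseq e₁ e₂ 1 e₁ (k + 2) * jseq e₁ e₂ 1 e₁ k = e₂ ^ (k + 1) := by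
  induction k with
  | zero => simp only [jseq]; ring
  | succ k ih =>
    rw [pow_succ, ← ih, jseq_add e₁ e₂ 1 e₁ (k + 1), jseq_add e₁ e₂ 1 e₁ k]
    ring

theorem jseq_pp (b c : ℕ) : jseq e₁ e₂ 2 e₁ (c + b) * jseq e₁ e₂ 2 e₁ b =
    jseq e₁ e₂ 2 e₁ (c + 2 * b) + e₂ ^ b * jseq e₁ e₂ 2 e₁ c := by
  induction b using Nat.twoStepInduction generalizing c with
  | zero => simp only [jseq, add_zero, mul_zero]; ring
  | one => simp only [jseq]; ring
  | more b h1 h2 =>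
    have a1 := h1 (c + 2)
    have a2 := h2 (c + 1)
    rw [show c + 2 + b = c + (b + 2) by ring, show c + 2 + 2 * b = c + 2 * b + 2 by ring,
      jseq_add e₁ e₂ 2 e₁ c] at a1
    rw [show c + 1 + (b + 1) = c + (b + 2) by ring,
      show c + 1 + 2 * (b + 1) = c + 2 * b + 2 + 1 by ring] at a2
    rw [jseq_add e₁ e₂ 2 e₁ b, show c + 2 * (b + 2) = c + 2 * b + 2 + 2 by ring,
      jseq_add e₁ e₂ 2 e₁ (c + 2 * b + 2)]
    linear_combination e₁ * a2 - e₂ * a1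

end

section

variable {J : Type*} [AddCommGroup J] [Module ℚ J] (m : J →ₗ[ℚ] J →ₗ[ℚ] J)

/-- `jpw m x k` is the power `x ^ (k + 1)`. -/
def jpw (x : J) : ℕ → J
  | 0 => x
  | k + 1 => m x (jpw x k)

variable {m} (hc : ∀ x y, m x y = m y x) (hj : ∀ x v, m (m x x) (m x v) = m x (m (m x x) v))

include hc hj

theorem jlin (x c v : J) : m (m x x) (m c v) + (2 : ℚ) • m (m x c) (m x v) =
    m c (m (m x x) v) + (2 : ℚ) • m x (m (m x c) v) := by
  have h1 := hj (x + c) v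
  have h2 := hj (x - c) v
  have h3 := hj c v
  simp only [map_add, map_sub, LinearMap.add_apply, LinearMap.sub_apply, hc c x] at h1 h2
  linear_combination (norm := module) (1 / 2 : ℚ) • (h1 - h2) - h3

theorem jsq_pw (x : J) (k : ℕ) : m (m x x) (jpw m x k) = jpw m x (k + 2) := by
  induction k with
  | zero => exact hc _ _
  | succ k ih => rw [jpw, hj, ih]; rfl

theorem jrec (x c : J) (k : ℕ) : m (jpw m x (k + 2)) c = (2 : ℚ) • m x (m (jpw m x (k + 1)) c) -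
    ((2 : ℚ) • m x (m x (m (jpw m x k) c)) - m (m x x) (m (jpw m x k) c)) +
    (2 : ℚ) • (m (jpw m x (k + 1)) (m x c) - m x (m (jpw m x (k + 1)) c)) -
    (2 : ℚ) • m x (m (jpw m x k) (m x c) - m x (m (jpw m x k) c)) := by
  have h := jlin hc hj x c (jpw m x k)
  rw [jsq_pw hc hj, hc c, hc c, hc (m x c), hc (m x c)] at h
  rw [map_sub]
  change m (m x x) (m (jpw m x k) c) + (2 : ℚ) • m (jpw m x (k + 1)) (m x c) = _ at h
  linear_combination (norm := module) -h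

theorem jpw_add (x : J) (i j : ℕ) : m (jpw m x i) (jpw m x j) = jpw m x (i + j + 1) := by
  induction i using Nat.twoStepInduction generalizing j with
  | zero => rw [zero_add]; rfl
  | one => rw [add_comm 1 j]; exact jsq_pw hc hj x j
  | more i h1 h2 =>
    have e : ∀ k, m x (jpw m x k) = jpw m x (k + 1) := fun _ => rfl
    rw [jrec hc hj]
    simp only [e, h1, h2, jsq_pw hc hj]
    rw [show i + 1 + j + 1 + 1 = i + j + 3 by ring, show i + j + 1 + 1 + 1 = i + j + 3 by ring,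
      show i + 1 + (j + 1) + 1 = i + j + 3 by ring, show i + (j + 1) + 1 = i + j + 1 + 1 by ring,
      show i + 2 + j + 1 = i + j + 3 by ring]
    simp only [sub_self, map_zero]
    module

theorem jiter (x : J) (n : ℕ) : (fun x => m x x)^[n] x = jpw m x (2 ^ n - 1) := by
  induction n with
  | zero => rfl
  | succ n ih =>
    rw [Function.iterate_succ_apply', ih, jpw_add hc hj]
    have := Nat.one_le_two_pow (n := n)
    congr 1
    omega

omit hc hj in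
theorem jcoef (x v : J) (k : ℕ) : ∃ w : ℕ → J, w 0 = jpw m x k ∧
    (∀ i, k + 2 ≤ i → w i = 0) ∧
    (∀ c : ℚ, jpw m (x + c • v) k = ∑ i ∈ Finset.range (k + 2), c ^ i • w i) ∧
    ∀ δ : ℕ → J, δ 0 = v → (∀ i, δ (i + 1) = m x (δ i) + m v (jpw m x i)) → w 1 = δ k := by
  induction k with
  | zero =>
    refine ⟨fun i => if i = 0 then x else if i = 1 then v else 0, rfl, fun i hi => ?_,
      fun c => ?_, fun δ h _ => h.symm⟩
    · exact (if_neg (by omega)).trans (if_neg (by omega))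
    · simp [Finset.sum_range_succ, jpw]
  | succ k ih =>
    obtain ⟨w, h0, h1, h2, h3⟩ := ih
    refine ⟨fun i => Nat.casesOn i (m x (w 0)) fun i => m x (w (i + 1)) + m v (w i), ?_,
      fun i hi => ?_, fun c => ?_, fun δ a b => ?_⟩
    · exact congrArg _ h0
    · obtain ⟨i, rfl⟩ := Nat.exists_eq_add_of_le' (show 1 ≤ i by omega)
      change m x (w (i + 1)) + m v (w i) = 0
      rw [h1 _ (by omega), h1 _ (by omega), map_zero, map_zero, add_zero]
    · rw [jpw, h2, Finset.sum_range_succ' (n := k + 2)]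
      simp only [map_add, map_smul, LinearMap.add_apply, LinearMap.smul_apply, map_sum, smul_add,
        Finset.sum_add_distrib, smul_smul, pow_zero, one_smul]
      rw [Finset.sum_range_succ' (n := k + 1), Finset.sum_range_succ (n := k + 1)
        (f := fun i => c ^ (i + 1) • m x (w (i + 1))), h1 (k + 1 + 1) le_rfl]
      simp only [map_zero, smul_zero, add_zero, pow_zero, one_smul, pow_succ]
      exact add_right_comm _ _ _
    · change m x (w 1) + m v (w 0) = _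
      rw [b, h3 δ a b, h0]

theorem jdescent (K : Submodule ℚ J) (hK : ∀ c, ∀ b ∈ K, m c b ∈ K)
    (hnd : ∀ z, (∀ v, (2 : ℚ) • m z (m z v) - m (m z z) v ∈ K) → z ∈ K) (k : ℕ)
    (h : ∀ x, jpw m x (k + 1) ∈ K) (x : J) {R : Type*} [CommRing R] (φ : R →+* Module.End ℚ J)
    {a b : R} (ha : φ a = m x) (hb : φ b = m (m x x)) : jpw m x k ∈ K := by
  obtain ⟨e₁, he₁⟩ : ∃ e, e = 2 * a := ⟨_, rfl⟩
  obtain ⟨e₂, he₂⟩ : ∃ e, e = 2 * a * a - b := ⟨_, rfl⟩
  have two : ∀ (r : R) (v : J), φ (2 * r) v = (2 : ℚ) • φ r v := fun r v => by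
    rw [two_mul, map_add, LinearMap.add_apply, two_smul]
  have f1 : ∀ v, φ e₁ v = (2 : ℚ) • m x v := fun v => by rw [he₁, two, ha]
  have f2 : ∀ v, φ e₂ v = (2 : ℚ) • m x (m x v) - m (m x x) v := fun v => by
    rw [he₂, map_sub, mul_assoc, LinearMap.sub_apply, two, map_mul, ha, hb]
    rfl
  have mul : ∀ (r s : R) (v : J), φ (r * s) v = φ r (φ s v) := fun r s v => by
    rw [map_mul]; rfl
  have hp : ∀ i v, φ (jseq e₁ e₂ 2 e₁ (i + 1)) v = (2 : ℚ) • m (jpw m x i) v := fun i => by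
    have cm : ∀ i, (∀ v, φ (jseq e₁ e₂ 2 e₁ (i + 1)) v = (2 : ℚ) • m (jpw m x i) v) →
        ∀ v, m (jpw m x i) (m x v) - m x (m (jpw m x i) v) = 0 := fun i hi v => by
      have := mul a (jseq e₁ e₂ 2 e₁ (i + 1)) v
      rw [mul_comm, mul, ha, hi, hi, map_smul] at this
      linear_combination (norm := module) (1 / 2 : ℚ) • this
    induction i using Nat.twoStepInduction with
    | zero => exact f1
    | one =>
      intro v
      have : jseq e₁ e₂ 2 e₁ (1 + 1) = 2 * b := by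
        simp only [jseq, he₁, he₂]
        ring
      rw [this, two, hb]
      rfl
    | more i h1 h2 =>
      intro v
      rw [jseq, map_sub, LinearMap.sub_apply, mul, mul, h1, h2, f1, f2, jrec hc hj, cm _ h1,
        cm _ h2]
      simp only [map_smul, map_zero]
      module
  have hh : ∀ v, φ (jseq e₁ e₂ 1 e₁ (k + 1)) v ∈ K := fun v => by
    obtain ⟨w, -, -, h2, h3⟩ := jcoef (m := m) x v (k + 1)
    rw [← h3 (fun i => φ (jseq e₁ e₂ 1 e₁ i) v) (by simp [jseq]) fun i => ?_]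
    · exact coeff_mem K _ w Set.univ Set.infinite_univ (fun c _ => h2 c ▸ h _) 1 (by omega)
    · have := hp i v
      rw [jseq_ph, map_sub, LinearMap.sub_apply, two, mul, f1, hc _ v] at this
      linear_combination (norm := module) (1 / 2 : ℚ) • this
  have hh2 : ∀ v, φ (jseq e₁ e₂ 1 e₁ (k + 2)) v ∈ K := fun v => by
    have := hp (k + 1) v
    rw [jseq_ph, map_sub, LinearMap.sub_apply, two, mul, f1, hc _ v] at this
    have e : φ (jseq e₁ e₂ 1 e₁ (k + 2)) v =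
        m v (jpw m x (k + 1)) + m x (φ (jseq e₁ e₂ 1 e₁ (k + 1)) v) := by
      linear_combination (norm := module) (1 / 2 : ℚ) • this
    rw [e]
    exact K.add_mem (hK _ _ (h x)) (hK _ _ (hh v))
  refine hnd _ fun v => ?_
  have e1 := congrArg (fun r => φ r v) (jseq_pp e₁ e₂ (k + 1) 0)
  have e2 := congrArg (fun r => φ r v) (jseq_hh e₁ e₂ k)
  simp only [zero_add, map_add, map_sub, LinearMap.add_apply, LinearMap.sub_apply, mul] at e1 e2
  rw [show 2 * (k + 1) = k + k + 1 + 1 by ring, hp, hp, hp, ← mul, mul_comm, jseq, two, ← e2,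
    map_smul] at e1
  have e : (2 : ℚ) • m (jpw m x k) (m (jpw m x k) v) - m (m (jpw m x k) (jpw m x k)) v =
      φ (jseq e₁ e₂ 1 e₁ (k + 1)) (φ (jseq e₁ e₂ 1 e₁ (k + 1)) v) -
        φ (jseq e₁ e₂ 1 e₁ (k + 2)) (φ (jseq e₁ e₂ 1 e₁ k) v) := by
    rw [jpw_add hc hj]
    linear_combination (norm := module) (1 / 2 : ℚ) • e1
  rw [e]
  exact K.sub_mem (hh _) (hh2 _)

end

/- PROOF.  Powers: `pw x 0 = x`, `pw x (k + 1) = m x (pw x k)` (so `pw x k = x ^ (k + 1)`).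
Linearising `hj` in `x` (compare `x + c`, `x - c`, `c`):
`m (m x x) (m c v) + 2 m (m x c) (m x v) = m c (m (m x x) v) + 2 m x (m (m x c) v)`.
Read as an operator on `c` with `v = x ^ k`:
`L (x ^ 2 x ^ k) = L (x ^ 2) L (x ^ k) + 2 L (x ^ (k + 1)) L x - 2 L x L (x ^ k) L x`.
Put `e₁ = 2 L x`, `e₂ = U x = 2 L x L x - L (x ^ 2)` (they commute by `hj`), and define operator
sequences `p 0 = 2`, `p 1 = e₁`, `h 0 = 1`, `h 1 = e₁`, `s (k + 2) = e₁ s (k + 1) - e₂ s k`; all these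
commute (work in the commutative ring `Algebra.adjoin ℚ {e₁, e₂}` or prove the identities for
polynomials in two commuting elements).  By induction `p k = 2 L (x ^ k)` for `k ≥ 1`
(note `x ^ 2 x ^ k = x ^ (k + 2)` by `hj`), and `L (x ^ i) x ^ j = x ^ (i + j)`; so repeated squaring
gives `x ^ (2 ^ n) = 0`.  Ring identities: `p (k + 1) = 2 h (k + 1) - e₁ h k`,
`h (k + 1) ^ 2 - h (k + 2) h k = e₂ ^ (k + 1)`, `p a p b = p (a + b) + e₂ ^ b p (a - b)` for `b ≤ a`, so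
`U (x ^ k) = e₂ ^ k`.  The coefficient of `c` in `(x + c v) ^ (k + 1)` is `h k v`
(recursion `δ (k + 1) = L x δ k + L (x ^ k)`).
DESCENT: if `x ^ N ∈ K` for all `x`, `N ≥ 2`, then `h (N - 1) v ∈ K` for all `v` (`coeff_mem`),
`p N v ∈ K` (`K` is an ideal), so `h N v ∈ K`, so `e₂ ^ (N - 1) v ∈ K`, so by `hnd`
`x ^ (N - 1) ∈ K`.  Hence `x ∈ K` for all `x`. -/
theorem jordan_nil {J : Type*} [AddCommGroup J] [Module ℚ J] (m : J →ₗ[ℚ] J →ₗ[ℚ] J)
    (hc : ∀ x y, m x y = m y x) (hj : ∀ x v, m (m x x) (m x v) = m x (m (m x x) v))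
    (K : Submodule ℚ J) (hK : ∀ c, ∀ b ∈ K, m c b ∈ K)
    (hnd : ∀ z, (∀ v, (2 : ℚ) • m z (m z v) - m (m z z) v ∈ K) → z ∈ K) (n : ℕ)
    (hn : ∀ x, (fun x => m x x)^[n] x = 0) : K = ⊤ := by
  have key : ∀ k, (∀ x, jpw m x k ∈ K) → K = ⊤ := fun k => by
    induction k with
    | zero => exact fun h => eq_top_iff.2 fun x _ => h x
    | succ k ih =>
      refine fun h => ih fun x => ?_
      have := Algebra.isMulCommutative_adjoin ℚ (A := Module.End ℚ J) (s := {m x, m (m x x)}) (by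
        have e : (m (m x x) * m x : Module.End ℚ J) = m x * m (m x x) := LinearMap.ext (hj x)
        rintro _ (rfl | rfl) _ (rfl | rfl)
        exacts [rfl, e.symm, e, rfl])
      open scoped IsMulCommutative in
      exact jdescent hc hj K hK hnd k h x
        (Algebra.adjoin ℚ ({m x, m (m x x)} : Set (Module.End ℚ J))).val.toRingHom
        (a := ⟨_, Algebra.subset_adjoin (Or.inl rfl)⟩)
        (b := ⟨_, Algebra.subset_adjoin (Or.inr rfl)⟩) rfl rfl
  exact key _ fun x => jiter hc hj x n ▸ (hn x).symm ▸ K.zero_mem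

end Pool.Agent.MP_f21dda_al.H92

end

-- part MP_f21dda_al.H92.Pair
section

/-!
The Jordan algebra attached to the top of the weight filtration.
-/

namespace Pool.Agent.MP_f21dda_al.H92

variable {L : Type*} [LieRing L] [LieAlgebra ℚ L]

theorem WF.pow_mem {a : L} {d : ℕ} (W : WF a d) (i : ℕ) (k : ℤ) (x : L) (hx : x ∈ W.F k) :
    (LieAlgebra.ad ℚ L a ^ i) x ∈ W.F (k + 2 * i) := by
  induction i with
  | zero => simpa using hx
  | succ i ih =>
    have := W.ad _ _ ih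
    rw [pow_succ', Module.End.mul_apply, LieAlgebra.ad_apply]
    convert this using 2
    push_cast
    ring

theorem WF.mem_top {a : L} {d : ℕ} (W : WF a d) (x : L) : x ∈ W.F (-d) := by
  rw [W.top]
  trivial

theorem WF.eq_zero {a : L} {d : ℕ} (W : WF a d) {k : ℤ} (hk : (d : ℤ) + 1 ≤ k) {x : L}
    (hx : x ∈ W.F k) : x = 0 := by
  have := W.anti hk hx
  rwa [W.bot, Submodule.mem_bot] at this

theorem WF.lie' {a : L} {d : ℕ} (W : WF a d) {k l j : ℤ} {x y : L} (hx : x ∈ W.F k)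
    (hy : y ∈ W.F l) (h : j ≤ k + l) : ⁅x, y⁆ ∈ W.F j := W.anti h (W.lie k l x y hx hy)

theorem WF.pow_succ_eq {a : L} {d : ℕ} (W : WF a d) : LieAlgebra.ad ℚ L a ^ (d + 1) = 0 := by
  ext x
  exact W.eq_zero (by push_cast; omega) (W.pow_mem (d + 1) _ x (W.mem_top x))

theorem WF.pow_mem_top {a : L} {d : ℕ} (W : WF a d) (x : L) :
    (LieAlgebra.ad ℚ L a ^ d) x ∈ W.F d :=
  W.anti (by omega) (W.pow_mem d _ x (W.mem_top x))

theorem WF.pow_eq_zero {a : L} {d : ℕ} (W : WF a d) {x : L} (hx : x ∈ W.F (-d + 1)) :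
    (LieAlgebra.ad ℚ L a ^ d) x = 0 :=
  W.eq_zero (by omega) (W.pow_mem d _ x hx)

theorem ad_pow_sq (a w : L) (d : ℕ) (h : LieAlgebra.ad ℚ L a ^ (d + 1) = 0) :
    LieAlgebra.ad ℚ L ((LieAlgebra.ad ℚ L a ^ d) w) ^ 2 = ((-1 : ℚ) ^ d) •
      (LieAlgebra.ad ℚ L a ^ d * LieAlgebra.ad ℚ L w ^ 2 * LieAlgebra.ad ℚ L a ^ d) := by
  set A := LieAlgebra.ad ℚ L a with hA
  set V := LieAlgebra.ad ℚ L w with hV
  have hz : ∀ i, d < i → A ^ i = 0 := fun i hi => pow_eq_zero_of_le hi h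
  let δ : Module.End ℚ (Module.End ℚ L) := LinearMap.mulLeft ℚ A - LinearMap.mulRight ℚ A
  have hδ : ∀ X, δ X = A * X - X * A := fun _ => rfl
  have h1 : ∀ i : ℕ, (δ ^ i) V = LieAlgebra.ad ℚ L ((A ^ i) w) := fun i => by
    induction i with
    | zero => rfl
    | succ i ih =>
      rw [pow_succ', Module.End.mul_apply, ih, pow_succ', Module.End.mul_apply, hδ]
      ext x
      simp [hA]
  have h2 := leibniz (LinearMap.mul ℚ (Module.End ℚ L)) δ δ δ
    (fun x y => by simp only [LinearMap.mul_apply', hδ]; noncomm_ring) (2 * d) V V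
  have h3 := leibniz ((LinearMap.mul ℚ (Module.End ℚ L)).comp (LinearMap.mulRight ℚ (V * V)))
    (LinearMap.mulLeft ℚ A) (-LinearMap.mulRight ℚ A) δ
    (fun x y => by
      simp only [LinearMap.comp_apply, LinearMap.mul_apply', hδ, LinearMap.mulRight_apply,
        LinearMap.mulLeft_apply, LinearMap.neg_apply]
      noncomm_ring) (2 * d) 1 1
  have h4 : ∀ i : ℕ, (LinearMap.mulLeft ℚ A ^ i) 1 = A ^ i := fun i => by
    rw [LinearMap.pow_mulLeft, LinearMap.mulLeft_apply, mul_one]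
  have h5 : ∀ i : ℕ, ((-LinearMap.mulRight ℚ A) ^ i) 1 = ((-1 : ℚ) ^ i) • A ^ i := fun i => by
    rw [← neg_one_smul ℚ, smul_pow, LinearMap.smul_apply, LinearMap.pow_mulRight,
      LinearMap.mulRight_apply, one_mul]
  simp only [LinearMap.comp_apply, LinearMap.mul_apply', LinearMap.mulRight_apply, h4, h5, h1,
    one_mul, mul_one] at h2 h3
  rw [Finset.sum_eq_single d (fun i hi hne => by
    rcases lt_or_gt_of_ne hne with h' | h'
    · rw [hz (2 * d - i) (by omega)]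
      simp
    · rw [hz i h']
      simp) (fun hi => by simp at hi; omega)] at h2 h3
  have h6 : ((2 * d).choose d : ℚ) ≠ 0 := by
    exact_mod_cast (Nat.choose_pos (by omega)).ne'
  have h7 := smul_right_injective _ h6 (h2.symm.trans h3)
  rw [show 2 * d - d = d by omega] at h7
  rw [pow_two, pow_two, h7, mul_smul_comm]

theorem WF.sandwich {a : L} {d : ℕ} (W : WF a d)
    (hs : ∀ x : L, LieAlgebra.ad ℚ L x ^ 2 = 0 → x = 0) (w : L)
    (h : ∀ v ∈ W.F d, (LieAlgebra.ad ℚ L a ^ d) ⁅w, ⁅w, v⁆⁆ = 0) :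
    (LieAlgebra.ad ℚ L a ^ d) w = 0 := by
  refine hs _ ?_
  rw [ad_pow_sq a w d W.pow_succ_eq]
  have : LieAlgebra.ad ℚ L a ^ d * LieAlgebra.ad ℚ L w ^ 2 * LieAlgebra.ad ℚ L a ^ d = 0 := by
    ext x
    simpa [pow_two] using h _ (W.pow_mem_top x)
  rw [this, smul_zero]

theorem WF.rel {a : L} {d : ℕ} (W : WF a d) (hd : 1 ≤ d) (y : L) {b c : L} (hb : b ∈ W.F d)
    (hc : c ∈ W.F d) : ⁅y, ⁅y, ⁅b, ⁅y, c⁆⁆⁆⁆ - ⁅y, ⁅b, ⁅y, ⁅y, c⁆⁆⁆⁆ ∈ W.F 0 := by
  have h0 : ⁅b, c⁆ = 0 := W.eq_zero (by omega) (W.lie _ _ _ _ hb hc)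
  have h1 : ⁅⁅y, ⁅y, ⁅y, b⁆⁆⁆, c⁆ ∈ W.F 0 := W.lie' (W.mem_top _) hc (by omega)
  have h2 : ⁅b, ⁅y, ⁅y, ⁅y, c⁆⁆⁆⁆ ∈ W.F 0 := W.lie' hb (W.mem_top _) (by omega)
  have h3 : ⁅y, ⁅y, ⁅b, ⁅y, c⁆⁆⁆⁆ - ⁅y, ⁅b, ⁅y, ⁅y, c⁆⁆⁆⁆ =
      (-(1 / 3) : ℚ) • (⁅⁅y, ⁅y, ⁅y, b⁆⁆⁆, c⁆ + ⁅b, ⁅y, ⁅y, ⁅y, c⁆⁆⁆⁆) := by
    simp only [lie_lie, lie_sub, h0, lie_zero]
    module
  rw [h3]
  exact Submodule.smul_mem _ _ (add_mem h1 h2)

/-- The Jordan product on the top of the filtration. -/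
def WF.jm {a : L} {d : ℕ} (W : WF a d) (y : L) : W.F d →ₗ[ℚ] W.F d →ₗ[ℚ] W.F d :=
  LinearMap.mk₂ ℚ (fun b c => ⟨⁅(b : L), ⁅(c : L), y⁆⁆,
      W.lie' b.2 (W.lie _ _ _ _ c.2 (W.mem_top y)) (by omega)⟩)
    (fun _ _ _ => Subtype.ext (by simp)) (fun _ _ _ => Subtype.ext (by simp))
    (fun _ _ _ => Subtype.ext (by simp)) (fun _ _ _ => Subtype.ext (by simp))

theorem WF.jm_coe {a : L} {d : ℕ} (W : WF a d) (y : L) (b c : W.F d) :
    (W.jm y b c : L) = -⁅(b : L), ⁅y, (c : L)⁆⁆ := by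
  rw [← lie_neg, lie_skew]
  rfl

theorem WF.jm_sq {a : L} {d : ℕ} (W : WF a d) (hd : 1 ≤ d) (y : L) (b v : W.F d) :
    (W.jm y (W.jm y b b) v : L) = (2 : ℚ) • ⁅(b : L), ⁅y, ⁅(b : L), ⁅y, (v : L)⁆⁆⁆⁆ -
      ⁅(b : L), ⁅(b : L), ⁅y, ⁅y, (v : L)⁆⁆⁆⁆ := by
  have h0 : ⁅(b : L), ⁅(b : L), ⁅y, (v : L)⁆⁆⁆ = 0 := W.eq_zero (by omega)
    (W.lie _ _ _ _ b.2 (W.lie _ _ _ _ b.2 (W.lie _ _ _ _ (W.mem_top y) v.2)))
  simp only [W.jm_coe, neg_lie, lie_lie, lie_sub, h0, lie_zero]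
  module

theorem pair_nil {a : L} {d : ℕ} (W : WF a d) (hd : 1 ≤ d)
    (hs : ∀ x : L, LieAlgebra.ad ℚ L x ^ 2 = 0 → x = 0) (y : L) (n : ℕ)
    (hn : ∀ b ∈ W.F d, (fun b => ⁅b, ⁅b, y⁆⁆)^[n] b = 0) : (LieAlgebra.ad ℚ L a ^ d) y = 0 := by
  have hy := W.mem_top y
  let K : Submodule ℚ (W.F d) := (W.F (-d + 1)).comap
    ((LieAlgebra.ad ℚ L y * LieAlgebra.ad ℚ L y) ∘ₗ (W.F d).subtype)
  have hK : ∀ b : W.F d, b ∈ K ↔ ⁅y, ⁅y, (b : L)⁆⁆ ∈ W.F (-d + 1) := fun _ => Iff.rfl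
  have h01 : W.F 0 ≤ W.F (-d + 1) := W.anti (by omega)
  have hK' : K = ⊤ := by
    refine jordan_nil (W.jm y) (fun b c => Subtype.ext ?_) (fun b v => Subtype.ext ?_) K
      (fun c b hb => ?_) (fun z hz => ?_) n fun x => Subtype.ext ?_
    · have h0 : ⁅(b : L), (c : L)⁆ = 0 := W.eq_zero (by omega) (W.lie _ _ _ _ b.2 c.2)
      have := lie_lie (b : L) (c : L) y
      rw [h0, zero_lie, eq_comm, sub_eq_zero] at this
      exact this
    · have h3 : ∀ x : L, ⁅(b : L), ⁅(b : L), ⁅(b : L), x⁆⁆⁆ = 0 := fun x => W.eq_zero (by omega)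
        (W.lie _ _ _ _ b.2 (W.lie _ _ _ _ b.2 (W.lie _ _ _ _ b.2 (W.mem_top x))))
      have h4 : ∀ x : L, ⁅(b : L), ⁅y, ⁅(b : L), ⁅(b : L), x⁆⁆⁆⁆ =
          ⁅(b : L), ⁅(b : L), ⁅y, ⁅(b : L), x⁆⁆⁆⁆ := fun x => by
        have h5 : ⁅⁅(b : L), ⁅(b : L), ⁅(b : L), y⁆⁆⁆, x⁆ = 0 := by rw [h3, zero_lie]
        simp only [lie_lie, lie_sub] at h5
        simp only [h3, lie_zero] at h5
        have h6 : (3 : ℚ) • (⁅(b : L), ⁅y, ⁅(b : L), ⁅(b : L), x⁆⁆⁆⁆ -
            ⁅(b : L), ⁅(b : L), ⁅y, ⁅(b : L), x⁆⁆⁆⁆) = 0 := by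
          rw [← h5]
          module
        exact sub_eq_zero.1 ((smul_eq_zero.1 h6).resolve_left (by norm_num))
      have h7 := W.eq_zero (by omega) (W.lie _ _ _ _ b.2 (W.lie _ _ _ _ b.2 (W.rel hd y b.2 v.2)))
      rw [lie_sub, lie_sub, sub_eq_zero] at h7
      rw [W.jm_sq hd, W.jm_coe y b (W.jm y (W.jm y b b) v), W.jm_sq hd]
      simp only [W.jm_coe, lie_neg, lie_sub, lie_smul, h4, h7]
      module
    · rw [hK] at hb ⊢
      have h1 := h01 (W.rel hd y c.2 b.2)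
      have h2 : ⁅y, ⁅(c : L), ⁅y, ⁅y, (b : L)⁆⁆⁆⁆ ∈ W.F (-d + 1) :=
        W.lie' hy (W.lie _ _ _ _ c.2 hb) (by omega)
      rw [W.jm_coe, lie_neg, lie_neg]
      simpa using neg_mem (add_mem h1 h2)
    · rw [hK]
      refine W.ker _ (W.sandwich hs _ fun v hv => W.pow_eq_zero ?_)
      have h0 : ⁅(z : L), v⁆ = 0 := W.eq_zero (by omega) (W.lie _ _ _ _ z.2 hv)
      have h1 := (hK _).1 (hz ⟨v, hv⟩)
      have e1 : (((2 : ℚ) • W.jm y z (W.jm y z ⟨v, hv⟩) - W.jm y (W.jm y z z) ⟨v, hv⟩ :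
          W.F d) : L) = ⁅(z : L), ⁅(z : L), ⁅y, ⁅y, v⁆⁆⁆⁆ := by
        rw [Submodule.coe_sub, Submodule.coe_smul, W.jm_sq hd]
        simp only [W.jm_coe, lie_neg]
        module
      rw [e1] at h1
      have h2 := h01 (W.rel hd y z.2
        (W.lie' z.2 (W.lie _ _ _ _ hy hv) (by omega) : ⁅(z : L), ⁅y, v⁆⁆ ∈ W.F d))
      have h3 : _ ∈ W.F (-d + 1) :=
        W.lie' hy (W.lie _ _ _ _ z.2 (W.rel hd y z.2 hv)) (by omega)
      have h4 : ∀ x : L, ⁅(z : L), x⁆ ∈ W.F (-d + 1) := fun x =>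
        W.lie' z.2 (W.mem_top x) (by omega)
      have h5 := add_mem (add_mem (add_mem h1 (Submodule.smul_mem _ (-2 : ℚ) h2))
        (Submodule.smul_mem _ (2 : ℚ) h3)) (h4 ⁅y, ⁅y, ⁅⁅y, ⁅y, (z : L)⁆⁆, v⁆⁆⁆)
      convert h5 using 1
      simp only [lie_lie, lie_sub, h0, lie_zero]
      module
    · have : ∀ (k : ℕ) (x : W.F d), (((fun x => W.jm y x x)^[k] x : W.F d) : L) =
          (fun b => ⁅b, ⁅b, y⁆⁆)^[k] (x : L) := fun k => by
        induction k with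
        | zero => exact fun _ => rfl
        | succ k ih => exact fun x => ih _
      rw [this]
      exact hn _ x.2
  refine W.sandwich hs y fun v hv => W.pow_eq_zero ?_
  exact (hK ⟨v, hv⟩).1 (hK' ▸ Submodule.mem_top)

theorem pair_end {a : L} {d : ℕ} (W : WF a d) (hd : 2 ≤ d)
    (hs : ∀ x : L, LieAlgebra.ad ℚ L x ^ 2 = 0 → x = 0)
    (h : ∀ r₁ ∈ W.F (-2), ∀ r₂ : L, (LieAlgebra.ad ℚ L a ^ d) ⁅r₂, ⁅r₁, a⁆⁆ = 0) :
    LieAlgebra.ad ℚ L a ^ d = 0 := by
  let Z := LinearMap.ker (LieAlgebra.ad ℚ L a ^ d)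
  have hA : ∀ x : L, ⁅a, x⁆ ∈ Z := fun x => by
    have := LinearMap.congr_fun W.pow_succ_eq x
    rwa [pow_succ] at this
  have h1 : ∀ r ∈ W.F (-2), ∀ w : L, ⁅⁅a, r⁆, w⁆ ∈ Z := fun r hr w => by
    have : ⁅w, ⁅r, a⁆⁆ ∈ Z := h r hr w
    rwa [← lie_skew w, ← lie_skew r, neg_lie, neg_neg] at this
  have h2 : ∀ (k : ℕ) (g w : L), g ∈ W.F (-2 * (k + 1)) →
      ⁅g, (LieAlgebra.ad ℚ L a ^ (k + 1)) w⁆ ∈ Z := fun k => by
    induction k with
    | zero =>
      intro g w hg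
      have := sub_mem (hA ⁅g, w⁆) (h1 g (by simpa using hg) w)
      simpa using this
    | succ k ih =>
      intro g w hg
      have := sub_mem (hA ⁅g, (LieAlgebra.ad ℚ L a ^ (k + 1)) w⁆)
        (ih ⁅a, g⁆ w (W.anti (by push_cast; omega) (W.ad _ _ hg)))
      rw [pow_succ', Module.End.mul_apply, LieAlgebra.ad_apply]
      simpa using this
  obtain ⟨e, rfl⟩ : ∃ e, d = e + 1 + 1 := ⟨d - 2, by omega⟩
  ext w
  refine hs _ ?_
  rw [ad_pow_sq a w _ W.pow_succ_eq]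
  have : LieAlgebra.ad ℚ L a ^ (e + 1 + 1) * LieAlgebra.ad ℚ L w ^ 2 *
      LieAlgebra.ad ℚ L a ^ (e + 1 + 1) = 0 := by
    ext u
    set x := (LieAlgebra.ad ℚ L a ^ (e + 1)) u with hx
    have hx' : x ∈ W.F (e : ℤ) :=
      W.anti (by push_cast; omega) (W.pow_mem (e + 1) _ u (W.mem_top u))
    have hw := W.mem_top w
    have a1 : ⁅⁅⁅a, w⁆, w⁆, x⁆ ∈ Z :=
      h2 e _ u (W.lie' (W.ad _ _ hw) hw (by push_cast; omega))
    have a2 : ⁅⁅w, x⁆, ⁅a, w⁆⁆ ∈ Z := by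
      simpa using h2 0 ⁅w, x⁆ w (W.lie' hw hx' (by push_cast; omega))
    have a3 : ⁅⁅a, ⁅x, w⁆⁆, w⁆ ∈ Z := h1 _ (W.lie' hx' hw (by push_cast; omega)) w
    have a4 : ⁅w, ⁅w, ⁅a, x⁆⁆⁆ ∈ Z := by
      have j := lie_jacobi x ⁅a, w⁆ w
      have e1 : ⁅w, ⁅w, ⁅a, x⁆⁆⁆ = ⁅⁅a, ⁅x, w⁆⁆, w⁆ + (⁅⁅⁅a, w⁆, w⁆, x⁆ + ⁅⁅w, x⁆, ⁅a, w⁆⁆) := by
        rw [leibniz_lie a x w, add_lie, ← lie_skew ⁅⁅a, x⁆, w⁆, ← lie_skew ⁅a, x⁆ w, lie_neg,
          neg_neg, ← lie_skew ⁅x, ⁅a, w⁆⁆, ← lie_skew ⁅⁅a, w⁆, w⁆, ← lie_skew ⁅w, x⁆, add_assoc,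
          ← neg_add, ← neg_add, left_eq_add, neg_eq_zero, ← j]
        abel
      rw [e1]
      exact add_mem a3 (add_mem a1 a2)
    have e2 : (LieAlgebra.ad ℚ L a ^ (e + 1 + 1)) u = ⁅a, x⁆ := by
      rw [pow_succ', Module.End.mul_apply, LieAlgebra.ad_apply]
    rw [Module.End.mul_apply, Module.End.mul_apply, e2, pow_two]
    exact a4
  rw [this, smul_zero]

end Pool.Agent.MP_f21dda_al.H92

end

-- part MP_f21dda_al.H92.Series0
section

/-!
The leading term of the formal Engel identity.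
-/

namespace Pool.Agent.MP_f21dda_al.H92

open Polynomial

section Ring

variable {S : Type*} [Ring S] [Algebra ℚ S]

/- PROOF.  In `Module.End ℚ S`, `LinearMap.mulLeft ℚ (-ρ)` and `LinearMap.mulRight ℚ ρ` commute and
are nilpotent; `IsNilpotent.exp_add_of_commute`, `IsNilpotent.exp_eq_sum`, `LinearMap.pow_mulLeft`,
`LinearMap.pow_mulRight`. -/
theorem hadamard (ρ x : S) (hρ : IsNilpotent ρ) (N : ℕ)
    (hN : (LinearMap.mulRight ℚ ρ - LinearMap.mulLeft ℚ ρ) ^ N = 0) :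
    IsNilpotent.exp (-ρ) * x * IsNilpotent.exp ρ = ∑ k ∈ Finset.range N, ((k.factorial : ℚ)⁻¹) •
      ((LinearMap.mulRight ℚ ρ - LinearMap.mulLeft ℚ ρ) ^ k) x := by
  obtain ⟨m, hm⟩ := hρ
  have hm' : (-ρ) ^ m = 0 := by rw [neg_pow, hm, mul_zero]
  have hR : (LinearMap.mulRight ℚ ρ) ^ m = 0 := by
    rw [LinearMap.pow_mulRight, hm]; ext; simp
  have hL : (LinearMap.mulLeft ℚ (-ρ)) ^ m = 0 := by
    rw [LinearMap.pow_mulLeft, hm']; ext; simp
  have hsum : LinearMap.mulRight ℚ ρ - LinearMap.mulLeft ℚ ρ =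
      LinearMap.mulRight ℚ ρ + LinearMap.mulLeft ℚ (-ρ) := by
    ext y; simp [sub_eq_add_neg]
  have hc : Commute (LinearMap.mulRight ℚ ρ) (LinearMap.mulLeft ℚ (-ρ)) :=
    (LinearMap.commute_mulLeft_right (R := ℚ) (-ρ) ρ).symm
  have h1 := IsNilpotent.exp_add_of_commute hc ⟨m, hR⟩ ⟨m, hL⟩
  rw [← hsum, IsNilpotent.exp_eq_sum hN, IsNilpotent.exp_eq_sum hR,
    IsNilpotent.exp_eq_sum hL] at h1
  have h2 := congrArg (fun φ : Module.End ℚ S => φ x) h1
  simp only [LinearMap.sum_apply, LinearMap.smul_apply, Module.End.mul_apply,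
    LinearMap.pow_mulLeft, LinearMap.pow_mulRight, LinearMap.mulLeft_apply,
    LinearMap.mulRight_apply] at h2
  rw [h2, IsNilpotent.exp_eq_sum hm, IsNilpotent.exp_eq_sum hm', Finset.mul_sum]
  refine Finset.sum_congr rfl fun i _ => ?_
  rw [mul_smul_comm, Finset.sum_mul]
  simp only [smul_mul_assoc]

omit [Algebra ℚ S] in
theorem iter_top (E E' : S) (p q : S[X]) (hp : p.natDegree ≤ 2) (hq : q.natDegree ≤ 2) (k : ℕ) :
    ((iter (C E) (C E'))^[k] (p, q)).1.natDegree ≤ 2 ^ (k + 1) ∧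
      ((iter (C E) (C E'))^[k] (p, q)).2.natDegree ≤ 2 ^ (k + 1) ∧
      (((iter (C E) (C E'))^[k] (p, q)).1.coeff (2 ^ (k + 1)),
        ((iter (C E) (C E'))^[k] (p, q)).2.coeff (2 ^ (k + 1))) =
        (iter E E')^[k] (p.coeff 2, q.coeff 2) := by
  induction k with
  | zero => exact ⟨hp, hq, rfl⟩
  | succ k ih =>
    obtain ⟨h1, h2, h3⟩ := ih
    rw [Function.iterate_succ_apply', Function.iterate_succ_apply', ← h3]
    set u := ((iter (C E) (C E'))^[k] (p, q)).1 with hu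
    set v := ((iter (C E) (C E'))^[k] (p, q)).2 with hv
    have e : 2 ^ (k + 1 + 1) = 2 ^ (k + 1) + 2 ^ (k + 1) := by ring
    have hF : ∀ F : S, (u * C F).natDegree ≤ 2 ^ (k + 1) := fun F =>
      (natDegree_mul_C_le u F).trans h1
    refine ⟨?_, ?_, ?_⟩
    · change (u * C E * v).natDegree ≤ _
      rw [e]
      exact natDegree_mul_le.trans (add_le_add (hF E) h2)
    · change (u * C E' * v).natDegree ≤ _
      rw [e]
      exact natDegree_mul_le.trans (add_le_add (hF E') h2)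
    · change ((u * C E * v).coeff _, (u * C E' * v).coeff _) = _
      rw [e, coeff_mul_add_eq_of_natDegree_le (hF E) h2,
        coeff_mul_add_eq_of_natDegree_le (hF E') h2, coeff_mul_C, coeff_mul_C]
      rfl

/- PROOF.  `(g k c, h k c) = (iter E E')^[k] (1 + c x + c ^ 2 x ^ 2 / 2, 1 - c x + c ^ 2 x ^ 2 / 2)` is
the evaluation at the central element `algebraMap ℚ S c` (`Polynomial.eval₂RingHom'`, `map_iter`)
of a pair of polynomials in `S[X]` of degree `≤ 2 ^ (k + 1)` whose coefficients of degree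
`2 ^ (k + 1)` are `(iter E E')^[k] (x ^ 2 / 2, x ^ 2 / 2)`
(`Polynomial.coeff_mul_add_eq_of_natDegree_le`); conclude with `coeff_mem` for `K = ⊥`. -/
theorem top_coeff (E E' x : S) (n : ℕ)
    (h : ∀ c : ℚ, ((iter E E')^[n] (1 + c • x + (c ^ 2 / 2) • x ^ 2,
      1 - c • x + (c ^ 2 / 2) • x ^ 2)).1 = E) :
    ((iter E E')^[n] ((1 / 2 : ℚ) • x ^ 2, (1 / 2 : ℚ) • x ^ 2)).1 = 0 := by
  set p : S[X] := C 1 + C x * X + C ((1 / 2 : ℚ) • x ^ 2) * X ^ 2 with hp
  set q : S[X] := C 1 + C (-x) * X + C ((1 / 2 : ℚ) • x ^ 2) * X ^ 2 with hq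
  have hdeg : ∀ a b c : S, (C a + C b * X + C c * X ^ 2 : S[X]).natDegree ≤ 2 := by
    intro a b c
    refine (natDegree_add_le _ _).trans (max_le ((natDegree_add_le _ _).trans (max_le ?_ ?_)) ?_)
    · simp
    · exact (natDegree_C_mul_le _ _).trans (natDegree_X_le.trans (by norm_num))
    · exact natDegree_C_mul_X_pow_le _ _
  have hco : ∀ a b c : S, (C a + C b * X + C c * X ^ 2 : S[X]).coeff 2 = c := by
    intro a b c
    simp
  obtain ⟨h1, -, h3⟩ := iter_top E E' p q (hdeg _ _ _) (hdeg _ _ _) n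
  rw [hp, hq, hco, hco, ← hp, ← hq] at h3
  rw [← h3]
  set u := ((iter (C E) (C E'))^[n] (p, q)).1 with hu
  have hpos : 0 < 2 ^ (n + 1) := by positivity
  have key := coeff_mem (⊥ : Submodule ℚ S) (2 ^ (n + 1) + 1) (fun i => (u - C E).coeff i)
    Set.univ Set.infinite_univ (fun c _ => ?_) (2 ^ (n + 1)) (Nat.lt_succ_self _)
  · rw [Submodule.mem_bot, coeff_sub, coeff_C, if_neg hpos.ne', sub_zero] at key
    exact key
  · rw [Submodule.mem_bot]
    let φ : S[X] →+* S := eval₂RingHom' (RingHom.id S) (algebraMap ℚ S c)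
      (fun a => (Algebra.commutes c a).symm)
    have hφ : ∀ r : S[X], φ r = eval₂ (RingHom.id S) (algebraMap ℚ S c) r := fun r => rfl
    have hC : ∀ a : S, φ (C a) = a := fun a => by rw [hφ, eval₂_C]; rfl
    have hX : φ X = algebraMap ℚ S c := by rw [hφ, eval₂_X]
    have hm := congrArg Prod.fst (map_iter φ (C E) (C E') n (p, q))
    have hφp : φ p = 1 + c • x + (c ^ 2 / 2) • x ^ 2 := by
      simp only [hp, map_add, map_mul, map_pow, hC, hX]
      rw [← map_pow, ← Algebra.commutes, ← Algebra.commutes, ← Algebra.smul_def,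
        ← Algebra.smul_def, smul_smul]
      congr 2
      ring
    have hφq : φ q = 1 - c • x + (c ^ 2 / 2) • x ^ 2 := by
      simp only [hq, map_add, map_mul, map_pow, hC, hX]
      rw [← map_pow, ← Algebra.commutes, ← Algebra.commutes, ← Algebra.smul_def,
        ← Algebra.smul_def, smul_smul, smul_neg, ← sub_eq_add_neg]
      congr 2
      ring
    simp only [hC, hφp, hφq, h c] at hm
    have h0 : φ (u - C E) = 0 := by rw [map_sub, hC, hu, hm, sub_self]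
    have hd : (u - C E).natDegree < 2 ^ (n + 1) + 1 := by
      refine Nat.lt_succ_of_le ((natDegree_sub_le _ _).trans (max_le h1 ?_))
      simp
    rw [hφ, eval₂_eq_sum_range' _ hd] at h0
    rw [← h0]
    refine Finset.sum_congr rfl fun i _ => ?_
    rw [RingHom.id_apply, ← map_pow, ← Algebra.commutes, ← Algebra.smul_def]

end Ring

variable {L : Type*} [LieRing L] [LieAlgebra ℚ L]

/- PROOF.  Termwise: for `k, l ≥ 1` with `d k + 2 l = d + 2` we have `k = l = 1`; the terms with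
`k = 0` or `l = 0` cancel (`(k, l) = (0, 0)` does not occur). -/
theorem ycoef_mixed (d : ℕ) (hd : 2 ≤ d) (a r₁ r₂ : L) :
    ycoef d a r₁ r₂ - ycoef d a r₁ 0 - ycoef d a 0 r₂ = ⁅r₂, ⁅r₁, a⁆⁆ := by
  have h1 : (1 : ℕ) ∈ Finset.range (d + 3) := Finset.mem_range.2 (by omega)
  have hr : ⁅r₂, ⁅r₁, a⁆⁆ = ∑ k ∈ Finset.range (d + 3), ∑ l ∈ Finset.range (d + 3),
      if k = 1 ∧ l = 1 then ⁅r₂, ⁅r₁, a⁆⁆ else 0 := by
    rw [Finset.sum_eq_single_of_mem 1 h1, Finset.sum_eq_single_of_mem 1 h1]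
    · simp
    · intro l _ hl
      simp [hl]
    · intro k _ hk
      simp [hk]
  rw [hr]
  simp only [ycoef, ← Finset.sum_sub_distrib]
  refine Finset.sum_congr rfl fun k _ => Finset.sum_congr rfl fun l _ => ?_
  by_cases hkl : d * k + 2 * l = d + 2
  · simp only [if_pos hkl, map_zero]
    rcases Nat.eq_zero_or_pos k with rfl | hk
    · have hl : l ≠ 0 := by rintro rfl; omega
      simp [hl]
    · rcases Nat.eq_zero_or_pos l with rfl | hl
      · simp [hk.ne']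
      · have hk1 : k = 1 := by
          by_contra hne
          have : d * 2 ≤ d * k := Nat.mul_le_mul_left d (by omega)
          omega
        subst hk1
        have hl1 : l = 1 := by omega
        subst hl1
        simp
  · have : ¬ (k = 1 ∧ l = 1) := by
      rintro ⟨rfl, rfl⟩
      omega
    simp [hkl, this]

end Pool.Agent.MP_f21dda_al.H92

end

-- part MP_f21dda_al.H92.Series1
section

/-!
Weight bookkeeping for the leading term of the formal Engel identity.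
-/

namespace Pool.Agent.MP_f21dda_al.H92

open Finset

section Sp

variable {E S : Type*} [Ring E] [Algebra ℚ E] [Ring S] [Algebra ℚ S]

/-- The span of the `t ^ j * ι X` with `X` of weight `w` and `(j, w)` in a given region. -/
def Sp (ι : E →+* S) (t : S) (Sh : ℤ → Submodule ℚ E) (Λ : ℕ → ℤ → Prop) : Submodule ℚ S :=
  Submodule.span ℚ {z | ∃ j w X, Λ j w ∧ X ∈ Sh w ∧ z = t ^ j * ι X}

variable {ι : E →+* S} {t : S} {Sh : ℤ → Submodule ℚ E}

theorem mem_Sp {Λ : ℕ → ℤ → Prop} {j : ℕ} {w : ℤ} {X : E} (h : Λ j w) (hX : X ∈ Sh w) :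
    t ^ j * ι X ∈ Sp ι t Sh Λ :=
  Submodule.subset_span ⟨j, w, X, h, hX, rfl⟩

omit [Algebra ℚ E] [Algebra ℚ S] in
theorem tmul (ht : ∀ z, Commute t z) (i j : ℕ) (x y : S) :
    t ^ i * x * (t ^ j * y) = t ^ (i + j) * (x * y) := by
  rw [mul_assoc, ← mul_assoc x, ← ((ht x).pow_left j).eq, pow_add]
  simp only [mul_assoc]

theorem Sp_mul (ht : ∀ z, Commute t z)
    (hmul : ∀ v w X Y, X ∈ Sh v → Y ∈ Sh w → X * Y ∈ Sh (v + w)) {D : ℤ}
    (hbot : ∀ w X, D < w → X ∈ Sh w → X = 0) {Λ₁ Λ₂ Λ₃ : ℕ → ℤ → Prop} {x y : S}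
    (hx : x ∈ Sp ι t Sh Λ₁) (hy : y ∈ Sp ι t Sh Λ₂)
    (h : ∀ i v j w, Λ₁ i v → Λ₂ j w → D < v + w ∨ Λ₃ (i + j) (v + w)) : x * y ∈ Sp ι t Sh Λ₃ := by
  have h1 := Submodule.mul_mem_mul hx hy
  rw [Sp, Sp, Submodule.span_mul_span] at h1
  refine (Submodule.span_le.2 ?_) h1
  rintro _ ⟨_, ⟨i, v, X, h₁, hX, rfl⟩, _, ⟨j, w, Y, h₂, hY, rfl⟩, rfl⟩
  have e : t ^ i * ι X * (t ^ j * ι Y) = t ^ (i + j) * ι (X * Y) := by rw [tmul ht, map_mul]
  simp only [e, SetLike.mem_coe]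
  rcases h i v j w h₁ h₂ with h3 | h3
  · rw [hbot _ _ h3 (hmul _ _ _ _ hX hY), map_zero, mul_zero]
    exact zero_mem _
  · exact mem_Sp h3 (hmul _ _ _ _ hX hY)

theorem Sp_mono {Λ₁ Λ₂ : ℕ → ℤ → Prop} {x : S} (hx : x ∈ Sp ι t Sh Λ₁)
    (h : ∀ j w, Λ₁ j w → ∃ w', Λ₂ j w' ∧ Sh w ≤ Sh w') : x ∈ Sp ι t Sh Λ₂ := by
  refine (Submodule.span_mono ?_) hx
  rintro _ ⟨j, w, X, h₁, hX, rfl⟩
  obtain ⟨w', h₂, h₃⟩ := h j w h₁
  exact ⟨j, w', X, h₂, h₃ hX, rfl⟩

theorem Sp_mono' {Λ₁ Λ₂ : ℕ → ℤ → Prop} {x : S} (hx : x ∈ Sp ι t Sh Λ₁)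
    (h : ∀ j w, Λ₁ j w → Λ₂ j w) : x ∈ Sp ι t Sh Λ₂ :=
  Sp_mono hx fun j w h' => ⟨w, h j w h', le_rfl⟩

theorem Sp_dvd {Λ : ℕ → ℤ → Prop} {x : S} (hx : x ∈ Sp ι t Sh Λ) {J : ℕ}
    (h : ∀ j w, Λ j w → J ≤ j) : ∃ z, x = t ^ J * z := by
  induction hx using Submodule.span_induction with
  | mem x hx =>
    obtain ⟨j, w, X, h₁, -, rfl⟩ := hx
    obtain ⟨k, rfl⟩ := Nat.exists_eq_add_of_le (h j w h₁)
    exact ⟨t ^ k * ι X, by rw [pow_add, mul_assoc]⟩
  | zero => exact ⟨0, by simp⟩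
  | add x y _ _ hx hy =>
    obtain ⟨a, rfl⟩ := hx
    obtain ⟨b, rfl⟩ := hy
    exact ⟨a + b, by rw [mul_add]⟩
  | smul c x _ hx =>
    obtain ⟨a, rfl⟩ := hx
    exact ⟨c • a, by rw [mul_smul_comm]⟩

omit [Algebra ℚ S] in
theorem iter_conj (u u' A A' p q : S) (k : ℕ) :
    (iter A A')^[k] (u * p * u', u * q * u') =
      (u * ((iter (u' * A * u) (u' * A' * u))^[k] (p, q)).1 * u',
        u * ((iter (u' * A * u) (u' * A' * u))^[k] (p, q)).2 * u') := by
  induction k with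
  | zero => rfl
  | succ k ih =>
    rw [Function.iterate_succ_apply', Function.iterate_succ_apply', ih]
    simp only [iter, mul_assoc]

omit [Algebra ℚ S] in
theorem conj_pow {u u' : S} (h : u * u' = 1) (h' : u' * u = 1) (A : S) (k : ℕ) :
    u' * A ^ k * u = (u' * A * u) ^ k := by
  induction k with
  | zero => simpa using h'
  | succ k ih =>
    rw [pow_succ, pow_succ, ← ih]
    calc u' * (A ^ k * A) * u = u' * A ^ k * (u * u') * A * u := by rw [h]; simp only [mul_assoc, one_mul]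
      _ = _ := by simp only [mul_assoc]

theorem conj_texp {u u' : S} (h : u * u' = 1) (h' : u' * u = 1) (M : ℕ) (A : S) :
    u' * texp M A * u = texp M (u' * A * u) := by
  simp only [texp, mul_sum, sum_mul, mul_smul_comm, smul_mul_assoc, conj_pow h h']

omit [Algebra ℚ S] in
theorem tpow_eq_zero (ht : ∀ z, Commute t z) {M : ℕ} (hM : t ^ M = 0) {e : ℕ} (he : 1 ≤ e) (z : S)
    {N : ℕ} (hN : M ≤ N) : (t ^ e * z) ^ N = 0 := by
  rw [((ht z).pow_left e).mul_pow, ← pow_mul, pow_eq_zero_of_le (m := M) (by nlinarith) hM, zero_mul]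

theorem comm_pow_eq_zero (ht : ∀ z, Commute t z) {M : ℕ} (hM : t ^ M = 0) {e : ℕ} (he : 1 ≤ e)
    (z : S) {N : ℕ} (hN : M ≤ N) :
    (LinearMap.mulRight ℚ (t ^ e * z) - LinearMap.mulLeft ℚ (t ^ e * z)) ^ N = 0 := by
  have key : ∀ (k : ℕ) (x : S), ∃ w,
      ((LinearMap.mulRight ℚ (t ^ e * z) - LinearMap.mulLeft ℚ (t ^ e * z)) ^ k) x =
        t ^ (e * k) * w := by
    intro k x
    induction k with
    | zero => exact ⟨x, by simp⟩
    | succ k ih =>
      obtain ⟨w, hw⟩ := ih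
      refine ⟨w * z - z * w, ?_⟩
      rw [pow_succ', Module.End.mul_apply, hw, LinearMap.sub_apply, LinearMap.mulRight_apply,
        LinearMap.mulLeft_apply, tmul ht, tmul ht, mul_sub, Nat.mul_succ, add_comm e]
  ext x
  obtain ⟨w, hw⟩ := key N x
  rw [hw, pow_eq_zero_of_le (m := M) (by nlinarith) hM, zero_mul, LinearMap.zero_apply]

end Sp

section Sh

variable {L : Type*} [LieRing L] [LieAlgebra ℚ L] {a : L} {d : ℕ}

/-- Endomorphisms raising the weight by `w`. -/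
def WF.Sh (W : WF a d) (w : ℤ) : Submodule ℚ (Module.End ℚ L) where
  carrier := {X | ∀ k, ∀ x ∈ W.F k, X x ∈ W.F (k + w)}
  add_mem' := fun h h' k x hx => add_mem (h k x hx) (h' k x hx)
  zero_mem' := fun _ _ _ => zero_mem _
  smul_mem' := fun c _ h k x hx => Submodule.smul_mem _ c (h k x hx)

theorem WF.mem_low (W : WF a d) {k : ℤ} (hk : k ≤ -d) (x : L) : x ∈ W.F k :=
  W.anti hk (W.top ▸ Submodule.mem_top)

theorem WF.Sh_mul (W : WF a d) (v w : ℤ) (X Y : Module.End ℚ L) (hX : X ∈ W.Sh v)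
    (hY : Y ∈ W.Sh w) : X * Y ∈ W.Sh (v + w) := fun k x hx => by
  have := hX _ _ (hY k x hx)
  rwa [add_assoc, add_comm w] at this

theorem WF.Sh_bot (W : WF a d) (w : ℤ) (X : Module.End ℚ L) (hw : 2 * (d : ℤ) < w)
    (hX : X ∈ W.Sh w) : X = 0 := by
  ext x
  have := W.anti (show (d : ℤ) + 1 ≤ -d + w by omega) (hX _ _ (W.mem_low le_rfl x))
  rwa [W.bot, Submodule.mem_bot] at this

theorem WF.Sh_anti (W : WF a d) {v w : ℤ} (h : v ≤ w) : W.Sh w ≤ W.Sh v :=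
  fun _ hX k x hx => W.anti (by omega) (hX k x hx)

theorem WF.Sh_top (W : WF a d) (w : ℤ) : W.Sh w ≤ W.Sh (-(2 * d)) := fun X _ k x hx => by
  by_cases hk : k ≤ d
  · exact W.mem_low (by omega) _
  · have := W.anti (show (d : ℤ) + 1 ≤ k by omega) hx
    rw [W.bot, Submodule.mem_bot] at this
    rw [this, map_zero]
    exact zero_mem _

theorem WF.one_mem (W : WF a d) : (1 : Module.End ℚ L) ∈ W.Sh 0 := fun k x hx => by simpa using hx

theorem WF.ad_mem (W : WF a d) {k : ℤ} {x : L} (hx : x ∈ W.F k) :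
    LieAlgebra.ad ℚ L x ∈ W.Sh k := fun l y hy => by
  rw [add_comm]
  exact W.lie k l x y hx hy

theorem WF.ad_self (W : WF a d) : LieAlgebra.ad ℚ L a ∈ W.Sh 2 := fun k x hx => W.ad k x hx

theorem WF.ad_pow_mem (W : WF a d) {w : ℤ} {r : L} (hr : r ∈ W.F w) (i : ℕ) {k : ℤ} {x : L}
    (hx : x ∈ W.F k) : (LieAlgebra.ad ℚ L r ^ i) x ∈ W.F (k + w * i) := by
  induction i with
  | zero => simpa using hx
  | succ i ih =>
    rw [pow_succ', Module.End.mul_apply]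
    have := W.lie _ _ _ _ hr ih
    rwa [show w + (k + w * i) = k + w * (i + 1 : ℕ) by push_cast; ring] at this

theorem WF.ad_pow_self (W : WF a d) {w : ℤ} {r : L} (hr : r ∈ W.F w) (i : ℕ) :
    (LieAlgebra.ad ℚ L r ^ (i + 1)) a ∈ W.F (2 + w * (i + 1 : ℕ)) := by
  rw [pow_succ, Module.End.mul_apply]
  have h1 : LieAlgebra.ad ℚ L r a ∈ W.F (w + 2) := by
    rw [LieAlgebra.ad_apply, ← lie_skew]
    exact neg_mem (W.ad _ _ hr)
  have := W.ad_pow_mem hr i h1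
  rwa [show w + 2 + w * i = 2 + w * (i + 1 : ℕ) by push_cast; ring] at this

theorem WF.ad_word (W : WF a d) {r₁ : L} (hr : r₁ ∈ W.F (-2)) (r₂ : L) (k l : ℕ) :
    LieAlgebra.ad ℚ L ((LieAlgebra.ad ℚ L r₂ ^ k) ((LieAlgebra.ad ℚ L r₁ ^ l) a)) ∈
      W.Sh (2 - (d * k + 2 * l : ℕ)) := by
  have h₂ : r₂ ∈ W.F (-d) := W.mem_low le_rfl _
  rcases l with _ | l
  · rcases k with _ | k
    · simpa using W.ad_self
    · refine W.ad_mem ?_
      have := W.ad_pow_self h₂ k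
      rw [pow_zero, Module.End.one_apply]
      convert this using 2
      push_cast; ring
  · refine W.ad_mem ?_
    have := W.ad_pow_mem h₂ k (W.ad_pow_self hr l)
    convert this using 2
    push_cast; ring

theorem ad_lie_eq (x y : L) : LieAlgebra.ad ℚ L ⁅x, y⁆ =
    LieAlgebra.ad ℚ L x * LieAlgebra.ad ℚ L y - LieAlgebra.ad ℚ L y * LieAlgebra.ad ℚ L x := by
  ext z
  simp

variable {S : Type*} [Ring S] [Algebra ℚ S] {ι : Module.End ℚ L →+* S} {t : S}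

theorem conj_term (ht : ∀ z, Commute t z) {M : ℕ} (hM : t ^ M = 0) {e : ℕ} (he : 1 ≤ e) (r v : L)
    (j : ℕ) {N : ℕ} (hN : M ≤ N) :
    IsNilpotent.exp (-(t ^ e * ι (LieAlgebra.ad ℚ L r))) * (t ^ j * ι (LieAlgebra.ad ℚ L v)) *
      IsNilpotent.exp (t ^ e * ι (LieAlgebra.ad ℚ L r)) =
    ∑ k ∈ range N, ((-1) ^ k * (k.factorial : ℚ)⁻¹) •
      (t ^ (j + e * k) * ι (LieAlgebra.ad ℚ L ((LieAlgebra.ad ℚ L r ^ k) v))) := by
  rw [hadamard _ _ ⟨M, tpow_eq_zero ht hM he _ le_rfl⟩ N (comm_pow_eq_zero ht hM he _ hN)]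
  refine sum_congr rfl fun k hk => ?_
  clear hk
  rw [mul_comm, mul_smul]
  congr 1
  induction k with
  | zero => simp
  | succ k ih =>
    rw [pow_succ', Module.End.mul_apply, ih, map_smul, LinearMap.sub_apply,
      LinearMap.mulRight_apply, LinearMap.mulLeft_apply, tmul ht, tmul ht,
      pow_succ' (LieAlgebra.ad ℚ L r), Module.End.mul_apply, LieAlgebra.ad_apply ℚ L r,
      ad_lie_eq, map_sub, map_mul, map_mul, pow_succ (-1 : ℚ), mul_smul,
      neg_smul, one_smul, ← mul_neg, neg_sub, mul_sub, Nat.mul_succ, add_assoc,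
      show e + (j + e * k) = j + (e * k + e) by ring]

end Sh

end Pool.Agent.MP_f21dda_al.H92

end

-- part MP_f21dda_al.H92.Series
section

/-!
The leading term of the formal Engel identity.
-/

namespace Pool.Agent.MP_f21dda_al.H92

open Finset IsNilpotent

variable {L : Type*} [LieRing L] [LieAlgebra ℚ L] {a : L} {d : ℕ}

section Aux

variable {S : Type*} [Ring S] [Algebra ℚ S] {ι : Module.End ℚ L →+* S} {t : S}

theorem hat_eq (ht : ∀ z, Commute t z) {M : ℕ} (hM : t ^ M = 0) (hd : 1 ≤ d) (a r₁ r₂ : L) {N : ℕ}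
    (hN : M ≤ N) :
    exp (-(t ^ d * ι (LieAlgebra.ad ℚ L r₂))) * exp (-(t ^ 2 * ι (LieAlgebra.ad ℚ L r₁))) *
      ι (LieAlgebra.ad ℚ L a) *
      (exp (t ^ 2 * ι (LieAlgebra.ad ℚ L r₁)) * exp (t ^ d * ι (LieAlgebra.ad ℚ L r₂))) =
    ∑ k ∈ range N, ∑ l ∈ range N, ((-1) ^ (k + l) * (k.factorial : ℚ)⁻¹ * (l.factorial : ℚ)⁻¹) •
      (t ^ (d * k + 2 * l) *
        ι (LieAlgebra.ad ℚ L ((LieAlgebra.ad ℚ L r₂ ^ k) ((LieAlgebra.ad ℚ L r₁ ^ l) a)))) := by
  have h1 := conj_term (ι := ι) ht hM (e := 2) (by norm_num) r₁ a 0 hN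
  rw [pow_zero, one_mul] at h1
  have h2 : ∀ x y z u v : S, x * y * z * (u * v) = x * (y * z * u) * v := by
    intro x y z u v
    simp only [mul_assoc]
  rw [h2, h1, sum_comm]
  simp only [mul_sum, sum_mul, mul_smul_comm, smul_mul_assoc]
  refine sum_congr rfl fun l _ => ?_
  rw [conj_term ht hM hd r₂ _ _ hN, smul_sum]
  refine sum_congr rfl fun k _ => ?_
  rw [smul_smul, zero_add, add_comm (2 * l)]
  congr 1
  ring

theorem ycoef_eq (hd : 1 ≤ d) (a r₁ r₂ : L) {N : ℕ} (hN : d + 3 ≤ N) :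
    ycoef d a r₁ r₂ = ∑ k ∈ range N, ∑ l ∈ range N,
      if d * k + 2 * l = d + 2 then
        ((-1) ^ (k + l) * (k.factorial : ℚ)⁻¹ * (l.factorial : ℚ)⁻¹) •
          (LieAlgebra.ad ℚ L r₂ ^ k) ((LieAlgebra.ad ℚ L r₁ ^ l) a)
      else 0 := by
  rw [ycoef, sum_subset (range_mono hN)]
  · refine sum_congr rfl fun k _ => sum_subset (range_mono hN) fun l _ hl => if_neg ?_
    rw [mem_range] at hl
    omega
  · intro k _ hk
    rw [mem_range] at hk
    refine sum_eq_zero fun l _ => if_neg ?_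
    have : d + 3 ≤ d * k := by nlinarith
    omega

theorem hat_mem (W : WF a d) (r₁ : L) (hr : r₁ ∈ W.F (-2)) (r₂ : L) (N : ℕ) (c : ℕ → ℕ → ℚ) :
    ∑ k ∈ range N, ∑ l ∈ range N, c k l • (t ^ (d * k + 2 * l) *
        ι (LieAlgebra.ad ℚ L ((LieAlgebra.ad ℚ L r₂ ^ k) ((LieAlgebra.ad ℚ L r₁ ^ l) a)))) ∈
      Sp ι t W.Sh fun j w => 2 - (j : ℤ) ≤ w :=
  sum_mem fun k _ => sum_mem fun l _ => Submodule.smul_mem _ _
    (mem_Sp le_rfl (W.ad_word hr r₂ k l))

theorem hat_sub (W : WF a d) (hd : 1 ≤ d) (r₁ : L) (hr : r₁ ∈ W.F (-2)) (r₂ : L) {N : ℕ}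
    (hN : d + 3 ≤ N) :
    (∑ k ∈ range N, ∑ l ∈ range N, ((-1) ^ (k + l) * (k.factorial : ℚ)⁻¹ * (l.factorial : ℚ)⁻¹) •
      (t ^ (d * k + 2 * l) *
        ι (LieAlgebra.ad ℚ L ((LieAlgebra.ad ℚ L r₂ ^ k) ((LieAlgebra.ad ℚ L r₁ ^ l) a))))) -
      t ^ (d + 2) * ι (LieAlgebra.ad ℚ L (ycoef d a r₁ r₂)) ∈
      Sp ι t W.Sh fun j w => -(d : ℤ) + 1 ≤ w ∨ (d + 3 ≤ j ∧ -(d : ℤ) ≤ w) := by
  rw [ycoef_eq hd a r₁ r₂ hN]
  simp only [map_sum, mul_sum, ← sum_sub_distrib]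
  refine sum_mem fun k _ => sum_mem fun l _ => ?_
  split_ifs with h
  · rw [map_smul, map_rat_smul, mul_smul_comm, h, sub_self]
    exact zero_mem _
  · rw [map_zero, map_zero, mul_zero, sub_zero]
    refine Submodule.smul_mem _ _ ?_
    by_cases h' : d + 3 ≤ d * k + 2 * l
    · exact mem_Sp (Or.inr ⟨h', le_rfl⟩) (W.ad_mem (W.mem_low le_rfl _))
    · exact mem_Sp (Or.inl (by omega)) (W.ad_word hr r₂ k l)

theorem texp_mem (W : WF a d) (hd : 1 ≤ d) (ht : ∀ z, Commute t z) {M : ℕ} (hM : 3 ≤ M) {x η : S}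
    (hx : x ∈ Sp ι t W.Sh fun j w => 2 - (j : ℤ) ≤ w)
    (hη : η ∈ Sp ι t W.Sh fun j w => d + 2 ≤ j ∧ -(d : ℤ) ≤ w)
    (hδ : x - η ∈ Sp ι t W.Sh fun j w => -(d : ℤ) + 1 ≤ w ∨ (d + 3 ≤ j ∧ -(d : ℤ) ≤ w)) :
    texp M x - (1 / 2 : ℚ) • η ^ 2 ∈ Sp ι t W.Sh
      fun j w => -(2 * d : ℤ) + 1 ≤ w ∨ (2 * d + 5 ≤ j ∧ -(2 * d : ℤ) ≤ w) := by
  have h1 : ∀ Λ : ℕ → ℤ → Prop, Λ 0 0 → (1 : S) ∈ Sp ι t W.Sh Λ := fun Λ h => by
    simpa using mem_Sp (ι := ι) (t := t) h W.one_mem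
  have hpow : ∀ s : ℕ, x ^ s ∈ Sp ι t W.Sh fun j w => 2 * (s : ℤ) - (j : ℤ) ≤ w := by
    intro s
    induction s with
    | zero => rw [pow_zero]; exact h1 _ (by simp)
    | succ s ih =>
      rw [_root_.pow_succ]
      exact Sp_mul ht W.Sh_mul W.Sh_bot ih hx fun i v j w _ _ => Or.inr (by push_cast; omega)
  obtain ⟨m, rfl⟩ := Nat.exists_eq_add_of_le hM
  have e : texp (3 + m) x - (1 / 2 : ℚ) • η ^ 2 = 1 + (η + (x - η)) +
      (1 / 2 : ℚ) • ((x - η) * (x - η) + (x - η) * η + η * (x - η)) +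
      ∑ s ∈ range m, (((3 + s).factorial : ℚ)⁻¹) • x ^ (3 + s) := by
    have : (x - η) * (x - η) + (x - η) * η + η * (x - η) = x ^ 2 - η ^ 2 := by noncomm_ring
    rw [this, texp, sum_range_add, smul_sub]
    simp only [sum_range_succ, range_zero, sum_empty, Nat.factorial]
    norm_num
    abel
  rw [e]
  refine add_mem (add_mem (add_mem (h1 _ (by omega)) (add_mem ?_ ?_)) (Submodule.smul_mem _ _
    (add_mem (add_mem ?_ ?_) ?_))) (sum_mem fun s _ => Submodule.smul_mem _ _ ?_)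
  · exact Sp_mono' hη fun j w h => by omega
  · exact Sp_mono' hδ fun j w h => by omega
  · exact Sp_mul ht W.Sh_mul W.Sh_bot hδ hδ fun i v j w _ _ => by omega
  · exact Sp_mul ht W.Sh_mul W.Sh_bot hδ hη fun i v j w _ _ => by omega
  · exact Sp_mul ht W.Sh_mul W.Sh_bot hη hδ fun i v j w _ _ => by omega
  · refine Sp_mono (hpow _) fun j w h => ?_
    by_cases hj : 2 * d + 5 ≤ j
    · exact ⟨_, Or.inr ⟨hj, le_rfl⟩, W.Sh_top w⟩
    · exact ⟨w, Or.inl (by push_cast at h; omega), le_rfl⟩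

theorem lead_step (W : WF a d) (ht : ∀ z, Commute t z) {p q E p₀ ε₀ : S} {e : ℕ}
    (hp₀ : p₀ ∈ Sp ι t W.Sh fun j w => e ≤ j ∧ (2 * d : ℤ) ≤ w)
    (hp : p - p₀ ∈ Sp ι t W.Sh fun j w => e + 1 ≤ j ∧ (2 * d : ℤ) ≤ w)
    (hq : q - p₀ ∈ Sp ι t W.Sh fun j w => e + 1 ≤ j ∧ (2 * d : ℤ) ≤ w)
    (hε₀ : ε₀ ∈ Sp ι t W.Sh fun j w => 2 * d + 4 ≤ j ∧ -(2 * d : ℤ) ≤ w)
    (hE : E - ε₀ ∈ Sp ι t W.Sh
      fun j w => -(2 * d : ℤ) + 1 ≤ w ∨ (2 * d + 5 ≤ j ∧ -(2 * d : ℤ) ≤ w)) :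
    p * E * q - p₀ * ε₀ * p₀ ∈
      Sp ι t W.Sh fun j w => 2 * e + 2 * d + 4 + 1 ≤ j ∧ (2 * d : ℤ) ≤ w := by
  have hp' : p ∈ Sp ι t W.Sh fun j w => e ≤ j ∧ (2 * d : ℤ) ≤ w := by
    simpa using add_mem hp₀ (Sp_mono' hp fun j w h => by omega)
  have hq' : q ∈ Sp ι t W.Sh fun j w => e ≤ j ∧ (2 * d : ℤ) ≤ w := by
    simpa using add_mem hp₀ (Sp_mono' hq fun j w h => by omega)
  have e1 : p * E * q - p₀ * ε₀ * p₀ =
      p * (E - ε₀) * q + (p - p₀) * ε₀ * q + p₀ * ε₀ * (q - p₀) := by noncomm_ring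
  rw [e1]
  refine add_mem (add_mem ?_ ?_) ?_
  · exact Sp_mul ht W.Sh_mul W.Sh_bot (Sp_mul (Λ₃ := fun j w => 1 ≤ w ∨ (e + 2 * d + 5 ≤ j ∧ 0 ≤ w))
      ht W.Sh_mul W.Sh_bot hp' hE fun i v j w _ _ => by omega) hq' fun i v j w _ _ => by omega
  · exact Sp_mul ht W.Sh_mul W.Sh_bot (Sp_mul (Λ₃ := fun j w => e + 2 * d + 5 ≤ j ∧ 0 ≤ w)
      ht W.Sh_mul W.Sh_bot hp hε₀ fun i v j w _ _ => by omega) hq' fun i v j w _ _ => by omega
  · exact Sp_mul ht W.Sh_mul W.Sh_bot (Sp_mul (Λ₃ := fun j w => e + 2 * d + 4 ≤ j ∧ 0 ≤ w)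
      ht W.Sh_mul W.Sh_bot hp₀ hε₀ fun i v j w _ _ => by omega) hq fun i v j w _ _ => by omega

/-- The order of vanishing of the leading term after `k` steps. -/
def ord (d : ℕ) : ℕ → ℕ
  | 0 => 2
  | k + 1 => 2 * ord d k + 2 * d + 4

theorem sigma_mem (W : WF a d) (y : L) {b : L} (hb : b ∈ W.F d) (k : ℕ) :
    (fun b => ⁅b, ⁅b, y⁆⁆)^[k] b ∈ W.F d := by
  induction k with
  | zero => exact hb
  | succ k ih =>
    rw [Function.iterate_succ_apply']
    simpa using W.lie _ _ _ _ ih (W.lie _ _ _ _ ih (W.mem_low le_rfl y))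

theorem cube_eq_zero (W : WF a d) (hd : 1 ≤ d) {b : L} (hb : b ∈ W.F d) :
    LieAlgebra.ad ℚ L b ^ 3 = 0 := by
  have h := W.ad_mem hb
  rw [pow_three']
  exact W.Sh_bot _ _ (by omega) (W.Sh_mul _ _ _ _ (W.Sh_mul _ _ _ _ h h) h)

theorem sq_mem (W : WF a d) {k : ℤ} {b : L} (hb : b ∈ W.F k) :
    LieAlgebra.ad ℚ L b ^ 2 ∈ W.Sh (2 * k) := by
  rw [pow_two, two_mul]
  exact W.Sh_mul _ _ _ _ (W.ad_mem hb) (W.ad_mem hb)

theorem lead (W : WF a d) (hd : 1 ≤ d) (ht : ∀ z, Commute t z) (y : L) {E E' : S}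
    (hE : E - (1 / 2 : ℚ) • (t ^ (d + 2) * ι (LieAlgebra.ad ℚ L y)) ^ 2 ∈ Sp ι t W.Sh
      fun j w => -(2 * d : ℤ) + 1 ≤ w ∨ (2 * d + 5 ≤ j ∧ -(2 * d : ℤ) ≤ w))
    (hE' : E' - (1 / 2 : ℚ) • (t ^ (d + 2) * ι (LieAlgebra.ad ℚ L y)) ^ 2 ∈ Sp ι t W.Sh
      fun j w => -(2 * d : ℤ) + 1 ≤ w ∨ (2 * d + 5 ≤ j ∧ -(2 * d : ℤ) ≤ w))
    {b : L} (hb : b ∈ W.F d) (k : ℕ) : ∃ c : ℚ, 0 < c ∧
      ((iter E E')^[k] ((1 / 2 : ℚ) • (t * ι (LieAlgebra.ad ℚ L b)) ^ 2,
        (1 / 2 : ℚ) • (t * ι (LieAlgebra.ad ℚ L b)) ^ 2)).1 - c • (t ^ ord d k *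
          ι (LieAlgebra.ad ℚ L ((fun b => ⁅b, ⁅b, y⁆⁆)^[k] b) ^ 2)) ∈
        (Sp ι t W.Sh fun j w => ord d k + 1 ≤ j ∧ (2 * d : ℤ) ≤ w) ∧
      ((iter E E')^[k] ((1 / 2 : ℚ) • (t * ι (LieAlgebra.ad ℚ L b)) ^ 2,
        (1 / 2 : ℚ) • (t * ι (LieAlgebra.ad ℚ L b)) ^ 2)).2 - c • (t ^ ord d k *
          ι (LieAlgebra.ad ℚ L ((fun b => ⁅b, ⁅b, y⁆⁆)^[k] b) ^ 2)) ∈
        (Sp ι t W.Sh fun j w => ord d k + 1 ≤ j ∧ (2 * d : ℤ) ≤ w) := by
  induction k with
  | zero =>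
    refine ⟨1 / 2, by norm_num, ?_⟩
    simp only [Function.iterate_zero, id, ord, (ht _).mul_pow, map_pow, sub_self, zero_mem,
      and_self]
  | succ k ih =>
    obtain ⟨c, hc, h1, h2⟩ := ih
    set z := (fun b => ⁅b, ⁅b, y⁆⁆)^[k] b with hz
    have hzF : z ∈ W.F d := sigma_mem W y hb k
    have e0 : (t ^ (d + 2) * ι (LieAlgebra.ad ℚ L y)) ^ 2 =
        t ^ (2 * d + 4) * ι (LieAlgebra.ad ℚ L y ^ 2) := by
      rw [pow_two, tmul ht, pow_two, map_mul, show d + 2 + (d + 2) = 2 * d + 4 by ring]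
    rw [e0] at hE hE'
    have hp₀ : c • (t ^ ord d k * ι (LieAlgebra.ad ℚ L z ^ 2)) ∈
        Sp ι t W.Sh fun j w => ord d k ≤ j ∧ (2 * d : ℤ) ≤ w :=
      Submodule.smul_mem _ _ (mem_Sp ⟨le_rfl, le_rfl⟩ (sq_mem W hzF))
    have hε₀ : (1 / 2 : ℚ) • (t ^ (2 * d + 4) * ι (LieAlgebra.ad ℚ L y ^ 2)) ∈
        Sp ι t W.Sh fun j w => 2 * d + 4 ≤ j ∧ -(2 * d : ℤ) ≤ w :=
      Submodule.smul_mem _ _ (mem_Sp ⟨le_rfl, by omega⟩ (sq_mem W (W.mem_low le_rfl y)))
    have e1 : c • (t ^ ord d k * ι (LieAlgebra.ad ℚ L z ^ 2)) *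
        (1 / 2 : ℚ) • (t ^ (2 * d + 4) * ι (LieAlgebra.ad ℚ L y ^ 2)) *
        c • (t ^ ord d k * ι (LieAlgebra.ad ℚ L z ^ 2)) = (c * (1 / 2) * c) • (t ^ ord d (k + 1) *
          ι (LieAlgebra.ad ℚ L ((fun b => ⁅b, ⁅b, y⁆⁆)^[k + 1] b) ^ 2)) := by
      have h3 := ad_pow_sq z y 2 (cube_eq_zero W hd hzF)
      have h4 : (LieAlgebra.ad ℚ L z ^ 2) y = ⁅z, ⁅z, y⁆⁆ := by simp [pow_two]
      rw [h4, neg_one_sq, one_smul] at h3
      rw [Function.iterate_succ_apply', ← hz, h3, smul_mul_smul_comm, smul_mul_smul_comm, tmul ht,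
        tmul ht, map_mul, map_mul, ord,
        show ord d k + (2 * d + 4) + ord d k = 2 * ord d k + 2 * d + 4 by ring]
    refine ⟨c * (1 / 2) * c, by positivity, ?_⟩
    rw [← e1, Function.iterate_succ_apply']
    exact ⟨lead_step W ht hp₀ h1 h2 hε₀ hE, lead_step W ht hp₀ h1 h2 hε₀ hE'⟩

theorem series_aux (W : WF a d) (hd : 1 ≤ d) (ht : ∀ z, Commute t z) {M : ℕ} (hM : t ^ M = 0)
    (h3 : 3 ≤ M) {n : ℕ} {r₁ : L} (hr : r₁ ∈ W.F (-2)) (r₂ : L)
    (hid : ∀ b : L, engExpr n M (ι (LieAlgebra.ad ℚ L a)) (t * ι (LieAlgebra.ad ℚ L b))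
      (t ^ 2 * ι (LieAlgebra.ad ℚ L r₁)) (t ^ d * ι (LieAlgebra.ad ℚ L r₂)) = 0)
    {b : L} (hb : b ∈ W.F d) : ∃ z, t ^ ord d n *
      ι (LieAlgebra.ad ℚ L ((fun b => ⁅b, ⁅b, ycoef d a r₁ r₂⁆⁆)^[n] b) ^ 2) =
        t ^ (ord d n + 1) * z := by
  set ρ₁ := t ^ 2 * ι (LieAlgebra.ad ℚ L r₁) with hρ₁
  set ρ₂ := t ^ d * ι (LieAlgebra.ad ℚ L r₂) with hρ₂
  have n₁ : ρ₁ ^ M = 0 := tpow_eq_zero ht hM (by norm_num) _ le_rfl
  have n₂ : ρ₂ ^ M = 0 := tpow_eq_zero ht hM hd _ le_rfl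
  have n₁' : (-ρ₁) ^ M = 0 := by rw [neg_pow, n₁, mul_zero]
  have n₂' : (-ρ₂) ^ M = 0 := by rw [neg_pow, n₂, mul_zero]
  set u := exp ρ₁ * exp ρ₂ with hu
  set u' := exp (-ρ₂) * exp (-ρ₁) with hu'
  have huu : u * u' = 1 := by
    rw [hu, hu', mul_assoc, ← mul_assoc (exp ρ₂), exp_mul_exp_neg_self ⟨M, n₂⟩, one_mul,
      exp_mul_exp_neg_self ⟨M, n₁⟩]
  have huu' : u' * u = 1 := by
    rw [hu, hu', mul_assoc, ← mul_assoc (exp (-ρ₁)), exp_neg_mul_exp_self ⟨M, n₁⟩, one_mul,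
      exp_neg_mul_exp_self ⟨M, n₂⟩]
  set A := u' * ι (LieAlgebra.ad ℚ L a) * u with hA
  have hAeq := hat_eq (ι := ι) ht hM hd a r₁ r₂ (le_max_left M (d + 3))
  have hA1 : A ∈ Sp ι t W.Sh fun j w => 2 - (j : ℤ) ≤ w := by
    rw [hA, hAeq]
    exact hat_mem W r₁ hr r₂ _ _
  have hA2 := hat_sub (ι := ι) (t := t) W hd r₁ hr r₂ (le_max_right M (d + 3))
  rw [← hAeq] at hA2
  have hη : t ^ (d + 2) * ι (LieAlgebra.ad ℚ L (ycoef d a r₁ r₂)) ∈
      Sp ι t W.Sh fun j w => d + 2 ≤ j ∧ -(d : ℤ) ≤ w :=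
    mem_Sp ⟨le_rfl, le_rfl⟩ (W.ad_mem (W.mem_low le_rfl _))
  have hE := texp_mem W hd ht h3 hA1 hη hA2
  have hE' := texp_mem W hd ht h3 (neg_mem hA1) (neg_mem hη) (by
    rw [neg_sub_neg, ← neg_sub]
    exact neg_mem hA2)
  rw [neg_sq] at hE'
  set x := t * ι (LieAlgebra.ad ℚ L b) with hx
  have hx3 : x ^ 3 = 0 := by
    rw [hx, (ht _).mul_pow, ← map_pow, cube_eq_zero W hd hb, map_zero, mul_zero]
  have hexp : ∀ c : ℚ, texp M (c • x) = 1 + c • x + (c ^ 2 / 2) • x ^ 2 := by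
    intro c
    have h1 : (c • x) ^ 3 = 0 := by rw [smul_pow, hx3, smul_zero]
    rw [texp_eq_exp (pow_eq_zero_of_le h3 h1), exp_eq_sum h1]
    simp only [sum_range_succ, range_zero, sum_empty, Nat.factorial, smul_pow, smul_smul]
    norm_num
    congr 1
    ring
  have h0 := top_coeff (texp M A) (texp M (-A)) x n fun c => by
    have h1 := hid (c • b)
    rw [map_smul, map_rat_smul, mul_smul_comm, ← hx, engExpr, sub_eq_zero, texp_eq_exp n₁,
      texp_eq_exp n₂, texp_eq_exp n₁', texp_eq_exp n₂', ← hu, mul_assoc (u * _), mul_assoc (u * _),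
      ← hu', iter_conj, conj_texp huu huu', conj_texp huu huu', ← hA, mul_neg, neg_mul, ← hA,
      ← neg_smul, hexp, hexp, neg_sq, neg_smul, ← sub_eq_add_neg] at h1
    have h2 := congrArg (fun z => u' * z * u) h1
    simp only [conj_texp huu huu', ← hA] at h2
    refine Eq.trans ?_ h2
    simp only [← mul_assoc, huu', one_mul]
    rw [mul_assoc, huu', mul_one]
  obtain ⟨c, hc, h1, -⟩ := lead W hd ht (ycoef d a r₁ r₂) hE hE' hb n
  rw [h0, zero_sub] at h1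
  obtain ⟨z, hz⟩ := Sp_dvd h1 fun j w h => h.1
  refine ⟨-(c⁻¹ • z), ?_⟩
  rw [mul_neg, mul_smul_comm, ← hz, smul_neg, neg_neg, inv_smul_smul₀ hc.ne']

end Aux

open Polynomial in
theorem series (W : WF a d) {n : ℕ} (hd : 2 ≤ d) (h : LieEng n a) (r₁ : L)
    (hr : r₁ ∈ W.F (-2)) (r₂ b : L) (hb : b ∈ W.F d) :
    LieAlgebra.ad ℚ L ((fun b => ⁅b, ⁅b, ycoef d a r₁ r₂⁆⁆)^[n] b) ^ 2 = 0 := by
  set M := n + 3 + ord d n with hM
  let I : Ideal (Module.End ℚ L)[X] := Ideal.span {X ^ M}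
  have hI : ∀ p, p ∈ I ↔ ∀ j < M, p.coeff j = 0 := by
    intro p
    rw [Ideal.mem_span_singleton', ← X_pow_dvd_iff]
    exact ⟨fun ⟨q, hq⟩ => ⟨q, by rw [← hq, (commute_X_pow q M).eq]⟩,
      fun ⟨q, hq⟩ => ⟨q, by rw [hq, (commute_X_pow q M).eq]⟩⟩
  have : I.IsTwoSided := ⟨fun {p} q hp => by
    obtain ⟨r, rfl⟩ := Ideal.mem_span_singleton'.1 hp
    exact Ideal.mem_span_singleton'.2 ⟨r * q, by rw [mul_assoc, mul_assoc, (commute_X_pow q M).eq]⟩⟩
  obtain ⟨z, hz⟩ := series_aux (ι := (Ideal.Quotient.mk I).comp C) (t := Ideal.Quotient.mk I X)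
    W (by omega) (fun z => by
      obtain ⟨p, rfl⟩ := Ideal.Quotient.mk_surjective z
      exact (commute_X p).map _) (M := M)
    (by rw [← map_pow, Ideal.Quotient.eq_zero_iff_mem]; exact Ideal.subset_span rfl)
    (by omega) (n := n) hr r₂ (fun b => by
      have := (Ideal.Quotient.eq_zero_iff_mem (I := I)).2
        ((hI _).2 fun j hj => h.2 b r₁ r₂ M d j (by omega) (by omega) hj)
      rw [map_engExpr] at this
      simpa only [map_mul, map_pow, RingHom.comp_apply] using this) hb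
  obtain ⟨p, rfl⟩ := Ideal.Quotient.mk_surjective z
  rw [RingHom.comp_apply, ← map_pow (Ideal.Quotient.mk I), ← map_pow (Ideal.Quotient.mk I),
    ← map_mul, ← map_mul, Ideal.Quotient.eq] at hz
  have := (hI _).1 hz (ord d n) (by omega)
  rwa [coeff_sub, coeff_X_pow_mul', coeff_X_pow_mul', if_pos le_rfl, if_neg (by omega), sub_zero,
    Nat.sub_self, coeff_C_zero] at this

end Pool.Agent.MP_f21dda_al.H92

end
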