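import Pool.Agent.MP_f21dda_al.Mg.H92_Transfer
import Pool.Agent.MP_f21dda_al.Mg.H92_Series
import Pool.Agent.MP_f36ac3_al.Mg.Nilp

-- part MP_f21dda_al.H92.LieNil
section

/-!
A Lie algebra generated by finitely many Engel elements is nilpotent.
-/

namespace Pool.Agent.MP_f21dda_al.H92

variable {L : Type*} [LieRing L] [LieAlgebra ℚ L]

theorem eq_zero_of_lieEng (hs : ∀ x : L, LieAlgebra.ad ℚ L x ^ 2 = 0 → x = 0) {n : ℕ} {a : L}
    (h : LieEng n a) : a = 0 := by
  classical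
  have hex : ∃ m, LieAlgebra.ad ℚ L a ^ m = 0 := ⟨n, h.1⟩
  have hm := Nat.find_spec hex
  by_cases h2 : Nat.find hex ≤ 2
  · exact hs a (pow_eq_zero_of_le h2 hm)
  obtain ⟨d, hd⟩ : ∃ d, Nat.find hex = d + 1 := ⟨Nat.find hex - 1, by omega⟩
  rw [hd] at hm
  have hd2 : 2 ≤ d := by omega
  obtain ⟨W⟩ := exists_WF a d hm
  have key : ∀ r₁ ∈ W.F (-2), ∀ r₂ : L, (LieAlgebra.ad ℚ L a ^ d) (ycoef d a r₁ r₂) = 0 :=
    fun r₁ hr r₂ => pair_nil W (by omega) hs _ n fun b hb => hs _ (series W hd2 h r₁ hr r₂ b hb)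
  refine absurd (pair_end W hd2 hs fun r₁ hr r₂ => ?_) (Nat.find_min hex (by omega))
  rw [← ycoef_mixed d hd2, map_sub, map_sub, key r₁ hr, key r₁ hr, key 0 (zero_mem _), sub_zero,
    sub_zero]

/-- The quotient map as a morphism of Lie algebras. -/
def quotHom (I : LieIdeal ℚ L) : L →ₗ⁅ℚ⁆ L ⧸ I :=
  { (LieSubmodule.Quotient.mk' I : L →ₗ[ℚ] L ⧸ I) with
    map_lie' := fun {_ _} => rfl }

theorem quotHom_eq_zero (I : LieIdeal ℚ L) (x : L) : quotHom I x = 0 ↔ x ∈ I :=
  LieSubmodule.Quotient.mk_eq_zero'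

theorem quotHom_surjective (I : LieIdeal ℚ L) : Function.Surjective (quotHom I) :=
  LieSubmodule.Quotient.surjective_mk' I

theorem lie_nilpotent {ι : Type*} [Finite ι] (a : ι → L)
    (hgen : LieSubalgebra.lieSpan ℚ L (Set.range a) = ⊤) {n : ℕ} (h : ∀ i, LieEng n (a i)) :
    ∃ c, LieModule.lowerCentralSeries ℚ L L c = ⊥ := by
  have := Pool.Agent.MP_f36ac3_al.nilpotent_of_sandwich (Set.range a) (Set.finite_range a) hgen
    (by rintro _ ⟨i, rfl⟩; exact ⟨n, (h i).1⟩) (fun I hI => ?_)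
  · exact (LieModule.isNilpotent_iff ℚ L L).1 this
  by_contra hne
  push Not at hne
  have hs : ∀ x : L ⧸ I, LieAlgebra.ad ℚ (L ⧸ I) x ^ 2 = 0 → x = 0 := by
    intro x hx
    obtain ⟨c, rfl⟩ := quotHom_surjective I x
    by_contra hc
    obtain ⟨z, hz⟩ := hne c (fun hc' => hc ((quotHom_eq_zero I c).2 hc'))
    refine hz ((quotHom_eq_zero I _).1 ?_)
    have := LinearMap.congr_fun hx (quotHom I z)
    simpa [pow_two] using this
  refine hI (eq_top_iff.2 fun x _ => ?_)
  have hle : LieSubalgebra.lieSpan ℚ L (Set.range a) ≤ (I : LieSubalgebra ℚ L) := by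
    rw [LieSubalgebra.lieSpan_le]
    rintro _ ⟨i, rfl⟩
    exact (quotHom_eq_zero I _).1
      (eq_zero_of_lieEng hs ((h i).of_surjective _ (quotHom_surjective I)))
  exact hle (hgen ▸ LieSubalgebra.mem_top x)

end Pool.Agent.MP_f21dda_al.H92

end

-- part MP_f21dda_al.H92.ClassBound
section

/-!
Unipotent representations of a group generated by `r` left `n`-Engel elements have bounded class.
-/

namespace Pool.Agent.MP_f21dda_al.H92

attribute [local instance 100] LieRing.ofAssociativeRing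

theorem cb_exp_neg {K R : Type*} [Group K] [Ring R] [Algebra ℚ R] (ρ : K →* R) {y : K} {a : R}
    (ha : IsNilpotent a) (h : IsNilpotent.exp a = ρ y) : IsNilpotent.exp (-a) = ρ y⁻¹ := by
  rw [← mul_one (ρ y⁻¹), ← ha.exp_mul_exp_neg_self, h, ← mul_assoc, ← map_mul, inv_mul_cancel,
    map_one, one_mul]

theorem cb_conj {R : Type*} [Ring R] [Algebra ℚ R] (V : ℕ → Submodule ℚ R) (hanti : Antitone V)
    {x : R} (hx : IsNilpotent x) (h : ∀ j, ∀ v ∈ V j, x * v - v * x ∈ V (j + 1)) (j : ℕ) (v : R)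
    (hv : v ∈ V j) : IsNilpotent.exp x * v * IsNilpotent.exp (-x) - v ∈ V (j + 1) := by
  obtain ⟨s, hs⟩ := hx
  rw [← exp_ad ⟨s, hs⟩, IsNilpotent.exp_eq_sum
    (pow_eq_zero_of_le (Nat.le_succ _) (ad_pow_eq_zero hs)), Finset.sum_range_succ',
    LinearMap.add_apply, LinearMap.sum_apply]
  simp only [Nat.factorial_zero, Nat.cast_one, inv_one, pow_zero, one_smul, Module.End.one_apply,
    add_sub_cancel_right, LinearMap.smul_apply]
  refine sum_mem fun i _ => Submodule.smul_mem _ _ ?_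
  rw [pow_succ, Module.End.mul_apply]
  exact Module.End.pow_apply_mem_of_forall_mem i
    (fun u hu => hanti (Nat.le_succ _) (h _ u hu)) _ (h j v hv)

/- PROOF.  `Ad g v = ρ g * v * ρ g⁻¹`.  `H j = {g | ∀ i, ∀ v ∈ V i, Ad g v - v ∈ V (i + j)}` is a
subgroup (for inverses: `Ad g⁻¹` preserves each `V i` when `j ≥ 1`, by downward induction from
`V N = ⊥`; simplest is to put both `g` and `g⁻¹` in the definition, or to define `H j` inside the
subgroup of `g` such that `Ad g`, `Ad g⁻¹` preserve all `V i`).  `y i ∈ H 1` by `exp_ad`.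
`⁅H j, ⊤⁆ ≤ H (j + 1)` since `Ad g Ad h - Ad h Ad g = (Ad g - 1) (Ad h - 1) - (Ad h - 1) (Ad g - 1)`.
So `ρ g` commutes with all `a i`, hence with `ρ (y i) = exp (a i)` and with `ρ K`, for
`g ∈ lowerCentralSeries N`. -/
theorem class_of_filtration {K R ι : Type*} [Group K] [Ring R] [Algebra ℚ R] (ρ : K →* R)
    (y : ι → K) (hgen : Subgroup.closure (Set.range y) = ⊤) (a : ι → R)
    (hnil : ∀ i, IsNilpotent (a i)) (hexp : ∀ i, IsNilpotent.exp (a i) = ρ (y i))
    (V : ℕ → Submodule ℚ R) (hanti : Antitone V) (h0 : ∀ i, a i ∈ V 0)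
    (hlie : ∀ i j, ∀ v ∈ V j, a i * v - v * a i ∈ V (j + 1)) (N : ℕ) (hN : V N = ⊥) :
    ∀ g ∈ (⊤ : Subgroup K).lowerCentralSeries (N + 1), ρ g = 1 := by
  let A : K →* Module.End ℚ R :=
    { toFun := fun g => LinearMap.mulLeft ℚ (ρ g) * LinearMap.mulRight ℚ (ρ g⁻¹)
      map_one' := by ext v; simp
      map_mul' := fun g h => by ext v; simp [mul_assoc] }
  have hA : ∀ g v, A g v = ρ g * v * ρ g⁻¹ := fun g v => by simp [A, mul_assoc]
  let P : ℕ → K → Prop := fun j g => ∀ i, ∀ v ∈ V i, A g v - v ∈ V (i + j + 1)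
  have p1 : ∀ j g, P j g → ∀ i, ∀ v ∈ V i, A g v ∈ V i := fun j g hg i v hv => by
    simpa using add_mem (hanti (by omega) (hg i v hv)) hv
  have p2 : ∀ j g h, P j g → P j h → P j (g * h) := fun j g h hg hh i v hv => by
    simpa using add_mem (hg i _ (p1 j h hh i v hv)) (hh i v hv)
  let H : ℕ → Subgroup K := fun j =>
    { carrier := {g | P j g ∧ P j g⁻¹}
      mul_mem' := fun {g h} hg hh => ⟨p2 j _ _ hg.1 hh.1, mul_inv_rev g h ▸ p2 j _ _ hh.2 hg.2⟩
      one_mem' := by simp [P]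
      inv_mem' := fun {g} hg => ⟨hg.2, (inv_inv g).symm ▸ hg.1⟩ }
  have h1 : ∀ g, P 0 g := fun g => by
    refine ((Subgroup.closure_le (H 0)).2 ?_ (hgen.ge (Subgroup.mem_top g))).1
    rintro _ ⟨i, rfl⟩
    refine ⟨fun j v hv => ?_, fun j v hv => ?_⟩
    · rw [hA, ← cb_exp_neg ρ (hnil i) (hexp i), ← hexp]
      exact cb_conj V hanti (hnil i) (hlie i) j v hv
    · have := cb_conj V hanti (hnil i).neg (fun j v hv => by
        simpa [sub_eq_add_neg, add_comm] using neg_mem (hlie i j v hv)) j v hv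
      rw [neg_neg, cb_exp_neg ρ (hnil i) (hexp i), hexp] at this
      rwa [hA, inv_inv]
  have h2 : ∀ j g h, P j g → ∀ i, ∀ u ∈ V i, A g (A h u) - A h (A g u) ∈ V (i + (j + 1) + 1) :=
    fun j g h hg i u hu => by
      have a1 := hg _ _ (h1 h i u hu)
      have a2 := h1 h _ _ (hg i u hu)
      rw [show i + 0 + 1 + j + 1 = i + (j + 1) + 1 by omega] at a1
      rw [show i + j + 1 + 0 + 1 = i + (j + 1) + 1 by omega] at a2
      convert sub_mem a1 a2 using 1
      simp only [map_sub]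
      abel
  have h3 : ∀ j, (⊤ : Subgroup K).lowerCentralSeries j ≤ H j := fun j => by
    induction j with
    | zero => exact fun g _ => ⟨h1 _, h1 _⟩
    | succ j ih =>
      refine Subgroup.commutator_le.2 fun g hg h _ => ⟨fun i v hv => ?_, fun i v hv => ?_⟩
      · convert h2 j g h (ih hg).1 i _ (p1 0 (g⁻¹ * h⁻¹) (h1 _) i v hv) using 2 <;>
          simp only [← Module.End.mul_apply, ← map_mul, commutatorElement_def] <;> simp [mul_assoc]
      · rw [← neg_mem_iff, neg_sub]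
        convert h2 j g h (ih hg).1 i _ (p1 0 (h⁻¹ * g⁻¹) (h1 _) i v hv) using 2 <;>
          simp only [← Module.End.mul_apply, ← map_mul, commutatorElement_def] <;> simp [mul_assoc]
  refine fun g hg => (Subgroup.commutator_le (H₃ := ρ.ker)).2 (fun g hg h _ => ?_) hg
  have h4 : Commute (ρ g) (ρ h) := by
    have hh : h ∈ Subgroup.closure (Set.range y) := hgen ▸ trivial
    induction hh using Subgroup.closure_induction with
    | mem _ hx =>
      obtain ⟨i, rfl⟩ := hx
      have := hanti (show N ≤ 0 + N + 1 by omega) ((h3 N hg).1 0 _ (h0 i))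
      rw [hN, Submodule.mem_bot, sub_eq_zero, hA] at this
      have e : Commute (ρ g) (a i) := by
        rw [Commute, SemiconjBy]
        conv_rhs => rw [← this, mul_assoc, ← map_mul, inv_mul_cancel, map_one, mul_one]
      rw [← hexp, IsNilpotent.exp]
      exact Commute.sum_right _ _ _ fun k _ => (e.pow_right k).smul_right _
    | one => simp
    | mul x z _ _ hx hz => exact map_mul ρ x z ▸ (hx trivial).mul_right (hz trivial)
    | inv x _ hx =>
      have := hx trivial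
      rw [Commute, SemiconjBy, ← map_mul, ← map_mul] at this ⊢
      have e := congrArg (fun z => ρ x⁻¹ * z * ρ x⁻¹) this
      simp only [← map_mul] at e
      simpa [mul_assoc] using e.symm
  rw [MonoidHom.mem_ker, commutatorElement_def, map_mul, map_mul, map_mul, h4.eq]
  simp only [← map_mul]
  simp

/- PROOF.  By contradiction choose for each `c` a group `K c`, generators `y c`, a model
`(R c, ρ c, s c)` and `g c ∈ lowerCentralSeries c` with `ρ c (g c) ≠ 1`.  `exists_lie` gives `𝔤 c`;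
`a i = fun c => lg (s c) (ρ c (y c i))` in the ring `Π c, R c`; `L = lieSpan (range a)`; Lie homs
`π c : L → 𝔤 c`; `model_lieEng` (note `ρ e⁻¹ = exp (-lg (ρ e))`), `LieEng.of_family`, `lie_nilpotent`
give `N` with `lowerCentralSeries N = ⊥` for `L`; `class_of_filtration` at `c = N + 1` with `V j` the
image of `lowerCentralSeries j`. -/
theorem class_bound (r n : ℕ) : ∃ c : ℕ, ∀ (K : Type) [Group K] (y : Fin r → K),
    Subgroup.closure (Set.range y) = ⊤ → (∀ i, IsEngT n (y i)) →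
      (⊤ : Subgroup K).lowerCentralSeries c ≤ Dinf K := by
  by_contra hcon
  simp only [not_exists, not_forall, SetLike.not_le_iff_exists, mem_Dinf] at hcon
  choose K _ y hy he g hg R _ _ ρ s hρ hne using hcon
  choose 𝔤 g1 g2 g3 using fun c => exists_lie (ρ c) (s c) (hρ c)
  have hu : ∀ c k, (ρ c k - 1) ^ s c = 0 := fun c k =>
    (hρ c).pow_eq_zero (Submodule.subset_span ⟨k, rfl⟩)
  let a : Fin r → ∀ c, R c := fun i c => lg (s c) (ρ c (y c i))
  have hn : ∀ i c, IsNilpotent (a i c) := fun i c => ⟨_, lg_pow_eq_zero (hu c _)⟩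
  have hx : ∀ i c, IsNilpotent.exp (a i c) = ρ c (y c i) := fun i c => exp_lg (hu c _)
  let L := LieSubalgebra.lieSpan ℚ (∀ c, R c) (Set.range a)
  let a' : Fin r → L := fun i => ⟨a i, LieSubalgebra.subset_lieSpan ⟨i, rfl⟩⟩
  let e : ∀ c, (∀ c, R c) →ₗ⁅ℚ⁆ R c := fun c => (Pi.evalAlgHom ℚ R c).toLieHom
  have hL : ∀ c, L ≤ (𝔤 c).comap (e c) := fun c => LieSubalgebra.lieSpan_le.2 (by
    rintro _ ⟨i, rfl⟩
    exact g1 c _)
  let π : ∀ c, L →ₗ⁅ℚ⁆ 𝔤 c := fun c =>
    { ((e c).comp L.incl).toLinearMap.codRestrict (𝔤 c).toSubmodule fun x => hL c x.2 with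
      map_lie' := rfl }
  obtain ⟨N, hN⟩ := lie_nilpotent a' (by
      rw [← LieSubalgebra.lieSpan_lieSpan_coe_preimage]
      congr 1
      ext x
      simp [a', Subtype.ext_iff]) (n := n) fun i =>
    LieEng.of_family π (fun v hv => Subtype.ext (funext fun c => congrArg Subtype.val (hv c)))
      fun c => model_lieEng (𝔤 c) (s c) n (fun x hx => (hρ c).pow_eq_zero (g2 c x hx)) _
        fun l hl => by
          have := g3 c n _ (he c i) l hl
          rwa [← cb_exp_neg _ (hn i c) (hx i c), ← hx] at this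
  refine hne (N + 1) (class_of_filtration (ρ _) (y _) (hy _) (fun i => a i _) (hn · _) (hx · _)
    (fun j => (LieModule.lowerCentralSeries ℚ L L j).toSubmodule.map
      ((e (N + 1)).comp L.incl).toLinearMap)
    (fun i j h => Submodule.map_mono (LieModule.antitone_lowerCentralSeries ℚ L L h))
    (fun i => ⟨a' i, trivial, rfl⟩) ?_ N (by simp [hN]) _ (hg _))
  rintro i j _ ⟨v, hv, rfl⟩
  refine ⟨⁅a' i, v⁆, ?_, rfl⟩
  rw [LieModule.lowerCentralSeries_succ]
  exact LieSubmodule.lie_mem_lie trivial hv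

end Pool.Agent.MP_f21dda_al.H92

end

-- part MP_f21dda_al.H92.Ext0
section

/-!
Extending unipotent representations along an Engel element.
-/

namespace Pool.Agent.MP_f21dda_al.H92

/- PROOF.  `R' = ℤ → R`, `ρ' x j = ρ ((θ ^ j) x)`, the shift `Σ` is an algebra automorphism of `R'`
with `Σ (ρ' x) = ρ' (θ x)`; take the subalgebra `Algebra.adjoin ℚ (range ρ')`, which is the span of
`range ρ'` (`Algebra.adjoin_eq_span`, the range of a monoid hom is a submonoid). -/
theorem exists_twisted {N R : Type} [Group N] [Ring R] [Algebra ℚ R] (ρ : N →* R) (s : ℕ)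
    (h : Unip ρ s) (θ : MulAut N) : ∃ (R' : Type) (_ : Ring R') (_ : Algebra ℚ R') (ρ' : N →* R')
      (Θ : R' ≃ₐ[ℚ] R'), Unip ρ' s ∧ Submodule.span ℚ (Set.range ρ') = ⊤ ∧
        (∀ x, Θ (ρ' x) = ρ' (θ x)) ∧ ∀ x, ρ' x = 1 → ρ x = 1 := by
  let ρ0 : N →* (ℤ → R) := MonoidHom.pi fun j => ρ.comp (θ ^ j).toMonoidHom
  have hρ0 : ∀ x j, ρ0 x j = ρ ((θ ^ j) x) := fun _ _ => rfl
  let Sh : (ℤ → R) ≃ₐ[ℚ] (ℤ → R) :=
    { toFun := fun f j => f (j + 1)
      invFun := fun f j => f (j - 1)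
      left_inv := fun f => by funext j; simp
      right_inv := fun f => by funext j; simp
      map_mul' := fun _ _ => rfl
      map_add' := fun _ _ => rfl
      commutes' := fun _ => rfl }
  have hSh : ∀ x, Sh (ρ0 x) = ρ0 (θ x) := by
    intro x
    funext j
    change ρ0 x (j + 1) = _
    rw [hρ0, hρ0, zpow_add_one, MulAut.mul_apply]
  let A : Subalgebra ℚ (ℤ → R) := Algebra.adjoin ℚ (Set.range ρ0)
  have hmem : ∀ x, ρ0 x ∈ A := fun x => Algebra.subset_adjoin ⟨x, rfl⟩
  have hA : A.map (Sh : (ℤ → R) →ₐ[ℚ] (ℤ → R)) = A := by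
    rw [AlgHom.map_adjoin]
    congr 1
    ext f
    constructor
    · rintro ⟨_, ⟨x, rfl⟩, rfl⟩
      exact ⟨θ x, (hSh x).symm⟩
    · rintro ⟨x, rfl⟩
      exact ⟨_, ⟨θ.symm x, rfl⟩, by
        rw [AlgEquiv.coe_toAlgHom, hSh, MulEquiv.apply_symm_apply]⟩
  let ρ' : N →* A := ρ0.codRestrict A hmem
  refine ⟨A, inferInstance, inferInstance, ρ',
    (Sh.subalgebraMap A).trans (Subalgebra.equivOfEq _ _ hA), ?_, ?_, ?_, ?_⟩
  · intro l hl
    apply Subtype.ext
    funext j
    have := h (l.map (θ ^ j)) (by simpa using hl)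
    let φ : A →+* R := (Pi.evalRingHom (fun _ : ℤ => R) j).comp A.val.toRingHom
    change φ _ = 0
    rw [map_list_prod, ← this, List.map_map, List.map_map]
    rfl
  · apply Submodule.map_injective_of_injective (f := A.val.toLinearMap) Subtype.val_injective
    rw [Submodule.map_span, Submodule.map_top, ← Set.range_comp]
    have e1 : LinearMap.range A.val.toLinearMap = Subalgebra.toSubmodule A := by
      ext f
      simp
    rw [e1, Algebra.adjoin_eq_span, ← MonoidHom.coe_mrange, Submonoid.closure_eq]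
    rfl
  · intro x
    exact Subtype.ext (hSh x)
  · intro x hx
    have := congrFun (congrArg Subtype.val hx) 0
    simpa [ρ', hρ0] using this

/- PROOF.  The `g` with `(σ g - 1) (W i) ≤ W (i + 1)` for all `i` form a subgroup (inverses:
`σ g⁻¹` preserves `W i` by downward induction from `W s = ⊥`). -/
theorem unip_of_chain {H V : Type*} [Group H] [AddCommGroup V] [Module ℚ V]
    (σ : H →* Module.End ℚ V) (S : Set H) (hS : Subgroup.closure S = ⊤) (W : ℕ → Submodule ℚ V)
    (hanti : Antitone W) (h0 : W 0 = ⊤) (s : ℕ) (hs : W s = ⊥)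
    (h : ∀ g ∈ S, ∀ i, ∀ v ∈ W i, σ g v - v ∈ W (i + 1)) : Unip σ s := by
  have key : ∀ g : H, ∀ i, ∀ v ∈ W i, σ g v - v ∈ W (i + 1) := by
    intro g
    have hg : g ∈ Subgroup.closure S := hS ▸ Subgroup.mem_top g
    induction hg using Subgroup.closure_induction with
    | mem x hx => exact h x hx
    | one => intro i v _; simp
    | mul a b _ _ ha hb =>
      intro i v hv
      have h1 := hb i v hv
      have h2 : σ b v ∈ W i := by
        have := (W i).add_mem (hanti (Nat.le_succ i) h1) hv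
        simpa using this
      have := (W (i + 1)).add_mem (ha i _ h2) h1
      simpa using this
    | inv a _ ha =>
      have e : ∀ v, σ a⁻¹ (σ a v) = v := by
        intro v
        rw [← Module.End.mul_apply, ← map_mul, inv_mul_cancel, map_one, Module.End.one_apply]
      have hpres : ∀ j i, s ≤ i + j → ∀ v ∈ W i, σ a⁻¹ v ∈ W i := by
        intro j
        induction j with
        | zero =>
          intro i hi v hv
          have : v ∈ W s := hanti hi hv
          rw [hs, Submodule.mem_bot] at this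
          simp [this]
        | succ j ih =>
          intro i hi v hv
          have h1 := ih (i + 1) (by omega) _ (ha i v hv)
          have := (W i).sub_mem hv (hanti (Nat.le_succ i) h1)
          simpa [e] using this
      intro i v hv
      have := (W (i + 1)).neg_mem (hpres s (i + 1) (by omega) _ (ha i v hv))
      simpa [e] using this
  have key2 : ∀ l : List H, ∀ v, (l.map fun g => σ g - 1).prod v ∈ W l.length := by
    intro l v
    induction l with
    | nil => simp [h0]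
    | cons g l ih => simpa using key g _ _ ih
  intro l hl
  ext v
  have := key2 l v
  rwa [hl, hs, Submodule.mem_bot] at this

/- PROOF.  `I = aug ρ` is a two-sided ideal (`R = ℚ 1 + I`), `J i = I ^ i * ⊤`, `J s = ⊥`.
`δ = Θ - 1`.  `δ ^ k (ρ x - 1) ≡ ρ (Δ^[k] x) - 1` modulo `I * I`, `Δ x = x⁻¹ * θ x`, so
`δ ^ n I ≤ I * I`.  `δ (x w) = δ x * Θ w + x * δ w`; by induction on `p + q`: if `x ∈ I`, `w ∈ J i`,
`δ ^ p x ∈ I * I`, `δ ^ q w ∈ J (i + 1)` then `δ ^ (p + q) (x w) ∈ J (i + 2)`.  `δ ⊤ ≤ I`. -/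
theorem exists_filtration {N R : Type*} [Group N] [Ring R] [Algebra ℚ R] (ρ : N →* R) (s : ℕ)
    (h : Unip ρ s) (hspan : Submodule.span ℚ (Set.range ρ) = ⊤) (θ : MulAut N) (Θ : R ≃ₐ[ℚ] R)
    (hΘ : ∀ x, Θ (ρ x) = ρ (θ x)) (n : ℕ) (hn : ∀ x, (fun x => x⁻¹ * θ x)^[n] x = 1) :
    ∃ (J : ℕ → Submodule ℚ R) (k : ℕ), Antitone J ∧ J 0 = ⊤ ∧ J s = ⊥ ∧
      (∀ i, ∀ v ∈ J i, ∀ x ∈ aug ρ, x * v ∈ J (i + 1) ∧ v * x ∈ J (i + 1)) ∧
      (∀ i, ∀ v ∈ J i, Θ v ∈ J i) ∧
      ∀ i, ∀ v ∈ J i, ((Θ.toLinearMap - 1 : Module.End ℚ R) ^ k) v ∈ J (i + 1) := by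
  set I := aug ρ with hI
  have hgen : ∀ g, ρ g - 1 ∈ I := fun g => Submodule.subset_span ⟨g, rfl⟩
  have hideal : ∀ r : R, ∀ x ∈ I, r * x ∈ I := by
    intro r x hx
    have hr : r ∈ Submodule.span ℚ (Set.range ρ) := hspan ▸ Submodule.mem_top
    induction hr using Submodule.span_induction with
    | mem _ hr =>
      obtain ⟨g, rfl⟩ := hr
      have := I.add_mem (aug_mul ρ _ (hgen g) x hx) hx
      simpa [sub_mul] using this
    | zero => simp
    | add a b _ _ ha hb => rw [add_mul]; exact I.add_mem ha hb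
    | smul c a _ ha => rw [smul_mul_assoc]; exact I.smul_mem c ha
  let J : ℕ → Submodule ℚ R := fun i => Nat.rec ⊤ (fun _ K => I * K) i
  have J0 : J 0 = ⊤ := rfl
  have Js : ∀ i, J (i + 1) = I * J i := fun _ => rfl
  have hI1 : ∀ x ∈ I, x ∈ J 1 := fun x hx => by
    have := Submodule.mul_mem_mul hx (Submodule.mem_top (x := (1 : R)))
    rwa [mul_one] at this
  have hanti : Antitone J := by
    refine antitone_nat_of_succ_le fun i => ?_
    induction i with
    | zero => exact le_top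
    | succ i ih => rw [Js (i + 1), Js i]; exact mul_le_mul_right ih I
  have hzero : ∀ i, ∀ v ∈ J i, ∀ l : List R, (∀ x ∈ l, x ∈ I) → l.length + i = s →
      l.prod * v = 0 := by
    intro i
    induction i with
    | zero => intro v _ l hl hlen; rw [h.prod_eq_zero l hl hlen, zero_mul]
    | succ i ih =>
      intro v hv l hl hlen
      refine Submodule.mul_induction_on hv (fun x hx w hw => ?_) fun a b ha hb => ?_
      · have := ih w hw (l ++ [x]) (by
          intro y hy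
          rcases List.mem_append.1 hy with hy | hy
          · exact hl y hy
          · rw [List.mem_singleton.1 hy]; exact hx) (by simp; omega)
        simpa [mul_assoc] using this
      · rw [mul_add, ha, hb, add_zero]
  have hJs : J s = ⊥ := by
    rw [eq_bot_iff]
    intro v hv
    simpa using hzero s v hv [] (by simp) (by simp)
  have hright : ∀ i, ∀ v ∈ J i, ∀ x ∈ I, v * x ∈ J (i + 1) := by
    intro i
    induction i with
    | zero => exact fun v _ x hx => hI1 _ (hideal v x hx)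
    | succ i ih =>
      intro v hv x hx
      refine Submodule.mul_induction_on hv (fun y hy w hw => ?_) fun a b ha hb => ?_
      · rw [mul_assoc]
        exact Submodule.mul_mem_mul hy (ih w hw x hx)
      · rw [add_mul]; exact add_mem ha hb
  have hΘI : ∀ x ∈ I, Θ x ∈ I := by
    intro x hx
    induction hx using Submodule.span_induction with
    | mem _ hr =>
      obtain ⟨g, rfl⟩ := hr
      simpa [hΘ] using hgen (θ g)
    | zero => simp
    | add a b _ _ ha hb => rw [map_add]; exact I.add_mem ha hb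
    | smul c a _ ha => rw [map_smul]; exact I.smul_mem c ha
  have hΘmul : ∀ K L : Submodule ℚ R, (∀ x ∈ K, Θ x ∈ K) → (∀ x ∈ L, Θ x ∈ L) →
      ∀ x ∈ K * L, Θ x ∈ K * L := by
    intro K L hK hL x hx
    refine Submodule.mul_induction_on hx (fun y hy w hw => ?_) fun a b ha hb => ?_
    · rw [map_mul]; exact Submodule.mul_mem_mul (hK y hy) (hL w hw)
    · rw [map_add]; exact add_mem ha hb
  have hΘJ : ∀ i, ∀ v ∈ J i, Θ v ∈ J i := by
    intro i
    induction i with
    | zero => exact fun _ _ => Submodule.mem_top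
    | succ i ih => exact hΘmul I (J i) hΘI ih
  set δ : Module.End ℚ R := Θ.toLinearMap - 1 with hδ
  have hδa : ∀ v, δ v = Θ v - v := fun _ => rfl
  have hδpow : ∀ K : Submodule ℚ R, (∀ x ∈ K, Θ x ∈ K) → ∀ k : ℕ, ∀ x ∈ K, (δ ^ k) x ∈ K := by
    intro K hK k
    induction k with
    | zero => intro x hx; simpa using hx
    | succ k ih =>
      intro x hx
      rw [pow_succ', Module.End.mul_apply, hδa]
      exact K.sub_mem (hK _ (ih x hx)) (ih x hx)
  have hδgen : ∀ (k : ℕ) (x : N),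
      (δ ^ k) (ρ x - 1) - (ρ ((fun x => x⁻¹ * θ x)^[k] x) - 1) ∈ I * I := by
    intro k x
    induction k with
    | zero => simp
    | succ k ih =>
      rw [Function.iterate_succ_apply', pow_succ', Module.End.mul_apply]
      set y := (fun x => x⁻¹ * θ x)^[k] x
      have h1 := hδpow _ (hΘmul I I hΘI hΘI) 1 _ ih
      have h2 := Submodule.mul_mem_mul (hgen y) (hgen (y⁻¹ * θ y))
      have e1 : (ρ y - 1) * (ρ (y⁻¹ * θ y) - 1) = δ (ρ y - 1) - (ρ (y⁻¹ * θ y) - 1) := by
        rw [hδa, map_sub Θ, map_one, hΘ, sub_mul, mul_sub, ← map_mul, mul_inv_cancel_left]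
        simp
      have := add_mem h1 h2
      rw [e1, pow_one, map_sub δ ((δ ^ k) _), sub_add_sub_cancel] at this
      exact this
  have hδn : ∀ x ∈ I, (δ ^ n) x ∈ I * I := by
    intro x hx
    induction hx using Submodule.span_induction with
    | mem _ hr =>
      obtain ⟨g, rfl⟩ := hr
      simpa [hn] using hδgen n g
    | zero => simp
    | add a b _ _ ha hb => rw [map_add]; exact add_mem ha hb
    | smul c a _ ha => rw [map_smul]; exact Submodule.smul_mem _ c ha
  have hcomm : ∀ (q : ℕ) (w : R), (δ ^ q) (Θ w) = Θ ((δ ^ q) w) := by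
    intro q w
    induction q with
    | zero => rfl
    | succ q ih => rw [pow_succ', Module.End.mul_apply, Module.End.mul_apply, ih, hδa, hδa, map_sub]
  have hstep : ∀ i m p q : ℕ, p + q = m → ∀ x ∈ I, ∀ w ∈ J i, (δ ^ p) x ∈ I * I →
      (δ ^ q) w ∈ J (i + 1) → (δ ^ m) (x * w) ∈ J (i + 2) := by
    intro i m
    have base : ∀ m p q : ℕ, p = 0 ∨ q = 0 → ∀ x ∈ I, ∀ w ∈ J i, (δ ^ p) x ∈ I * I →
        (δ ^ q) w ∈ J (i + 1) → (δ ^ m) (x * w) ∈ J (i + 2) := by
      intro m p q hpq x hx w hw h1 h2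
      refine hδpow _ (hΘJ (i + 2)) m _ ?_
      rcases hpq with rfl | rfl
      · change x * w ∈ I * (I * J i)
        rw [← mul_assoc]
        exact Submodule.mul_mem_mul h1 hw
      · exact Submodule.mul_mem_mul hx h2
    induction m with
    | zero => intro p q hpq; exact base 0 p q (by omega)
    | succ m ih =>
      intro p q hpq x hx w hw h1 h2
      rcases p with - | p
      · exact base _ 0 q (Or.inl rfl) x hx w hw h1 h2
      rcases q with - | q
      · exact base _ _ 0 (Or.inr rfl) x hx w hw h1 h2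
      have e : δ (x * w) = δ x * Θ w + x * δ w := by
        simp only [hδa, map_mul]; noncomm_ring
      rw [pow_succ, Module.End.mul_apply, e, map_add]
      refine add_mem (ih p (q + 1) (by omega) _ ?_ _ (hΘJ i w hw) ?_ ?_)
        (ih (p + 1) q (by omega) x hx _ ?_ h1 ?_)
      · exact I.sub_mem (hΘI x hx) hx
      · rwa [pow_succ, Module.End.mul_apply] at h1
      · rw [hcomm]; exact hΘJ (i + 1) _ h2
      · exact (J i).sub_mem (hΘJ i w hw) hw
      · rwa [pow_succ, Module.End.mul_apply] at h2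
  have hex : ∀ i, ∃ k : ℕ, ∀ v ∈ J i, (δ ^ k) v ∈ J (i + 1) := by
    intro i
    induction i with
    | zero =>
      refine ⟨1, fun r _ => hI1 _ ?_⟩
      have hr : r ∈ Submodule.span ℚ (Set.range ρ) := hspan ▸ Submodule.mem_top
      rw [pow_one]
      induction hr using Submodule.span_induction with
      | mem _ hr =>
        obtain ⟨g, rfl⟩ := hr
        have := I.sub_mem (hgen (θ g)) (hgen g)
        simpa [hδa, hΘ] using this
      | zero => simp
      | add a b _ _ ha hb =>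
        rw [map_add]; exact I.add_mem (ha Submodule.mem_top) (hb Submodule.mem_top)
      | smul c a _ ha => rw [map_smul]; exact I.smul_mem c (ha Submodule.mem_top)
    | succ i ih =>
      obtain ⟨k, hk⟩ := ih
      refine ⟨n + k, fun v hv => ?_⟩
      refine Submodule.mul_induction_on hv (fun y hy w hw => ?_) fun a b ha hb => ?_
      · exact hstep i _ n k rfl y hy w hw (hδn y hy) (hk w hw)
      · rw [map_add]; exact add_mem ha hb
  choose k hk using hex
  refine ⟨J, ∑ i ∈ Finset.range s, k i, hanti, J0, hJs,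
    fun i v hv x hx => ⟨Submodule.mul_mem_mul hx hv, hright i v hv x hx⟩, hΘJ, fun i v hv => ?_⟩
  rcases lt_or_ge i s with hi | hi
  · have hle : k i ≤ ∑ i ∈ Finset.range s, k i :=
      Finset.single_le_sum (fun _ _ => Nat.zero_le _) (Finset.mem_range.2 hi)
    obtain ⟨c, hc⟩ := Nat.exists_eq_add_of_le' hle
    rw [hc, pow_add, Module.End.mul_apply]
    exact hδpow _ (hΘJ (i + 1)) c _ (hk i v hv)
  · have : v ∈ J s := hanti hi hv
    rw [hJs, Submodule.mem_bot] at this
    simp [this]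

end Pool.Agent.MP_f21dda_al.H92

end

-- part MP_f21dda_al.H92.Ext
section

/-!
Extending unipotent representations along an Engel element.
-/

namespace Pool.Agent.MP_f21dda_al.H92

theorem ext_iota_zpow {N H : Type*} [Group N] [Group H] (ι : N →* H) (y : H) (θ : MulAut N)
    (hθ : ∀ x, ι (θ x) = y * ι x * y⁻¹) (j : ℤ) (x : N) :
    ι ((θ ^ j) x) = y ^ j * ι x * (y ^ j)⁻¹ := by
  have hinv : ∀ x, ι (θ⁻¹ x) = y⁻¹ * ι x * y := fun x => by
    have h := hθ (θ⁻¹ x)
    rw [MulAut.apply_inv_self] at h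
    rw [h]; group
  induction j using Int.induction_on generalizing x with
  | zero => simp
  | succ i ih =>
    rw [zpow_add_one, MulAut.mul_apply, ih, hθ, zpow_add_one]; group
  | pred i ih =>
    rw [zpow_sub_one, MulAut.mul_apply, ih, hinv, zpow_sub_one]; group

theorem ext_Theta_zpow {N R : Type*} [Group N] [Ring R] [Algebra ℚ R] (ρ : N →* R) (θ : MulAut N)
    (Θ : R ≃ₐ[ℚ] R) (hΘ : ∀ x, Θ (ρ x) = ρ (θ x)) (j : ℤ) (x : N) :
    (Θ ^ j) (ρ x) = ρ ((θ ^ j) x) := by
  have hinv : ∀ x, (Θ⁻¹ : R ≃ₐ[ℚ] R) (ρ x) = ρ (θ⁻¹ x) := fun x => by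
    apply Θ.injective
    rw [hΘ, MulAut.apply_inv_self, ← AlgEquiv.mul_apply, mul_inv_cancel, AlgEquiv.one_apply]
  induction j using Int.induction_on generalizing x with
  | zero => simp
  | succ i ih =>
    rw [zpow_add_one, AlgEquiv.mul_apply, hΘ, ih, zpow_add_one, MulAut.mul_apply]
  | pred i ih =>
    rw [zpow_sub_one, AlgEquiv.mul_apply, hinv, ih, zpow_sub_one, MulAut.mul_apply]

theorem ext_Theta_fix {R : Type*} [Ring R] [Algebra ℚ R] (Θ : R ≃ₐ[ℚ] R) (a : R) (h : Θ a = a)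
    (j : ℤ) : (Θ ^ j) a = a := by
  have hinv : (Θ⁻¹ : R ≃ₐ[ℚ] R) a = a := by
    apply Θ.injective
    rw [h, ← AlgEquiv.mul_apply, mul_inv_cancel, AlgEquiv.one_apply]
  induction j using Int.induction_on with
  | zero => simp
  | succ i ih => rw [zpow_add_one, AlgEquiv.mul_apply, h, ih]
  | pred i ih => rw [zpow_sub_one, AlgEquiv.mul_apply, hinv, ih]

theorem ext_Theta_unit {R : Type*} [Ring R] [Algebra ℚ R] (Θ : R ≃ₐ[ℚ] R) (U : Rˣ)
    (h : Θ (U : R) = U) (j i : ℤ) : (Θ ^ j) ((U ^ i : Rˣ) : R) = (U ^ i : Rˣ) := by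
  apply ext_Theta_fix
  have h1 : Units.map (Θ : R →* R) U = U := Units.ext h
  have h2 : Units.map (Θ : R →* R) (U ^ i) = U ^ i := by rw [map_zpow, h1]
  exact congrArg Units.val h2

theorem ext_exists_root {N H R : Type} [Group N] [Group H] [Ring R] [Algebra ℚ R] (ι : N →* H)
    (hι : Function.Injective ι) (y : H) (θ : MulAut N) (hθ : ∀ x, ι (θ x) = y * ι x * y⁻¹)
    (ρ : N →* R) (s : ℕ) (h : Unip ρ s) (Θ : R ≃ₐ[ℚ] R) (hΘ : ∀ x, Θ (ρ x) = ρ (θ x)) :
    ∃ U : Rˣ, Θ (U : R) = U ∧ (U : R) - 1 ∈ aug ρ ∧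
      ∀ (j : ℤ) (x : N), y ^ j = ι x → ((U ^ j : Rˣ) : R) = ρ x := by
  let S : AddSubgroup ℤ :=
    { carrier := {j | y ^ j ∈ ι.range}
      zero_mem' := ⟨1, by simp⟩
      add_mem' := fun {a b} ha hb => by
        simp only [Set.mem_ofPred_eq, zpow_add] at *
        exact mul_mem ha hb
      neg_mem' := fun {a} ha => by
        simp only [Set.mem_ofPred_eq, zpow_neg] at *
        exact inv_mem ha }
  obtain ⟨a, ha⟩ := Int.subgroup_cyclic S
  have hmem : ∀ j : ℤ, y ^ j ∈ ι.range ↔ a ∣ j := fun j => by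
    have : j ∈ S ↔ a ∣ j := by
      rw [ha, AddSubgroup.mem_closure_singleton]
      constructor
      · rintro ⟨m, rfl⟩
        exact ⟨m, by rw [smul_eq_mul, mul_comm]⟩
      · rintro ⟨m, rfl⟩
        exact ⟨m, by rw [smul_eq_mul, mul_comm]⟩
    exact this
  by_cases ha0 : a = 0
  · refine ⟨1, by simp, by simp, fun j x hj => ?_⟩
    have h1 : a ∣ j := (hmem j).1 ⟨x, hj.symm⟩
    rw [ha0, zero_dvd_iff] at h1
    rw [h1, zpow_zero] at hj
    have h2 : x = 1 := hι (by rw [← hj, map_one])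
    simp [h2]
  · obtain ⟨x₀, hx₀⟩ := (hmem (a.natAbs : ℤ)).2 (Int.dvd_natAbs.2 dvd_rfl)
    set e := a.natAbs with he
    have he0 : (e : ℚ) ≠ 0 := by
      have : e ≠ 0 := Int.natAbs_ne_zero.2 ha0
      exact_mod_cast this
    have hfix : θ x₀ = x₀ := hι (by rw [hθ, hx₀]; group)
    have haug : ρ x₀ - 1 ∈ aug ρ := Submodule.subset_span ⟨x₀, rfl⟩
    have hnil : (ρ x₀ - 1) ^ s = 0 := h.pow_eq_zero haug
    have hL : IsNilpotent (lg s (ρ x₀)) := ⟨s, lg_pow_eq_zero hnil⟩
    have hw : IsNilpotent ((e : ℚ)⁻¹ • lg s (ρ x₀)) := hL.smul _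
    have hLm : lg s (ρ x₀) ∈ aug ρ := lg_mem s _ _ (aug_mul ρ) haug
    obtain ⟨U, hU⟩ := hw.isUnit_exp
    have hpow : (U : R) ^ e = ρ x₀ := by
      rw [hU, ← exp_nsmul hw, smul_smul, mul_inv_cancel₀ he0, one_smul, exp_lg hnil]
    refine ⟨U, ?_, ?_, fun j x hj => ?_⟩
    · rw [hU, hw.map_exp Θ, map_smul]
      have : Θ (lg s (ρ x₀)) = lg s (ρ x₀) := by
        have h1 := map_lg (Θ : R →+* R) s (ρ x₀)
        simp only [RingHom.coe_coe] at h1
        rw [h1, hΘ, hfix]
      rw [this]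
    · rw [hU]
      exact exp_sub_one_mem hw _ (aug_mul ρ) (Submodule.smul_mem _ _ hLm)
    · obtain ⟨m, hm⟩ : (e : ℤ) ∣ j := Int.natAbs_dvd.2 ((hmem j).1 ⟨x, hj.symm⟩)
      have h1 : x = x₀ ^ m := hι (by rw [← hj, map_zpow, hx₀, hm, zpow_mul])
      have h2 : U ^ (e : ℤ) = ρ.toHomUnits x₀ := Units.ext (by
        rw [zpow_natCast, Units.val_pow_eq_pow_val, hpow]; rfl)
      rw [hm, zpow_mul, h2, ← map_zpow, h1]
      rfl

/-- The operator `v ↦ ρ x * Θ ^ j v * U ^ j`. -/
def extOp {N R : Type*} [Group N] [Ring R] [Algebra ℚ R] (ρ : N →* R) (Θ : R ≃ₐ[ℚ] R) (U : Rˣ)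
    (x : N) (j : ℤ) : Module.End ℚ R where
  toFun v := ρ x * (Θ ^ j) v * ((U ^ j : Rˣ) : R)
  map_add' a b := by rw [map_add, mul_add, add_mul]
  map_smul' c a := by simp

theorem extOp_apply {N R : Type*} [Group N] [Ring R] [Algebra ℚ R] (ρ : N →* R) (Θ : R ≃ₐ[ℚ] R)
    (U : Rˣ) (x : N) (j : ℤ) (v : R) :
    extOp ρ Θ U x j v = ρ x * (Θ ^ j) v * ((U ^ j : Rˣ) : R) := rfl

theorem extOp_mul {N R : Type*} [Group N] [Ring R] [Algebra ℚ R] (ρ : N →* R) (θ : MulAut N)
    (Θ : R ≃ₐ[ℚ] R) (hΘ : ∀ x, Θ (ρ x) = ρ (θ x)) (U : Rˣ) (hU : Θ (U : R) = U) (x x' : N)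
    (j j' : ℤ) :
    extOp ρ Θ U x j * extOp ρ Θ U x' j' = extOp ρ Θ U (x * (θ ^ j) x') (j + j') := by
  ext v
  rw [Module.End.mul_apply, extOp_apply, extOp_apply, extOp_apply, map_mul, map_mul,
    ext_Theta_zpow ρ θ Θ hΘ, ext_Theta_unit Θ U hU, map_mul, zpow_add Θ, AlgEquiv.mul_apply,
    add_comm j j', zpow_add U, Units.val_mul]
  simp only [mul_assoc]

theorem ext_exists_rep {N H R : Type} [Group N] [Group H] [Ring R] [Algebra ℚ R] (ι : N →* H)
    (hι : Function.Injective ι) (y : H) (θ : MulAut N) (hθ : ∀ x, ι (θ x) = y * ι x * y⁻¹)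
    (hgen : ∀ h, ∃ (x : N) (j : ℤ), h = ι x * y ^ j) (ρ : N →* R)
    (hspan : Submodule.span ℚ (Set.range ρ) = ⊤) (Θ : R ≃ₐ[ℚ] R) (hΘ : ∀ x, Θ (ρ x) = ρ (θ x))
    (U : Rˣ) (hU : Θ (U : R) = U)
    (hroot : ∀ (j : ℤ) (x : N), y ^ j = ι x → ((U ^ j : Rˣ) : R) = ρ x) :
    ∃ σ : H →* Module.End ℚ R, (∀ x v, σ (ι x) v = ρ x * v) ∧ ∀ v, σ y v = Θ v * U := by
  have hone : ∀ (x : N) (j : ℤ), ι x * y ^ j = 1 → extOp ρ Θ U x j = 1 := fun x j hxj => by
    have h1 : y ^ j = ι x⁻¹ := by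
      rw [map_inv]; exact eq_inv_of_mul_eq_one_right hxj
    have h2 := hroot j _ h1
    apply LinearMap.ext_on_range hspan
    intro z
    have h3 : (θ ^ j) z = x⁻¹ * z * x := hι (by
      rw [ext_iota_zpow ι y θ hθ, h1, map_mul, map_mul, map_inv, inv_inv])
    rw [extOp_apply, ext_Theta_zpow ρ θ Θ hΘ, h2, h3, ← map_mul, ← map_mul, Module.End.one_apply]
    congr 1
    group
  have hmul : ∀ (x x' : N) (j j' : ℤ),
      ι (x * (θ ^ j) x') * y ^ (j + j') = ι x * y ^ j * (ι x' * y ^ j') :=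
    fun x x' j j' => by
      rw [map_mul, ext_iota_zpow ι y θ hθ, zpow_add]; group
  have hwd : ∀ (x x' : N) (j j' : ℤ),
      ι x * y ^ j = ι x' * y ^ j' → extOp ρ Θ U x j = extOp ρ Θ U x' j' := by
    intro x x' j j' hx
    obtain ⟨z, i, hz⟩ := hgen (ι x * y ^ j)⁻¹
    have h1 : extOp ρ Θ U z i * extOp ρ Θ U x j = 1 := by
      rw [extOp_mul ρ θ Θ hΘ U hU]
      apply hone
      rw [hmul, ← hz, inv_mul_cancel]
    have h2 : extOp ρ Θ U x' j' * extOp ρ Θ U z i = 1 := by
      rw [extOp_mul ρ θ Θ hΘ U hU]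
      apply hone
      rw [hmul, ← hz, ← hx, mul_inv_cancel]
    calc extOp ρ Θ U x j = (extOp ρ Θ U x' j' * extOp ρ Θ U z i) * extOp ρ Θ U x j := by
          rw [h2, one_mul]
      _ = extOp ρ Θ U x' j' := by rw [mul_assoc, h1, mul_one]
  choose fx fj hf using hgen
  let σ : H →* Module.End ℚ R :=
    { toFun := fun h => extOp ρ Θ U (fx h) (fj h)
      map_one' := hone _ _ (hf 1).symm
      map_mul' := fun a b => by
        rw [extOp_mul ρ θ Θ hΘ U hU]
        apply hwd
        rw [hmul, ← hf, ← hf, ← hf] }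
  refine ⟨σ, fun x v => ?_, fun v => ?_⟩
  · have h1 : σ (ι x) = extOp ρ Θ U x 0 := hwd _ _ _ _ (by rw [← hf, zpow_zero, mul_one])
    rw [h1, extOp_apply]
    simp
  · have h1 : σ y = extOp ρ Θ U 1 1 := hwd _ _ _ _ (by rw [← hf, zpow_one, map_one, one_mul])
    rw [h1, extOp_apply]
    simp

theorem ext_pow_congr {V : Type*} [AddCommGroup V] [Module ℚ V] (A B : Module.End ℚ V)
    (P Q : Submodule ℚ V) (hA : ∀ v ∈ Q, A v ∈ Q) (hB : ∀ v ∈ P, B v ∈ P)
    (hAB : ∀ v ∈ P, A v - B v ∈ Q) (l : ℕ) (v : V) (hv : v ∈ P) :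
    (B ^ l) v ∈ P ∧ (A ^ l) v - (B ^ l) v ∈ Q := by
  induction l with
  | zero => simp [hv]
  | succ l ih =>
    rw [pow_succ', pow_succ', Module.End.mul_apply, Module.End.mul_apply]
    refine ⟨hB _ ih.1, ?_⟩
    have h1 := Q.add_mem (hA _ ih.2) (hAB _ ih.1)
    rwa [map_sub, sub_add_sub_cancel] at h1

theorem ext_pow_mem {V : Type*} [AddCommGroup V] [Module ℚ V] (δ : Module.End ℚ V)
    (J : ℕ → Submodule ℚ V) (K : ℕ) (h1 : ∀ i, ∀ v ∈ J i, δ v ∈ J i)
    (h2 : ∀ i, ∀ v ∈ J i, (δ ^ K) v ∈ J (i + 1)) (a l i : ℕ) (hl : a * K ≤ l) (v : V)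
    (hv : v ∈ J i) : (δ ^ l) v ∈ J (i + a) := by
  have h3 : ∀ (b i : ℕ), ∀ v ∈ J i, (δ ^ b) v ∈ J i := fun b i v hv => by
    induction b with
    | zero => simpa using hv
    | succ b ih => rw [pow_succ', Module.End.mul_apply]; exact h1 _ _ ih
  have h4 : ∀ a : ℕ, (δ ^ (a * K)) v ∈ J (i + a) := fun a => by
    induction a with
    | zero => simpa using hv
    | succ a ih =>
      rw [add_mul, one_mul, add_comm (a * K), pow_add, Module.End.mul_apply, ← add_assoc]
      exact h2 _ _ ih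
  obtain ⟨b, rfl⟩ := Nat.exists_eq_add_of_le' hl
  rw [pow_add, Module.End.mul_apply]
  exact h3 _ _ _ (h4 a)

/- PROOF.  Given a model `(R, ρ, s)` of `N`, replace it by `exists_twisted`.  The `j : ℤ` with
`y ^ j ∈ range ι` form a subgroup `e ℤ` (`Int.subgroup_cyclic`); if `e = 0` put `u = 1`, else
`y ^ e = ι x₀`, `θ x₀ = x₀`, `u = exp (e⁻¹ • lg s (ρ x₀))`, so `u ^ e = ρ x₀`, `Θ u = u`, `u - 1 ∈ aug ρ`,
`u` is a unit.  If `y ^ j = ι x` then `u ^ j = ρ x` and `Θ ^ j` is conjugation by `ρ x`.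
`op (x, j) v = ρ x * (Θ ^ j) v * u ^ j` is a hom from `N ⋊[zpowersHom θ] Multiplicative ℤ` to the
group of linear automorphisms of `R`, trivial on the kernel of the surjection
`(x, j) ↦ ι x * y ^ j` onto `H`; so it factors through `σ : H →* Module.End ℚ R`.  With
`τ = σ y`, `τ v ≡ Θ v` modulo `J (i + 1)` for `v ∈ J i`; the chain
`W (i * k + l) = (τ - 1) ^ l (J i) ⊔ J (i + 1)`, `l < k` (take `k ≥ 1`), satisfies `unip_of_chain` for
`S = range ι ∪ {y}`.  So `σ (ι q) = 1` and `ρ q = σ (ι q) 1 = 1`. -/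
theorem dinf_step {N H : Type} [Group N] [Group H] (ι : N →* H) (hι : Function.Injective ι) (y : H)
    (θ : MulAut N) (hθ : ∀ x, ι (θ x) = y * ι x * y⁻¹) (hgen : ∀ h, ∃ (x : N) (j : ℤ), h = ι x * y ^ j)
    (n : ℕ) (hn : ∀ x, (fun x => x⁻¹ * θ x)^[n] x = 1) (q : N) (hq : ι q ∈ Dinf H) : q ∈ Dinf N := by
  intro R₀ _ _ ρ₀ s h₀
  obtain ⟨R, _, _, ρ, Θ, h, hspan, hΘ, hback⟩ := exists_twisted ρ₀ s h₀ θ
  apply hback
  obtain ⟨U, hU, hUa, hroot⟩ := ext_exists_root ι hι y θ hθ ρ s h Θ hΘ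
  obtain ⟨σ, hσι, hσy⟩ := ext_exists_rep ι hι y θ hθ hgen ρ hspan Θ hΘ U hU hroot
  obtain ⟨J, k, hanti, hJ0, hJs, hJmul, hJΘ, hJk⟩ := exists_filtration ρ s h hspan θ Θ hΘ n hn
  set δ : Module.End ℚ R := σ y - 1 with hδ
  have hdiff : ∀ i, ∀ v ∈ J i, δ v - (Θ.toLinearMap - 1 : Module.End ℚ R) v ∈ J (i + 1) := by
    intro i v hv
    have e : δ v - (Θ.toLinearMap - 1 : Module.End ℚ R) v = Θ v * ((U : R) - 1) := by
      simp only [hδ, LinearMap.sub_apply, Module.End.one_apply, hσy, AlgEquiv.toLinearMap_apply]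
      rw [mul_sub, mul_one]; abel
    rw [e]
    exact (hJmul i _ (hJΘ i v hv) _ hUa).2
  have hΘ1 : ∀ i, ∀ v ∈ J i, (Θ.toLinearMap - 1 : Module.End ℚ R) v ∈ J i := fun i v hv =>
    (J i).sub_mem (hJΘ i v hv) hv
  have hδ1 : ∀ i, ∀ v ∈ J i, δ v ∈ J i := fun i v hv => by
    have h1 := (J i).add_mem (hanti (Nat.le_succ i) (hdiff i v hv)) (hΘ1 i v hv)
    rwa [sub_add_cancel] at h1
  have hδ2 : ∀ i, ∀ v ∈ J i, (δ ^ (k + 1)) v ∈ J (i + 1) := fun i v hv => by
    have h1 := (ext_pow_congr δ (Θ.toLinearMap - 1) (J i) (J (i + 1)) (hδ1 _) (hΘ1 i) (hdiff i)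
      k v hv).2
    have h2 := (J (i + 1)).add_mem h1 (hJk i v hv)
    rw [sub_add_cancel] at h2
    rw [pow_succ', Module.End.mul_apply]
    exact hδ1 _ _ h2
  let W : ℕ → Submodule ℚ R := fun m =>
    Submodule.span ℚ {w | ∃ i l, ∃ v ∈ J i, m ≤ i * (k + 1) + l ∧ w = (δ ^ l) v}
  have hunip : Unip σ (s * (k + 1)) := by
    refine unip_of_chain σ (Set.range ι ∪ {y}) ?_ W ?_ ?_ _ ?_ ?_
    · rw [eq_top_iff]
      intro g _
      obtain ⟨x, j, rfl⟩ := hgen g
      have hy : y ∈ Subgroup.closure (Set.range ι ∪ {y}) := Subgroup.subset_closure (Or.inr rfl)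
      exact mul_mem (Subgroup.subset_closure (Or.inl ⟨x, rfl⟩)) (Subgroup.zpow_mem _ hy j)
    · intro a b hab
      apply Submodule.span_mono
      rintro w ⟨i, l, v, hv, hm, rfl⟩
      exact ⟨i, l, v, hv, hab.trans hm, rfl⟩
    · rw [eq_top_iff]
      intro v _
      exact Submodule.subset_span ⟨0, 0, v, by rw [hJ0]; trivial, le_rfl.trans (Nat.zero_le _),
        by simp⟩
    · rw [eq_bot_iff, Submodule.span_le]
      rintro w ⟨i, l, v, hv, hm, rfl⟩
      have h1 : (s - i) * (k + 1) ≤ l := by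
        rw [Nat.sub_mul]; omega
      have h2 := ext_pow_mem δ J (k + 1) hδ1 hδ2 (s - i) l i h1 v hv
      have h3 := hanti (show s ≤ i + (s - i) by omega) h2
      rwa [hJs] at h3
    · intro g hg m v hv
      have key : W m ≤ (W (m + 1)).comap (σ g - 1) := by
        apply Submodule.span_le.2
        rintro w ⟨i, l, v, hv, hm, rfl⟩
        rcases hg with ⟨x, rfl⟩ | hg
        · have h2 := ext_pow_mem δ J (k + 1) hδ1 hδ2 (l / (k + 1)) l i (Nat.div_mul_le_self _ _) v hv
          have h3 := (hJmul _ _ h2 _ (Submodule.subset_span ⟨x, rfl⟩ : ρ x - 1 ∈ aug ρ)).1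
          refine Submodule.subset_span ⟨_, 0, _, h3, ?_, ?_⟩
          · have h4 := Nat.lt_div_mul_add (a := l) (Nat.succ_pos k)
            rw [add_mul, add_mul, one_mul]
            simp only [Nat.succ_eq_add_one] at h4
            omega
          · simp only [LinearMap.sub_apply, Module.End.one_apply, hσι, pow_zero, sub_mul, one_mul]
        · rw [Set.mem_singleton_iff] at hg
          refine Submodule.subset_span ⟨i, l + 1, v, hv, by omega, ?_⟩
          rw [pow_succ', Module.End.mul_apply, hg]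
      exact key hv
  have h1 := hq (Module.End ℚ R) σ _ hunip
  have h2 := hσι q 1
  rw [h1, Module.End.one_apply, mul_one] at h2
  exact h2.symm

end Pool.Agent.MP_f21dda_al.H92

end

-- part MP_f21dda_al.H92.Main
section

/-!
Left-orderable groups generated by finitely many bounded Engel elements are nilpotent.
-/

namespace Pool.Agent.MP_f21dda_al.H92

theorem map_mem_Dinf {G H : Type} [Group G] [Group H] (φ : G →* H) {g : G} (hg : g ∈ Dinf G) :
    φ g ∈ Dinf H := by
  intro R _ _ ρ s h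
  refine hg R (ρ.comp φ) s fun l hl => ?_
  have := h (l.map φ) (by simpa using hl)
  simpa [List.map_map, Function.comp_def] using this

instance Dinf_normal (G : Type) [Group G] : (Dinf G).Normal :=
  ⟨fun q hq g R _ _ ρ s h => by
    rw [map_mul, map_mul, hq R ρ s h, mul_one, ← map_mul, mul_inv_cancel, map_one]⟩

theorem real_eq_one {G : Type} [Group G] (τ : G →* Multiplicative ℝ) {q : G} (hq : q ∈ Dinf G) :
    τ q = 1 := by
  let ρ : G →* TrivSqZeroExt ℝ ℝ :=
    { toFun := fun g => 1 + TrivSqZeroExt.inr (Multiplicative.toAdd (τ g))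
      map_one' := by simp
      map_mul' := fun a b => by
        simp only [map_mul, toAdd_mul, TrivSqZeroExt.inr_add, mul_add, add_mul, one_mul, mul_one,
          TrivSqZeroExt.inr_mul_inr]
        abel }
  have h := hq (TrivSqZeroExt ℝ ℝ) ρ 2 (fun l hl => by
    match l, hl with
    | [a, b], _ => simp [ρ])
  have h2 := congrArg TrivSqZeroExt.snd h
  simpa [ρ] using h2

theorem eng_iter_coe {K : Type*} [Group K] (T : Subgroup K) (f x : T) (n : ℕ) :
    (((eng f)^[n] x : T) : K) = (eng (f : K))^[n] x := by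
  induction n with
  | zero => rfl
  | succ n ih => rw [Function.iterate_succ_apply', Function.iterate_succ_apply', ← ih]; rfl

theorem dinf_down {K : Type} [Group K] {n : ℕ} (T : Subgroup K) (y : K) (hy : IsEng n y)
    (hT : ∀ x ∈ T, y * x * y⁻¹ ∈ T ∧ y⁻¹ * x * y ∈ T) (q : K) (hq : q ∈ T)
    (h : (⟨q, Subgroup.mem_sup_left hq⟩ : ↥(T ⊔ Subgroup.zpowers y)) ∈
      Dinf ↥(T ⊔ Subgroup.zpowers y)) : (⟨q, hq⟩ : T) ∈ Dinf T := by
  let θ : MulAut T :=
    { toFun := fun x => ⟨y * x * y⁻¹, (hT x x.2).1⟩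
      invFun := fun x => ⟨y⁻¹ * x * y, (hT x x.2).2⟩
      left_inv := fun x => Subtype.ext (by simp [mul_assoc])
      right_inv := fun x => Subtype.ext (by simp [mul_assoc])
      map_mul' := fun a b => Subtype.ext (by simp [mul_assoc]) }
  refine dinf_step (Subgroup.inclusion (le_sup_left : T ≤ T ⊔ Subgroup.zpowers y))
    (Subgroup.inclusion_injective _) ⟨y, Subgroup.mem_sup_right (Subgroup.mem_zpowers y)⟩ θ
    (fun x => rfl) (fun g => ?_) n (fun x => ?_) _ h
  · obtain ⟨x, hx, j, hj⟩ := mem_sup_zpowers T y hT g g.2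
    exact ⟨⟨x, hx⟩, j, Subtype.ext (by simpa using hj)⟩
  · have : ∀ k : ℕ, (((fun x => x⁻¹ * θ x)^[k] x : T) : K) = (eng y)^[k] x := by
      intro k
      induction k with
      | zero => rfl
      | succ k ih => rw [Function.iterate_succ_apply', Function.iterate_succ_apply', ← ih]; rfl
    exact Subtype.ext ((this n).trans (hy x))

theorem nilpotent_bound (r n : ℕ) : ∃ c : ℕ, ∀ (K : Type) [Group K] (y : Fin r → K),
    Subgroup.closure (Set.range y) = ⊤ → (∀ i, IsEng n (y i)) →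
      ∀ P : K → Prop, (∀ a b, P a → P b → P (a * b)) → (∀ a, P a ∨ P a⁻¹) →
        (∀ a, P a → P a⁻¹ → a = 1) → (⊤ : Subgroup K).lowerCentralSeries c = ⊥ := by
  obtain ⟨c, hc⟩ := class_bound r n
  refine ⟨c, fun K _ y hy hn P hmul htot hanti => ?_⟩
  have hgen' : Subgroup.closure (Set.range fun i => (y i)⁻¹) = ⊤ := by
    rw [eq_top_iff, ← hy, Subgroup.closure_le]
    rintro _ ⟨i, rfl⟩
    exact (inv_mem_iff (x := y i)).1 (Subgroup.subset_closure ⟨i, rfl⟩)
  have hQ := hc K _ hgen' fun i => (hn i).isEngT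
  have hK : Group.FG K := ⟨(Subgroup.fg_iff _).2 ⟨_, hy, Set.finite_range y⟩⟩
  have hO : ∀ x ∈ {f : K | IsEng n f}, ∀ g, g * x * g⁻¹ ∈ {f : K | IsEng n f} :=
    fun x hx g => IsEng.conj hx g
  have hgen : Subgroup.closure {f : K | IsEng n f} = ⊤ := by
    rw [eq_top_iff, ← hy]
    exact Subgroup.closure_mono (by rintro _ ⟨i, rfl⟩; exact hn i)
  have hfg : (Dinf K).FG :=
    chain_ind hK _ hO hgen (Dinf K) c hQ (fun T => T.FG) hK.out
      fun T z hz _ hT h => fg_step T z hz hT h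
  have hperf : ∀ q ∈ Dinf K, ∀ hq : q ∈ Dinf K, (⟨q, hq⟩ : Dinf K) ∈ Dinf (Dinf K) :=
    chain_ind hK _ hO hgen (Dinf K) c hQ
      (fun T => ∀ q ∈ Dinf K, ∀ hq : q ∈ T, (⟨q, hq⟩ : T) ∈ Dinf T)
      (fun q hq _ => map_mem_Dinf (Subgroup.topEquiv.symm : K ≃* (⊤ : Subgroup K)).toMonoidHom hq)
      fun T z hz _ hT h q hq hqT => dinf_down T z hz hT q hqT (h q hq _)
  rw [eq_bot_iff]
  refine hQ.trans fun q hq => ?_
  by_contra hq1
  rw [Subgroup.mem_bot] at hq1
  let C : LCone (Dinf K) :=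
    { P := fun a => P a
      mul := fun a b ha hb => hmul a b ha hb
      total := fun a => htot a
      proper := by
        by_cases h : P q
        · exact ⟨⟨q, hq⟩⁻¹, fun h' => hq1 (hanti q h h')⟩
        · exact ⟨⟨q, hq⟩, h⟩ }
  obtain ⟨τ, p, hp⟩ := exists_real n hgen (Dinf K) ((Group.fg_iff_subgroup_fg _).2 hfg) c hQ C
  exact hp (real_eq_one τ (hperf p p.2 p.2))

/-- Elements of the subgroup generated by two bounded Engel elements are bounded Engel. -/
theorem isEng_of_mem_closure {G : Type} [Group G] (P : G → Prop)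
    (hmul : ∀ a b, P a → P b → P (a * b)) (htot : ∀ a, P a ∨ P a⁻¹)
    (hanti : ∀ a, P a → P a⁻¹ → a = 1) {n : ℕ} {a b : G} (ha : IsEng n a) (hb : IsEng n b) {f : G}
    (hf : f ∈ Subgroup.closure {a, b}) : ∃ m, IsEng m f := by
  obtain ⟨c, hc⟩ := nilpotent_bound 4 n
  refine ⟨c + 1, fun x => ?_⟩
  let y : Fin 4 → G := ![a, b, x⁻¹ * a * x⁻¹⁻¹, x⁻¹ * b * x⁻¹⁻¹]
  have hy : ∀ i, IsEng n (y i) := by
    intro i
    fin_cases i
    · exact ha
    · exact hb
    · exact ha.conj x⁻¹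
    · exact hb.conj x⁻¹
  let K := Subgroup.closure (Set.range y)
  have hyK : ∀ i, y i ∈ K := fun i => Subgroup.subset_closure ⟨i, rfl⟩
  have hbot := hc K (fun i => ⟨y i, hyK i⟩) (by
      rw [← Subgroup.closure_closure_coe_preimage (k := Set.range y)]
      congr 1
      ext z
      simp only [Set.mem_range, Set.mem_preimage, Subtype.ext_iff])
    (fun i z => Subtype.ext (by rw [eng_iter_coe]; exact hy i z))
    (fun z => P z) (fun u v => hmul u v) (fun u => htot u)
    (fun u h h' => Subtype.ext (hanti u h h'))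
  have hfK : f ∈ K ∧ x⁻¹ * f * x ∈ K := by
    induction hf using Subgroup.closure_induction with
    | mem z hz =>
      rcases hz with rfl | rfl
      · exact ⟨hyK 0, by simpa [y] using hyK 2⟩
      · exact ⟨hyK 1, by simpa [y] using hyK 3⟩
    | one => simp
    | mul u v _ _ hu hv =>
      refine ⟨mul_mem hu.1 hv.1, ?_⟩
      have := mul_mem hu.2 hv.2
      simpa [mul_assoc] using this
    | inv u _ hu =>
      refine ⟨inv_mem hu.1, ?_⟩
      have := inv_mem hu.2
      simpa [mul_assoc] using this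
  have hx : eng f x ∈ K := by
    have := mul_mem hfK.2 (inv_mem hfK.1)
    simpa [eng, mul_assoc] using this
  have key : ∀ (j : ℕ) (z : K), (eng (⟨f, hfK.1⟩ : K))^[j] z ∈
      (⊤ : Subgroup K).lowerCentralSeries j := by
    intro j z
    induction j with
    | zero => exact Subgroup.mem_top _
    | succ j ih =>
      rw [Function.iterate_succ_apply', Subgroup.lowerCentralSeries_succ]
      have := Subgroup.commutator_mem_commutator (inv_mem ih) (Subgroup.mem_top (⟨f, hfK.1⟩ : K))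
      simpa [commutatorElement_def, eng, mul_assoc] using this
  have := key c ⟨_, hx⟩
  rw [hbot, Subgroup.mem_bot] at this
  have h2 := congrArg Subtype.val this
  rw [eng_iter_coe] at h2
  rw [Function.iterate_succ_apply]
  exact h2

end Pool.Agent.MP_f21dda_al.H92

end
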