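import Mathlib
import Pool.Agent.MP_f36ac3_al.Mg.Indicable

-- part MP_f21dda_al.H92.Defs
section

/-!
Definitions used in the proof that the boundedly Engel elements of a right-ordered group form a
subgroup.
-/

namespace Pool.Agent.MP_f21dda_al.H92

open Polynomial

/-- One Engel step. -/
def eng {G : Type*} [Group G] (f x : G) : G := x⁻¹ * (f * x * f⁻¹)

/-- `f⁻¹` is a left `n`-Engel element. -/
def IsEng {G : Type*} [Group G] (n : ℕ) (f : G) : Prop := ∀ x, (eng f)^[n] x = 1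

/-- The same condition in the form of the iteration `v ↦ v e v⁻¹`. -/
def IsEngT {G : Type*} [Group G] (n : ℕ) (e : G) : Prop :=
  ∀ v, (fun v => v * e * v⁻¹)^[n] v = e

/-- The positive cone of a nontrivial left-invariant total preorder. -/
structure LCone (G : Type*) [Group G] where
  P : G → Prop
  mul : ∀ a b, P a → P b → P (a * b)
  total : ∀ a, P a ∨ P a⁻¹
  proper : ∃ a, ¬ P a

/-- Unipotent representation in a ring. -/
def Unip {G R : Type*} [Group G] [Ring R] (ρ : G →* R) (s : ℕ) : Prop :=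
  ∀ l : List G, l.length = s → (l.map fun g => ρ g - 1).prod = 0

/-- The common kernel of all rational unipotent representations. -/
def Dinf (G : Type) [Group G] : Subgroup G where
  carrier := {g | ∀ (R : Type) [Ring R] [Algebra ℚ R] (ρ : G →* R) (s : ℕ), Unip ρ s → ρ g = 1}
  one_mem' := fun _ _ _ ρ _ _ => map_one ρ
  mul_mem' := fun {a b} ha hb R _ _ ρ s h => by rw [map_mul, ha R ρ s h, hb R ρ s h, one_mul]
  inv_mem' := fun {a} ha R _ _ ρ s h => by
    have := map_mul ρ a⁻¹ a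
    rwa [inv_mul_cancel, map_one, ha R ρ s h, mul_one, eq_comm] at this

theorem mem_Dinf {G : Type} [Group G] {g : G} : g ∈ Dinf G ↔
    ∀ (R : Type) [Ring R] [Algebra ℚ R] (ρ : G →* R) (s : ℕ), Unip ρ s → ρ g = 1 := Iff.rfl

/-- Truncated exponential. -/
def texp {S : Type*} [Ring S] [Algebra ℚ S] (M : ℕ) (x : S) : S :=
  ∑ k ∈ Finset.range M, ((k.factorial : ℚ)⁻¹) • x ^ k

/-- The iteration `g ↦ g E g⁻¹` on pairs (element, inverse). -/
def iter {S : Type*} [Ring S] (E E' : S) (p : S × S) : S × S := (p.1 * E * p.2, p.1 * E' * p.2)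

/-- The Engel identity for `exp A` at the test element
`exp R₁ * exp R₂ * exp B * exp (-R₂) * exp (-R₁)`, with truncated exponentials. -/
def engExpr {S : Type*} [Ring S] [Algebra ℚ S] (n M : ℕ) (A B R₁ R₂ : S) : S :=
  ((iter (texp M A) (texp M (-A)))^[n]
    (texp M R₁ * texp M R₂ * texp M B * texp M (-R₂) * texp M (-R₁),
      texp M R₁ * texp M R₂ * texp M (-B) * texp M (-R₂) * texp M (-R₁))).1 - texp M A

section Lie

variable {L : Type*} [LieRing L] [LieAlgebra ℚ L]

/-- The formal Engel identity for `exp (ad a)`. -/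
def EngId (n : ℕ) (a b r₁ r₂ : L) : Prop :=
  ∀ M d j : ℕ, n ≤ M → 1 ≤ d → j < M →
    (engExpr n M (C (LieAlgebra.ad ℚ L a)) (X * C (LieAlgebra.ad ℚ L b))
      (X ^ 2 * C (LieAlgebra.ad ℚ L r₁)) (X ^ d * C (LieAlgebra.ad ℚ L r₂)) :
        (Module.End ℚ L)[X]).coeff j = 0

/-- The Lie version of being a left `n`-Engel element. -/
def LieEng (n : ℕ) (a : L) : Prop :=
  LieAlgebra.ad ℚ L a ^ n = 0 ∧ ∀ b r₁ r₂ : L, EngId n a b r₁ r₂

/-- The weight filtration of `ad a`. -/
structure WF (a : L) (d : ℕ) where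
  F : ℤ → Submodule ℚ L
  anti : Antitone F
  top : F (-d) = ⊤
  bot : F (d + 1) = ⊥
  lie : ∀ (k l : ℤ) (x y : L), x ∈ F k → y ∈ F l → ⁅x, y⁆ ∈ F (k + l)
  ad : ∀ (k : ℤ) (x : L), x ∈ F k → ⁅a, x⁆ ∈ F (k + 2)
  ker : ∀ x : L, (LieAlgebra.ad ℚ L a ^ d) x = 0 → x ∈ F (-d + 1)

/-- The coefficient of `t ^ (d + 2)` in `exp (-t ^ d ad r₂) exp (-t ^ 2 ad r₁) a`. -/
def ycoef (d : ℕ) (a r₁ r₂ : L) : L :=
  ∑ k ∈ Finset.range (d + 3), ∑ l ∈ Finset.range (d + 3),
    if d * k + 2 * l = d + 2 then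
      ((-1) ^ (k + l) * (k.factorial : ℚ)⁻¹ * (l.factorial : ℚ)⁻¹) •
        (LieAlgebra.ad ℚ L r₂ ^ k * LieAlgebra.ad ℚ L r₁ ^ l) a
    else 0

/-- Strong local nilpotency of a set of elements of a Lie algebra. -/
def LN (T : Set L) : Prop :=
  ∀ s : Finset L, (s : Set L) ⊆ T → ∃ N : ℕ, ∀ l : List L, (∀ x ∈ l, x ∈ s) → l.length = N →
    (l.map fun x => LieAlgebra.ad ℚ L x).prod = 0

end Lie

end Pool.Agent.MP_f21dda_al.H92

end

-- part MP_f21dda_al.H92.Acc
section

/-!
The ascending chain condition above a term of the lower central series.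
-/

namespace Pool.Agent.MP_f21dda_al.H92

variable {K : Type*} [Group K]

open scoped commutatorElement in
theorem acc_gen (hK : Group.FG K) (c : ℕ) : ∃ S : Set K, S.Finite ∧
    S ⊆ (⊤ : Subgroup K).lowerCentralSeries c ∧ (⊤ : Subgroup K).lowerCentralSeries c ≤
      Subgroup.closure S ⊔ (⊤ : Subgroup K).lowerCentralSeries (c + 1) := by
  obtain ⟨Y, hY, hfin⟩ := Group.fg_iff.1 hK
  induction c with
  | zero => exact ⟨Y, hfin, fun _ _ => trivial, by simp [hY]⟩
  | succ c ih =>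
    obtain ⟨S, h1, h2, h3⟩ := ih
    have h4 : Set.image2 (fun a y => ⁅a, y⁆) S Y ⊆ (⊤ : Subgroup K).lowerCentralSeries (c + 1) := by
      rintro _ ⟨a, ha, y, -, rfl⟩
      exact Subgroup.commutator_mem_commutator (h2 ha) trivial
    refine ⟨_, h1.image2 _ hfin, h4, ?_⟩
    set M := Subgroup.closure (Set.image2 (fun a y => ⁅a, y⁆) S Y) ⊔
      (⊤ : Subgroup K).lowerCentralSeries (c + 1 + 1) with hM
    have h5 : M ≤ (⊤ : Subgroup K).lowerCentralSeries (c + 1) :=
      sup_le ((Subgroup.closure_le _).2 h4) (Subgroup.lowerCentralSeries_antitone _ (by omega))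
    have : M.Normal := Subgroup.commutator_top_right_le_iff.1
      ((Subgroup.commutator_mono h5 le_rfl).trans le_sup_right)
    have h6 : ∀ a g : K, ⁅a, g⁆ ∈ M ↔ Commute (a : K ⧸ M) g := fun a g => by
      rw [← QuotientGroup.eq_one_iff, ← commutatorElement_eq_one_iff_commute]
      rfl
    have h7 : (⊤ : Subgroup K).lowerCentralSeries c ≤
        (Subgroup.center (K ⧸ M)).comap (QuotientGroup.mk' M) := by
      refine h3.trans (sup_le ((Subgroup.closure_le _).2 fun a ha => ?_) fun a ha => ?_)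
      · refine Subgroup.mem_center_iff.2 fun g => ?_
        obtain ⟨g, rfl⟩ := QuotientGroup.mk_surjective g
        have hg : g ∈ Subgroup.closure Y := hY ▸ trivial
        refine Commute.symm ?_
        induction hg using Subgroup.closure_induction with
        | mem y hy =>
          exact (h6 a y).1 (Subgroup.mem_sup_left (Subgroup.subset_closure ⟨a, ha, y, hy, rfl⟩))
        | one => exact Commute.one_right _
        | mul x y _ _ hx hy => exact hx.mul_right hy
        | inv x _ hx => exact hx.inv_right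
      · refine Subgroup.mem_center_iff.2 fun g => ?_
        obtain ⟨g, rfl⟩ := QuotientGroup.mk_surjective g
        exact ((h6 a g).1 (Subgroup.mem_sup_right
          (Subgroup.commutator_mem_commutator ha trivial))).symm
    exact Subgroup.commutator_le.2 fun a ha g _ =>
      (h6 a g).2 (Subgroup.mem_center_iff.1 (h7 ha) g).symm

open scoped IsMulCommutative in
/- PROOF.  Induction on `c`.  `γ c` is generated by a finite set together with `γ (c + 1)`
(commutators `⁅a, y⁆` of the previous finite set with the generators; bilinearity modulo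
`γ (c + 2)`, e.g. in the quotient by `γ (c + 2)` where `γ (c + 1)` is central).  So the image of
`γ c` in `K ⧸ γ (c + 1)` is a finitely generated commutative group, a Noetherian ℤ-module.  For a
monotone sequence `T i ≥ γ (c + 1)`, both `T i ⊔ γ c` and `T i ⊓ γ c` stabilise, hence `T i`. -/
theorem acc_above (hK : Group.FG K) (c : ℕ) (T : ℕ →o Subgroup K)
    (hT : ∀ i, (⊤ : Subgroup K).lowerCentralSeries c ≤ T i) : ∃ n, ∀ m, n ≤ m → T n = T m := by
  induction c generalizing T with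
  | zero => exact ⟨0, fun m _ => by rw [top_le_iff.1 (hT 0), top_le_iff.1 (hT m)]⟩
  | succ c ih =>
    obtain ⟨n, hn⟩ := ih ⟨fun i => T i ⊔ (⊤ : Subgroup K).lowerCentralSeries c,
      fun i j h => sup_le_sup_right (T.mono h) _⟩ fun _ => le_sup_right
    obtain ⟨S, h1, h2, h3⟩ := acc_gen hK c
    let π := QuotientGroup.mk' ((⊤ : Subgroup K).lowerCentralSeries (c + 1))
    let H := ((⊤ : Subgroup K).lowerCentralSeries c).map π
    have : IsMulCommutative H := by
      rw [← Subgroup.commutator_self_eq_bot_iff, ← Subgroup.map_commutator, Subgroup.map_eq_bot_iff,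
        QuotientGroup.ker_mk']
      exact Subgroup.commutator_mono le_rfl le_top
    have : Group.FG H := by
      refine (Group.fg_iff_subgroup_fg H).2 ((Subgroup.fg_iff _).2 ⟨π '' S, ?_, h1.image _⟩)
      rw [← MonoidHom.map_closure]
      refine le_antisymm (Subgroup.map_mono ((Subgroup.closure_le _).2 h2))
        ((Subgroup.map_mono h3).trans ?_)
      rw [Subgroup.map_sup, QuotientGroup.map_mk'_self, sup_bot_eq]
    have : Module.Finite ℤ (Additive H) := Module.Finite.iff_addGroup_fg.2 inferInstance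
    obtain ⟨k, hk⟩ := monotone_stabilizes_iff_noetherian.2
      (inferInstance : IsNoetherian ℤ (Additive H))
      ⟨fun i => (((T i).map π).subgroupOf H).toAddSubgroup.toIntSubmodule, fun i j h x hx =>
        Subgroup.map_mono (T.mono h) hx⟩
    refine ⟨max n k, fun m hm => le_antisymm (T.mono hm) fun x hx => ?_⟩
    have e : x ∈ T n ⊔ (⊤ : Subgroup K).lowerCentralSeries c :=
      (hn m (le_of_max_le_left hm)).ge (Subgroup.mem_sup_left hx)
    obtain ⟨t, ht, g, hg, rfl⟩ := Subgroup.mem_sup_of_normal_right.1 e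
    refine mul_mem (T.mono (le_max_left _ _) ht) (T.mono (le_max_right n k) ?_)
    have g1 : g ∈ T m := by
      simpa using mul_mem (inv_mem (T.mono (le_of_max_le_left hm) ht)) hx
    obtain ⟨u, u1, u2⟩ : π g ∈ (T k).map π := (hk m (le_of_max_le_right hm)).ge
      (show Additive.ofMul (⟨π g, g, hg, rfl⟩ : H) ∈ _ from ⟨g, g1, rfl⟩)
    simpa using mul_mem u1 (hT k (QuotientGroup.eq.1 u2))

end Pool.Agent.MP_f21dda_al.H92

end

-- part MP_f21dda_al.H92.Chain
section

/-!
Chains of subgroups obtained by adjoining Engel elements.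
-/

namespace Pool.Agent.MP_f21dda_al.H92

open scoped commutatorElement

variable {K : Type*} [Group K]

/- PROOF.  With `u k = (f ^ k)⁻¹ * ((eng f)^[k] x * f) * f ^ k` one has `u (k + 1) = (u k)⁻¹ * f * u k`;
put `v k = (u k)⁻¹`, `x = v⁻¹ * f⁻¹`. -/
theorem IsEng.isEngT {n : ℕ} {f : K} (h : IsEng n f) : IsEngT n f⁻¹ := by
  have key : ∀ (k : ℕ) (x : K), (fun v => v * f⁻¹ * v⁻¹)^[k] (x * f)⁻¹ =
      ((f ^ k)⁻¹ * ((eng f)^[k] x * f) * f ^ k)⁻¹ := by
    intro k x
    induction k with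
    | zero => simp
    | succ k ih =>
      rw [Function.iterate_succ_apply', Function.iterate_succ_apply', ih]
      generalize (eng f)^[k] x = e
      simp only [eng, pow_succ]
      have hc : f ^ k * f = f * f ^ k := by rw [← pow_succ, ← pow_succ']
      have hc' : (f ^ k)⁻¹ * f⁻¹ = f⁻¹ * (f ^ k)⁻¹ := by rw [← mul_inv_rev, ← mul_inv_rev, hc]
      have h1 : f ^ k * f⁻¹ * (f ^ k)⁻¹ = f⁻¹ := by
        rw [mul_assoc, ← hc', ← mul_assoc, mul_inv_cancel, one_mul]
      calc ((f ^ k)⁻¹ * (e * f) * f ^ k)⁻¹ * f⁻¹ * ((f ^ k)⁻¹ * (e * f) * f ^ k)⁻¹⁻¹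
          = (f ^ k)⁻¹ * f⁻¹ * e⁻¹ * (f ^ k * f⁻¹ * (f ^ k)⁻¹) * e * (f * f ^ k) := by group
        _ = _ := by rw [h1, hc', hc]; group
  intro v
  have h1 := key n (v⁻¹ * f⁻¹)
  rw [h, one_mul] at h1
  have h2 : (v⁻¹ * f⁻¹ * f)⁻¹ = v := by group
  rw [h2] at h1
  rw [h1]
  group

theorem IsEng.conj {n : ℕ} {f : K} (h : IsEng n f) (g : K) : IsEng n (g * f * g⁻¹) := by
  have hs : Function.Semiconj (fun x => g * x * g⁻¹) (eng f) (eng (g * f * g⁻¹)) := by
    intro x
    simp only [eng]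
    group
  intro x
  have h1 := hs.iterate_right n (g⁻¹ * x * g)
  simp only [h (g⁻¹ * x * g)] at h1
  have h2 : g * (g⁻¹ * x * g) * g⁻¹ = x := by group
  rw [h2] at h1
  rw [← h1]
  group

theorem IsEng.mono {n m : ℕ} {f : K} (h : IsEng n f) (hm : n ≤ m) : IsEng m f := by
  intro x
  obtain ⟨k, rfl⟩ := Nat.exists_eq_add_of_le' hm
  rw [Function.iterate_add_apply, h x]
  exact Function.iterate_fixed (by simp [eng]) k

/- PROOF.  `X = closure {(eng f)^[i] u | i < n}`; `(eng f)^[i] u ∈ closure {f ^ j u f ^ (-j) | j ≤ i}`,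
so `X ≤ S`; `f x f⁻¹ = x * eng f x`, and `f⁻¹ x f = x * (f⁻¹ (eng f x) f)⁻¹` with downward induction on
`i` show that `X` is normalised by `f` and `f⁻¹`. -/
theorem IsEng.zpow_conj_mem {n : ℕ} {f : K} (h : IsEng n f) (S : Subgroup K) (u : K)
    (hu : ∀ j : ℕ, j < n → f ^ j * u * (f ^ j)⁻¹ ∈ S) (j : ℤ) : f ^ j * u * (f ^ j)⁻¹ ∈ S := by
  have hA : ∀ i j : ℕ, i + j < n → f ^ j * (eng f)^[i] u * (f ^ j)⁻¹ ∈ S := by
    intro i
    induction i with
    | zero => intro j hj; exact hu j (by omega)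
    | succ i ih =>
      intro j hj
      have h1 := S.mul_mem (S.inv_mem (ih j (by omega))) (ih (j + 1) (by omega))
      rw [Function.iterate_succ_apply']
      generalize (eng f)^[i] u = e at h1 ⊢
      convert h1 using 1
      simp only [eng, pow_succ]
      group
  have hB : ∀ k i : ℕ, n ≤ i + k → ∀ j : ℤ, f ^ j * (eng f)^[i] u * (f ^ j)⁻¹ ∈ S := by
    intro k
    induction k with
    | zero =>
      intro i hi j
      rw [h.mono (m := i) (by omega) u]
      simp
    | succ k ih =>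
      intro i hi j
      by_cases hin : n ≤ i + k
      · exact ih i hin j
      have h0 := hA i 0 (by omega)
      have h1 := ih (i + 1) (by omega)
      rw [Function.iterate_succ_apply'] at h1
      generalize (eng f)^[i] u = e at h0 h1 ⊢
      have h2 : ∀ j : ℤ, f ^ (j + 1) * e * (f ^ (j + 1))⁻¹ =
          f ^ j * e * (f ^ j)⁻¹ * (f ^ j * eng f e * (f ^ j)⁻¹) := by
        intro j
        simp only [eng, zpow_add_one]
        group
      induction j using Int.induction_on with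
      | zero => simpa using h0
      | succ j ihj => rw [h2]; exact S.mul_mem ihj (h1 _)
      | pred j ihj =>
        have h3 := h2 (-(j : ℤ) - 1)
        rw [sub_add_cancel] at h3
        rw [h3] at ihj
        exact (S.mul_mem_cancel_right (h1 _)).1 ihj
  exact hB n 0 (by omega) j

/- PROOF.  `V j = W ⊔ lowerCentralSeries j`; an element of `V j` is `w * g`; for `x ∈ W`,
`g x g⁻¹ = ⁅g, x⁆ x ∈ V (j + 1)`.  If no such `y` exists, downward induction on `j` shows
`O ∩ V j ⊆ W` for all `j ≤ c`. -/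
theorem exists_normalizing (O : Set K) (hO : ∀ x ∈ O, ∀ g, g * x * g⁻¹ ∈ O) (W : Subgroup K)
    (c : ℕ) (hc : (⊤ : Subgroup K).lowerCentralSeries c ≤ W) (h : ¬ O ⊆ W) :
    ∃ y ∈ O, y ∉ W ∧ ∀ x ∈ O, x ∈ W → y * x * y⁻¹ ∈ W ∧ y⁻¹ * x * y ∈ W := by
  by_contra hno
  have key : ∀ k j : ℕ, c ≤ j + k →
      ∀ y ∈ O, y ∈ W ⊔ (⊤ : Subgroup K).lowerCentralSeries j → y ∈ W := by
    intro k
    induction k with
    | zero =>
      intro j hj y _ hy
      exact (sup_le le_rfl ((Subgroup.lowerCentralSeries_antitone _ (by omega)).trans hc)) hy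
    | succ k ih =>
      intro j hj y hyO hy
      have ih' := ih (j + 1) (by omega)
      by_contra hyW
      refine hno ⟨y, hyO, hyW, fun x hxO hxW => ?_⟩
      obtain ⟨w, hw, g, hg, rfl⟩ := Subgroup.mem_sup_of_normal_right.1 hy
      have hcm : ∀ a ∈ (⊤ : Subgroup K).lowerCentralSeries j, ∀ b ∈ W,
          a * b * a⁻¹ ∈ W ⊔ (⊤ : Subgroup K).lowerCentralSeries (j + 1) := by
        intro a ha b hb
        have h1 : a * b * a⁻¹ = ⁅a, b⁆ * b := by rw [commutatorElement_def]; group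
        rw [h1]
        exact Subgroup.mul_mem _
          (Subgroup.mem_sup_right (Subgroup.commutator_mem_commutator ha (Subgroup.mem_top b)))
          (Subgroup.mem_sup_left hb)
      constructor
      · refine ih' _ (hO x hxO _) ?_
        have h1 : w * g * x * (w * g)⁻¹ = w * (g * x * g⁻¹) * w⁻¹ := by group
        rw [h1]
        exact Subgroup.mul_mem _ (Subgroup.mul_mem _ (Subgroup.mem_sup_left hw) (hcm g hg x hxW))
          (Subgroup.mem_sup_left (W.inv_mem hw))
      · have h0 := hO x hxO (w * g)⁻¹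
        rw [inv_inv] at h0
        refine ih' _ h0 ?_
        have h1 : (w * g)⁻¹ * x * (w * g) = g⁻¹ * (w⁻¹ * x * w) * g⁻¹⁻¹ := by group
        rw [h1]
        exact hcm _ (Subgroup.inv_mem _ hg) _ (W.mul_mem (W.mul_mem (W.inv_mem hw) hxW) hw)
  exact h fun y hy => key c 0 (by omega) y hy (Subgroup.mem_sup_right (Subgroup.mem_top y))

/- PROOF.  Well-founded induction (from `acc_above`) on the subgroups `T ≥ Q` with
`T ≤ Q ⊔ closure (O ∩ T)`: if `T ≠ ⊤` then `O ⊄ T`, `exists_normalizing` gives `y`, which normalises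
`T`; `T ⊔ zpowers y` is a larger subgroup of the same kind. -/
theorem chain_ind (hK : Group.FG K) (O : Set K) (hO : ∀ x ∈ O, ∀ g, g * x * g⁻¹ ∈ O)
    (hgen : Subgroup.closure O = ⊤) (Q : Subgroup K) [Q.Normal] (c : ℕ)
    (hc : (⊤ : Subgroup K).lowerCentralSeries c ≤ Q) (p : Subgroup K → Prop) (htop : p ⊤)
    (hstep : ∀ (T : Subgroup K) (y : K), y ∈ O → Q ≤ T →
      (∀ x ∈ T, y * x * y⁻¹ ∈ T ∧ y⁻¹ * x * y ∈ T) → p (T ⊔ Subgroup.zpowers y) → p T) : p Q := by
  by_contra hQ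
  have step : ∀ T : {T : Subgroup K // Q ≤ T ∧ T ≤ Q ⊔ Subgroup.closure (O ∩ T) ∧ ¬ p T},
      ∃ T' : {T : Subgroup K // Q ≤ T ∧ T ≤ Q ⊔ Subgroup.closure (O ∩ T) ∧ ¬ p T}, T.1 < T'.1 := by
    rintro ⟨T, hQT, hT, hp⟩
    have hOT : ¬ O ⊆ T := by
      intro hO'
      have : T = ⊤ := top_le_iff.1 (hgen ▸ (Subgroup.closure_le T).2 hO')
      exact hp (this ▸ htop)
    obtain ⟨y, hyO, hyT, hy⟩ := exists_normalizing O hO T c (hc.trans hQT) hOT
    have hn : ∀ x ∈ T, y * x * y⁻¹ ∈ T ∧ y⁻¹ * x * y ∈ T := by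
      have hle : Q ⊔ Subgroup.closure (O ∩ T) ≤
          T.comap (MulAut.conj y).toMonoidHom ⊓ T.comap (MulAut.conj y⁻¹).toMonoidHom := by
        refine sup_le (fun x hx => ?_) ((Subgroup.closure_le _).2 fun x hx => ?_)
        · refine ⟨hQT (Subgroup.Normal.conj_mem inferInstance x hx y),
            hQT (Subgroup.Normal.conj_mem inferInstance x hx y⁻¹)⟩
        · have h1 := hy x hx.1 hx.2
          refine ⟨h1.1, ?_⟩
          change y⁻¹ * x * y⁻¹⁻¹ ∈ T
          rw [inv_inv]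
          exact h1.2
      intro x hx
      have h1 := hle (hT hx)
      refine ⟨h1.1, ?_⟩
      have h2 : y⁻¹ * x * y⁻¹⁻¹ ∈ T := h1.2
      rwa [inv_inv] at h2
    have hyT' : y ∈ T ⊔ Subgroup.zpowers y := Subgroup.mem_sup_right (Subgroup.mem_zpowers y)
    refine ⟨⟨T ⊔ Subgroup.zpowers y, hQT.trans le_sup_left, sup_le (hT.trans (sup_le_sup_left
      (Subgroup.closure_mono (Set.inter_subset_inter_right _ ?_)) _)) ?_,
      fun h' => hp (hstep T y hyO hQT hn h')⟩, lt_of_le_of_ne le_sup_left fun h' => hyT ?_⟩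
    · exact fun x hx => Subgroup.mem_sup_left hx
    · rw [Subgroup.zpowers_le]
      exact Subgroup.mem_sup_right (Subgroup.subset_closure ⟨hyO, hyT'⟩)
    · have h'' : T = T ⊔ Subgroup.zpowers y := h'
      rw [h'']
      exact hyT'
  choose nx hnx using step
  let s : ℕ → {T : Subgroup K // Q ≤ T ∧ T ≤ Q ⊔ Subgroup.closure (O ∩ T) ∧ ¬ p T} :=
    fun i => nx^[i] ⟨Q, le_rfl, le_sup_left, hQ⟩
  have hs : ∀ i, (s i).1 < (s (i + 1)).1 := by
    intro i
    have h1 : s (i + 1) = nx (s i) := Function.iterate_succ_apply' _ _ _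
    rw [h1]
    exact hnx _
  obtain ⟨n, hn⟩ := acc_above hK c
    ⟨fun i => (s i).1, monotone_nat_of_le_succ fun i => (hs i).le⟩ fun i => hc.trans (s i).2.1
  exact (hs n).ne (hn (n + 1) (Nat.le_succ n))

theorem mem_sup_zpowers (T : Subgroup K) (y : K)
    (hT : ∀ x ∈ T, y * x * y⁻¹ ∈ T ∧ y⁻¹ * x * y ∈ T) (g : K) (hg : g ∈ T ⊔ Subgroup.zpowers y) :
    ∃ x ∈ T, ∃ j : ℤ, g = x * y ^ j := by
  have hz : ∀ (j : ℤ), ∀ x ∈ T, y ^ j * x * (y ^ j)⁻¹ ∈ T := by
    intro j
    induction j using Int.induction_on with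
    | zero => intro x hx; simpa using hx
    | succ j ih =>
      intro x hx
      have h1 := ih _ (hT x hx).1
      convert h1 using 1
      rw [zpow_add_one]
      group
    | pred j ih =>
      intro x hx
      have h1 := ih _ (hT x hx).2
      convert h1 using 1
      rw [zpow_sub_one]
      group
  let H : Subgroup K :=
    { carrier := {g | ∃ x ∈ T, ∃ j : ℤ, g = x * y ^ j}
      one_mem' := ⟨1, T.one_mem, 0, by simp⟩
      mul_mem' := by
        rintro _ _ ⟨x, hx, j, rfl⟩ ⟨x', hx', k, rfl⟩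
        refine ⟨x * (y ^ j * x' * (y ^ j)⁻¹), T.mul_mem hx (hz j x' hx'), j + k, ?_⟩
        rw [zpow_add]
        group
      inv_mem' := by
        rintro _ ⟨x, hx, j, rfl⟩
        refine ⟨y ^ (-j) * x⁻¹ * (y ^ (-j))⁻¹, hz _ _ (T.inv_mem hx), -j, ?_⟩
        group }
  have hle : T ⊔ Subgroup.zpowers y ≤ H := by
    refine sup_le (fun x hx => ⟨x, hx, 0, by simp⟩) ?_
    rw [Subgroup.zpowers_le]
    exact ⟨1, T.one_mem, 1, by simp⟩
  exact hle hg

/- PROOF.  The generators are `t i * y ^ (k i)`; `M = closure {y ^ j (t i) y ^ (-j) | j < n} ≤ T` is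
normalised by `y` (`zpow_conj_mem`), every element of `T ⊔ zpowers y` is `m * y ^ j`, so
`T = M ⊔ (T ⊓ zpowers y)` and `T ⊓ zpowers y` is cyclic. -/
theorem fg_step {n : ℕ} (T : Subgroup K) (y : K) (hy : IsEng n y)
    (hT : ∀ x ∈ T, y * x * y⁻¹ ∈ T ∧ y⁻¹ * x * y ∈ T) (h : (T ⊔ Subgroup.zpowers y).FG) : T.FG := by
  classical
  obtain ⟨s, hs, hfin⟩ := (Subgroup.fg_iff _).1 h
  have hex : ∀ g : s, ∃ x ∈ T, ∃ j : ℤ, (g : K) = x * y ^ j := fun g =>
    mem_sup_zpowers T y hT g (hs ▸ Subgroup.subset_closure g.2)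
  choose t ht k hk using hex
  have hz : ∀ (j : ℕ), ∀ x ∈ T, y ^ j * x * (y ^ j)⁻¹ ∈ T := by
    intro j
    induction j with
    | zero => intro x hx; simpa using hx
    | succ j ih =>
      intro x hx
      have h1 := ih _ (hT x hx).1
      convert h1 using 1
      rw [pow_succ]
      group
  have : Finite s := hfin
  set A : Set K :=
    Set.range fun q : s × Fin n => y ^ (q.2 : ℕ) * t q.1 * (y ^ (q.2 : ℕ))⁻¹ with hA
  have hAfin : A.Finite := Set.finite_range _
  set M := Subgroup.closure A with hM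
  have hMT : M ≤ T := by
    rw [hM, Subgroup.closure_le]
    rintro _ ⟨q, rfl⟩
    exact hz _ _ (ht _)
  have hall : ∀ (g : s) (j : ℤ), y ^ j * t g * (y ^ j)⁻¹ ∈ M := fun g j =>
    hy.zpow_conj_mem M (t g) (fun i hi => Subgroup.subset_closure ⟨(g, ⟨i, hi⟩), rfl⟩) j
  have hMn : ∀ x ∈ M, y * x * y⁻¹ ∈ M ∧ y⁻¹ * x * y ∈ M := by
    have hle : M ≤ M.comap (MulAut.conj y).toMonoidHom ⊓ M.comap (MulAut.conj y⁻¹).toMonoidHom := by
      rw [hM, Subgroup.closure_le]
      rintro _ ⟨q, rfl⟩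
      constructor
      · have h1 := hall q.1 (((q.2 : ℕ) : ℤ) + 1)
        change y * (y ^ (q.2 : ℕ) * t q.1 * (y ^ (q.2 : ℕ))⁻¹) * y⁻¹ ∈ M
        convert h1 using 1
        rw [add_comm, zpow_add, zpow_natCast, zpow_one]
        simp only [mul_inv_rev, mul_assoc]
      · have h1 := hall q.1 (-1 + ((q.2 : ℕ) : ℤ))
        change y⁻¹ * (y ^ (q.2 : ℕ) * t q.1 * (y ^ (q.2 : ℕ))⁻¹) * y⁻¹⁻¹ ∈ M
        convert h1 using 1
        rw [zpow_add, zpow_natCast, zpow_neg_one]
        simp only [mul_inv_rev, mul_assoc]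
    intro x hx
    have h1 := hle hx
    refine ⟨h1.1, ?_⟩
    have h2 : y⁻¹ * x * y⁻¹⁻¹ ∈ M := h1.2
    rwa [inv_inv] at h2
  have hsup : T ⊔ Subgroup.zpowers y ≤ M ⊔ Subgroup.zpowers y := by
    rw [← hs, Subgroup.closure_le]
    intro g hg
    have h1 := hall ⟨g, hg⟩ 0
    rw [zpow_zero, one_mul, inv_one, mul_one] at h1
    have h2 : g = t ⟨g, hg⟩ * y ^ k ⟨g, hg⟩ := hk ⟨g, hg⟩
    rw [h2]
    exact Subgroup.mul_mem _ (Subgroup.mem_sup_left h1)
      (Subgroup.mem_sup_right (Subgroup.zpow_mem_zpowers y _))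
  obtain ⟨m, hm⟩ := (Subgroup.le_zpowers_iff y (T ⊓ Subgroup.zpowers y)).1 inf_le_right
  refine (Subgroup.fg_iff _).2 ⟨A ∪ {y ^ m}, ?_, hAfin.union (Set.finite_singleton _)⟩
  rw [Subgroup.closure_union, ← Subgroup.zpowers_eq_closure, ← hm, ← hM]
  refine le_antisymm (sup_le hMT inf_le_left) fun x hx => ?_
  obtain ⟨a, ha, j, rfl⟩ := mem_sup_zpowers M y hMn x (hsup (Subgroup.mem_sup_left hx))
  exact Subgroup.mul_mem _ (Subgroup.mem_sup_left ha) (Subgroup.mem_sup_right
    ⟨(T.mul_mem_cancel_left (hMT ha)).1 hx, Subgroup.zpow_mem_zpowers y j⟩)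

end Pool.Agent.MP_f21dda_al.H92

end

-- part MP_f21dda_al.H92.Dyn0
section

/-!
Engel elements of groups acting on a complete linear order.
-/

namespace Pool.Agent.MP_f21dda_al.H92

open Pool.Agent.MP_f36ac3_al Filter Set

variable {G Y : Type*} [Group G] [CompleteLinearOrder Y] [MulAction G Y]

theorem track_aux (hm : Mono G Y) (P : ℕ → Set Y) {a : Y} (l : List G) (x : G) (t : ℕ)
    (hP : ∀ g ∈ x :: l, ∀ t z, z ∈ P (t + 1) →
      ∃ α β, g • α = α ∧ g • β = β ∧ α ≤ z ∧ z ≤ β ∧ Icc α β ⊆ P t)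
    (hne : List.IsChain (fun g g' : G => ∀ t, ∀ z ∈ P t, g • z = z → g' • z ≠ z) (x :: l))
    (ha : (x :: l).getLast (List.cons_ne_nil _ _) • a ≠ a) (hat : a ∈ P (t + l.length)) :
    ∃ z ∈ P t, x • z ≠ z ∧ ∀ M, ∀ᶠ N in atTop,
      Ray x z M (((x :: l).map fun g => g ^ N).prod • a) := by
  induction l generalizing x t with
  | nil =>
    have ha' : x • a ≠ a := by simpa using ha
    refine ⟨a, hat, ha', fun M => eventually_atTop.2 ⟨M, fun N hN => ⟨N, hN, a, ?_, by simp⟩⟩⟩
    have := hm.min_lt ha'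
    exact ⟨this.1.le, this.2.le⟩
  | cons y l ih =>
    obtain ⟨hxy, hr'⟩ := List.isChain_cons_cons.1 hne
    obtain ⟨z, hz, -, hev⟩ := ih y (t + 1) (fun g hg => hP g (List.mem_cons_of_mem _ hg)) hr'
      (by rwa [List.getLast_cons (List.cons_ne_nil _ _)] at ha) (by
        rw [List.length_cons] at hat
        rwa [add_assoc, add_comm 1])
    obtain ⟨α, β, hα, hβ, h1, h2, hsub⟩ :=
      hP y (List.mem_cons_of_mem _ List.mem_cons_self) t z hz
    obtain ⟨z', a1, a2, a3, a4, a5⟩ := hm.ray_lim hα hβ h1 h2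
    have hz' : z' ∈ P t := hsub ⟨a1, a2⟩
    have hx : x • z' ≠ z' := fun c => hxy t z' hz' c a3
    have hb := hm.min_lt hx
    obtain ⟨M1, hM1⟩ := a4 _ hb.1
    obtain ⟨M2, hM2⟩ := a5 _ hb.2
    refine ⟨z', hz', hx, fun M => ?_⟩
    filter_upwards [hev M1, hev M2, eventually_ge_atTop M] with N b1 b2 b3
    refine ⟨N, b3, _, ⟨(hM1 _ b1).le, (hM2 _ b2).le⟩, ?_⟩
    rw [List.map_cons, List.prod_cons, mul_smul]

/- PROOF.  As `Mono.track` and the end of `Mono.not_law` (file MP_f36ac3_al/Track.lean), for a list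
of group elements in which neighbours have no common fixed point. -/
theorem track_chain (hm : Mono G Y) (P : ℕ → Set Y) (x : G) (l : List G)
    (hP : ∀ g ∈ x :: l, ∀ t z, z ∈ P (t + 1) →
      ∃ α β, g • α = α ∧ g • β = β ∧ α ≤ z ∧ z ≤ β ∧ Icc α β ⊆ P t)
    (hne : List.IsChain (fun g g' : G => ∀ t, ∀ z ∈ P t, g • z = z → g' • z ≠ z) (x :: l)) {a : Y}
    (ha : (x :: l).getLast (List.cons_ne_nil _ _) • a ≠ a) (hat : a ∈ P l.length) :
    ∃ N : ℕ, ((x :: l).map fun g => g ^ N).prod ≠ 1 := by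
  by_contra hcon
  push Not at hcon
  obtain ⟨z, -, hz, hev⟩ := track_aux hm P l x 0 hP hne ha (by simpa using hat)
  have h2 : ∀ M, Ray x z M a := fun M => by
    obtain ⟨N, hN⟩ := (hev M).exists
    rwa [hcon, one_smul] at hN
  obtain ⟨z', -, -, a3, a4, a5⟩ := hm.ray_lim (L := x) (z := z) (hm.smul_bot _)
    (hm.smul_top _) bot_le le_top
  rcases lt_trichotomy a z' with c | c | c
  · obtain ⟨M, hM⟩ := a4 a c
    exact lt_irrefl _ (hM a (h2 M))
  · exact hm.ray_ne hz (h2 0) (c ▸ a3)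
  · obtain ⟨M, hM⟩ := a5 a c
    exact lt_irrefl _ (hM a (h2 M))

theorem eng_iter_conj (f : G) (k : ℕ) (x : G) :
    (eng f)^[k] (f * x * f⁻¹) = f * (eng f)^[k] x * f⁻¹ := by
  induction k with
  | zero => rfl
  | succ k ih =>
    rw [Function.iterate_succ_apply', Function.iterate_succ_apply', ih]
    simp only [eng, mul_inv_rev, inv_inv, mul_assoc, inv_mul_cancel_left]

/-- Two elements with the same fixed points. -/
def SameFix (Y : Type*) [MulAction G Y] (g g' : G) : Prop := ∀ z : Y, g • z = z ↔ g' • z = z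

omit [CompleteLinearOrder Y] in
theorem SameFix.inv {g g' : G} (h : SameFix Y g g') : SameFix Y g⁻¹ g' := fun z => by
  rw [← h z, inv_smul_eq_iff]
  exact eq_comm

omit [CompleteLinearOrder Y] in
theorem exists_word (f : G) (h : ℕ → G) (hh : ∀ j, h (j + 1) = f * h j * f⁻¹) (n k j : ℕ)
    (hk : j + k ≤ n) : ∃ l : List G, l.length = 2 ^ k ∧
      (∀ N : ℕ, (l.map fun g => g ^ N).prod = (eng f)^[k] (h j ^ N)) ∧
      (∀ g ∈ l, ∃ i ≤ n, SameFix Y g (h i)) ∧
      List.IsChain (fun g g' => ∃ i < n, (SameFix Y g (h i) ∧ SameFix Y g' (h (i + 1))) ∨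
        (SameFix Y g (h (i + 1)) ∧ SameFix Y g' (h i))) l ∧
      (∀ g ∈ l.head?, SameFix Y g (h (j + (k - 1)))) ∧
      ∀ g ∈ l.getLast?, SameFix Y g (h (j + k)) := by
  induction k generalizing j with
  | zero =>
    refine ⟨[h j], by simp, by simp, ?_, List.isChain_singleton _, ?_, ?_⟩
    · intro g hg
      rw [List.mem_singleton.1 hg]
      exact ⟨j, hk, fun _ => Iff.rfl⟩
    · intro g hg
      have : h j = g := by simpa using hg
      rw [← this]
      exact fun _ => Iff.rfl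
    · intro g hg
      have : h j = g := by simpa using hg
      rw [← this]
      exact fun _ => Iff.rfl
  | succ k ih =>
    obtain ⟨l, l0, l1, l2, l3, l4, l5⟩ := ih j (by omega)
    obtain ⟨m, m0, m1, m2, m3, m4, m5⟩ := ih (j + 1) (by omega)
    have l0' : l ≠ [] := List.ne_nil_of_length_pos (by rw [l0]; positivity)
    have m0' : m ≠ [] := List.ne_nil_of_length_pos (by rw [m0]; positivity)
    refine ⟨(l.map fun g => g⁻¹).reverse ++ m, by simp [m0, l0, pow_succ, mul_two], fun N => ?_,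
      fun g hg => ?_, ?_, fun g hg => ?_, fun g hg => ?_⟩
    · have e1 : (((l.map fun g => g⁻¹).reverse).map fun g => g ^ N) =
          ((l.map fun g => g ^ N).map fun g => g⁻¹).reverse := by
        simp [List.map_reverse, Function.comp_def]
      rw [List.map_append, List.prod_append, e1, ← List.prod_inv_reverse, l1, m1, hh, conj_pow,
        eng_iter_conj, Function.iterate_succ_apply']
      rfl
    · rcases List.mem_append.1 hg with hg | hg
      · obtain ⟨g', hg', rfl⟩ := List.mem_map.1 (List.mem_reverse.1 hg)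
        obtain ⟨i, hi, e⟩ := l2 g' hg'
        exact ⟨i, hi, e.inv⟩
      · exact m2 g hg
    · refine List.isChain_append.2 ⟨?_, m3, fun x hx y hy => ?_⟩
      · rw [List.isChain_reverse, List.isChain_map]
        refine l3.imp ?_
        rintro a b ⟨i, hi, e | e⟩
        · exact ⟨i, hi, Or.inr ⟨e.2.inv, e.1.inv⟩⟩
        · exact ⟨i, hi, Or.inl ⟨e.2.inv, e.1.inv⟩⟩
      · rw [List.getLast?_reverse, List.head?_map] at hx
        obtain ⟨x', hx', rfl⟩ := Option.mem_map.1 hx
        refine ⟨j + (k - 1), by omega, Or.inl ⟨(l4 x' hx').inv, ?_⟩⟩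
        rw [show j + (k - 1) + 1 = j + 1 + (k - 1) by omega]
        exact m4 y hy
    · rw [List.head?_append_of_ne_nil _ (by simpa using l0'), List.head?_reverse,
        List.getLast?_map] at hg
      obtain ⟨x', hx', rfl⟩ := Option.mem_map.1 hg
      exact (l5 x' hx').inv
    · rw [List.getLast?_append_of_ne_nil _ m0'] at hg
      rw [show j + (k + 1) = j + 1 + k by omega]
      exact m5 g hg

theorem exists_no_common (hm : Mono G Y) (H : Subgroup G) (f : G) (a b : Y)
    (h : ∀ z, a ≤ z → z ≤ b → (∃ u ∈ H, u • z ≠ z) ∨ ∃ u ∈ H, (f * u * f⁻¹) • z ≠ z) :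
    ∃ F ∈ H, ∀ z, a ≤ z → z ≤ b → F • z = z → (f * F * f⁻¹) • z ≠ z := by
  let _ : TopologicalSpace Y := Preorder.topology Y
  have : OrderTopology Y := ⟨rfl⟩
  have key : ∀ z : Y, (∃ u ∈ H, u • z ≠ z) → ∃ p q : Y, (∃ u ∈ H, q < u • p) ∧ p < z ∧ z < q := by
    have k2 : ∀ z : Y, ∀ u ∈ H, z < u • z → ∃ p q : Y, (∃ u ∈ H, q < u • p) ∧ p < z ∧ z < q :=
      fun z u hu e => ⟨u⁻¹ • z, u • z, ⟨u * u * u, H.mul_mem (H.mul_mem hu hu) hu, by
        simp only [mul_smul, smul_inv_smul]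
        exact hm.lt _ e⟩, by simpa using hm.lt u⁻¹ e, e⟩
    rintro z ⟨u, hu, hne⟩
    rcases lt_or_gt_of_ne hne with e | e
    · exact k2 z u⁻¹ (H.inv_mem hu) (by simpa using hm.lt u⁻¹ e)
    · exact k2 z u hu e
  have h' : ∀ z : Y, ∃ p q : Y, z ∈ Icc a b → (∃ u ∈ H, q < u • p) ∧
      {x : Y | (p ≤ x ∧ x ≤ q) ∨ (p ≤ f⁻¹ • x ∧ f⁻¹ • x ≤ q)} ∈ nhds z := fun z => by
    by_cases hz : z ∈ Icc a b
    · rcases h z hz.1 hz.2 with e | ⟨u, hu, e⟩
      · obtain ⟨p, q, h1, h2, h3⟩ := key z e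
        exact ⟨p, q, fun _ => ⟨h1, mem_of_superset (Icc_mem_nhds h2 h3) fun x hx => Or.inl hx⟩⟩
      · obtain ⟨p, q, h1, h2, h3⟩ := key (f⁻¹ • z) ⟨u, hu, fun c => e (by
          rw [mul_smul, mul_smul, c, smul_inv_smul])⟩
        refine ⟨p, q, fun _ => ⟨h1, mem_of_superset (Icc_mem_nhds (a := f • p) (b := f • q)
          (by simpa using hm.lt f h2) (by simpa using hm.lt f h3)) fun x hx => Or.inr ⟨?_, ?_⟩⟩⟩
        · simpa using hm.le f⁻¹ hx.1
        · simpa using hm.le f⁻¹ hx.2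
    · exact ⟨z, z, fun c => (hz c).elim⟩
  choose p q hpq using h'
  obtain ⟨s, hs, hcov⟩ := (isCompact_Icc (a := a) (b := b)).elim_nhds_subcover _
    fun z hz => (hpq z hz).2
  obtain ⟨F, hF, hsep⟩ := hm.separate H s p q fun z hz => (hpq z (hs z hz)).1
  refine ⟨F, hF, fun x h1 h2 h3 h4 => ?_⟩
  obtain ⟨z, hz, hx⟩ := mem_iUnion₂.1 (hcov ⟨h1, h2⟩)
  have fin : ∀ w : Y, F • w = w → p z ≤ w → w ≤ q z → False := fun w w1 w2 w3 => by
    rcases hsep z hz with e | e
    · exact lt_irrefl _ (e.trans_le ((hm.le F w2).trans (w1.le.trans w3)))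
    · exact lt_irrefl _ (e.trans_le (w2.trans (w1.ge.trans (hm.le F w3))))
  rcases hx with hx | hx
  · exact fin x h3 hx.1 hx.2
  · refine fin (f⁻¹ • x) ?_ hx.1 hx.2
    rw [mul_smul, mul_smul, smul_eq_iff_eq_inv_smul] at h4
    exact h4

theorem exists_bound {ι : Type*} (s : Finset ι) (y : ι → Y) (hy : ∀ i, y i < ⊤) {y0 : Y}
    (h0 : y0 < ⊤) : ∃ w : Y, w < ⊤ ∧ y0 ≤ w ∧ ∀ i ∈ s, y i ≤ w := by
  classical
  induction s using Finset.induction_on with
  | empty => exact ⟨y0, h0, le_rfl, by simp⟩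
  | insert j s _ ih =>
    obtain ⟨w, w1, w2, w3⟩ := ih
    refine ⟨max w (y j), max_lt w1 (hy j), w2.trans (le_max_left _ _), fun i hi => ?_⟩
    rcases Finset.mem_insert.1 hi with rfl | hi
    · exact le_max_right _ _
    · exact (w3 i hi).trans (le_max_left _ _)

/- PROOF.  Suppose no point of `[y₀, ⊤)` lies in the set.  `H k = f ^ k H f ^ (-k)`, `k ≤ n`, has
cofinal fixed points.  Choose `c 0 ≤ c 1 ≤ …` below `⊤`, above all `f ^ k • y₀` (`k ≤ n`), such that each
`H k` has a fixed point in each `[c i, c (i + 1)]`; `m = 2 ^ n`.  Let `[p, q] ⊆ [y₀, ⊤)` contain all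
`(f ^ k)⁻¹ • [c 0, c (2 m)]`.  Every `z ∈ [p, q]` is moved by some element of `H` or of `f H f⁻¹`;
as in `Mono.finite_cover` (compactness) cover `[p, q]` by finitely many intervals `[lo, hi]` with
`hi < u • lo` for some `u ∈ H` or some `u ∈ f H f⁻¹` (in the second case use the pair
`(f⁻¹ • lo, f⁻¹ • hi)` for `H`); `Mono.separate` gives `F ∈ H` such that `F` and `f F f⁻¹` have no common
fixed point in `[p, q]`.  So `h k = f ^ k F f ^ (-k)` and `h (k + 1)` have no common fixed point in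
`[c 0, c (2 m)]`, `k < n`.  Words: `w 0 j = [h j]`, `w (k + 1) j = (w k j).reverse.map (·⁻¹) ++ w k (j + 1)`;
the product of the `N`-th powers of the letters of `w k j` is `(eng f)^[k] (h j ^ N)`; neighbours
are `h i ^ ±1`, `h (i ± 1) ^ ±1` (`w k j` ends with index `j + k` and, for `k ≥ 1`, starts with index
`j + k - 1`), the length is `2 ^ k`.  Apply `track_chain` to `w n 0` (`n ≥ 1`; for `n = 0` the group is
trivial) with `P t = {z | t ≤ m ∧ c t ≤ z ≤ c (2 m - t)}` and `a` a fixed point of `H (n - 1)` in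
`[c (m - 1), c m]`. -/
theorem cof_conj (hm : Mono G Y) {n : ℕ} {f : G} (hf : IsEng n f) (H : Subgroup G)
    (hH : Cof {z : Y | ∀ u ∈ H, u • z = z}) :
    Cof {z : Y | (∀ u ∈ H, u • z = z) ∧ ∀ u ∈ H, (f * u * f⁻¹) • z = z} := by
  intro y0 hy0
  by_contra hcon
  have hno : ∀ z, y0 ≤ z → z < ⊤ →
      (∃ u ∈ H, u • z ≠ z) ∨ ∃ u ∈ H, (f * u * f⁻¹) • z ≠ z := fun z a b => by
    by_contra hc
    push Not at hc
    exact hcon ⟨z, hc, a, b⟩
  have hconj : ∀ (i : ℕ) (u : G) (z : Y), (f ^ i * u * (f ^ i)⁻¹) • z = z ↔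
      u • (f ^ i)⁻¹ • z = (f ^ i)⁻¹ • z := fun i u z => by
    rw [mul_smul, mul_smul, smul_eq_iff_eq_inv_smul]
  have hcof : ∀ (i : ℕ) (y : Y), y < ⊤ → ∃ z : Y, (∀ u ∈ H, (f ^ i * u * (f ^ i)⁻¹) • z = z) ∧
      y ≤ z ∧ z < ⊤ := fun i y hy => by
    obtain ⟨z, hz, a, b⟩ := hH ((f ^ i)⁻¹ • y) (hm.lt_top _ hy)
    refine ⟨f ^ i • z, fun u hu => ?_, by simpa using hm.le (f ^ i) a, hm.lt_top _ b⟩
    rw [hconj, inv_smul_smul]
    exact hz u hu
  have hnxt : ∀ y : {y : Y // y < ⊤}, ∃ y' : {y : Y // y < ⊤}, ∀ i ≤ n + 1,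
      ∃ z : Y, (∀ u ∈ H, (f ^ i * u * (f ^ i)⁻¹) • z = z) ∧ y.1 ≤ z ∧ z ≤ y'.1 := fun y => by
    choose z z1 z2 z3 using fun i => hcof i y.1 y.2
    obtain ⟨w, w1, -, w3⟩ := exists_bound (Finset.range (n + 2)) z z3 y.2
    exact ⟨⟨w, w1⟩, fun i hi => ⟨z i, z1 i, z2 i, w3 i (Finset.mem_range.2 (by omega))⟩⟩
  choose nxt hmid using hnxt
  obtain ⟨c0, c01, -, c03⟩ := exists_bound (Finset.range (n + 2)) (fun i => f ^ i • y0)
    (fun i => hm.lt_top _ hy0) hy0
  obtain ⟨c, hc0, hctop, hcmid⟩ : ∃ c : ℕ → Y, c 0 = c0 ∧ (∀ t, c t < ⊤) ∧ ∀ t, ∀ i ≤ n + 1,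
      ∃ z : Y, (∀ u ∈ H, (f ^ i * u * (f ^ i)⁻¹) • z = z) ∧ c t ≤ z ∧ z ≤ c (t + 1) := by
    refine ⟨fun t => (nxt^[t] ⟨c0, c01⟩).1, rfl, fun t => (nxt^[t] ⟨c0, c01⟩).2, fun t => ?_⟩
    simp only [Function.iterate_succ_apply']
    exact hmid _
  have hcm : Monotone c := monotone_nat_of_le_succ fun t => by
    obtain ⟨z, -, a, b⟩ := hcmid t 0 (Nat.zero_le _)
    exact a.trans b
  have hlen : ∃ L : ℕ, ∀ F : G, ∃ (x : G) (l : List G), l.length = L ∧
      (∀ N : ℕ, ((x :: l).map fun g => g ^ N).prod = (eng f)^[n + 1] (F ^ N)) ∧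
      (∀ g ∈ x :: l, ∃ i ≤ n + 1, SameFix Y g (f ^ i * F * (f ^ i)⁻¹)) ∧
      List.IsChain (fun g g' => ∃ i < n + 1, (SameFix Y g (f ^ i * F * (f ^ i)⁻¹) ∧
        SameFix Y g' (f ^ (i + 1) * F * (f ^ (i + 1))⁻¹)) ∨
        (SameFix Y g (f ^ (i + 1) * F * (f ^ (i + 1))⁻¹) ∧
          SameFix Y g' (f ^ i * F * (f ^ i)⁻¹))) (x :: l) ∧
      SameFix Y ((x :: l).getLast (List.cons_ne_nil _ _))
        (f ^ (n + 1) * F * (f ^ (n + 1))⁻¹) := by
    refine ⟨2 ^ (n + 1) - 1, fun F => ?_⟩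
    obtain ⟨w, w0, w1, w2, w3, -, w5⟩ := exists_word (Y := Y) f (fun i => f ^ i * F * (f ^ i)⁻¹)
      (fun j => by simp only [pow_succ', mul_inv_rev, mul_assoc]) (n + 1) (n + 1) 0 (by omega)
    obtain ⟨x, l, rfl⟩ := List.exists_cons_of_ne_nil (List.ne_nil_of_length_pos
      (l := w) (by rw [w0]; positivity))
    refine ⟨x, l, by rw [← w0]; simp, fun N => by simpa using w1 N, w2, w3, ?_⟩
    have := w5 _ (List.getLast?_eq_some_getLast (List.cons_ne_nil _ _))
    simpa using this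
  obtain ⟨L, hL⟩ := hlen
  obtain ⟨q, q1, -, q3⟩ := exists_bound (Finset.range (n + 2))
    (fun i => (f ^ i)⁻¹ • c (2 * (L + 1))) (fun i => hm.lt_top _ (hctop _)) hy0
  obtain ⟨F, hF, hFw⟩ := exists_no_common hm H f y0 q fun z a b => hno z a (b.trans_lt q1)
  have hlt : ∀ i < n + 1, ∀ z : Y, c 0 ≤ z → z ≤ c (2 * (L + 1)) →
      (f ^ i * F * (f ^ i)⁻¹) • z = z → (f ^ (i + 1) * F * (f ^ (i + 1))⁻¹) • z ≠ z := by
    intro i hi z a b e1 e2
    rw [hconj] at e1 e2
    refine hFw ((f ^ i)⁻¹ • z) ?_ ?_ e1 ?_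
    · have := hm.le (f ^ i)⁻¹ ((c03 i (Finset.mem_range.2 (by omega))).trans (hc0 ▸ a))
      simpa using this
    · exact (hm.le (f ^ i)⁻¹ b).trans (q3 i (Finset.mem_range.2 (by omega)))
    · rw [pow_succ, mul_inv_rev, mul_smul] at e2
      rw [mul_smul, mul_smul, e2, smul_inv_smul]
  obtain ⟨x, l, l0, l1, l2, l3, l4⟩ := hL F
  obtain ⟨a, a1, a2, a3⟩ := hcmid L n (Nat.le_succ n)
  refine (track_chain hm
    (fun t => {z | t ≤ L + 1 ∧ c t ≤ z ∧ z ≤ c (2 * (L + 1) - t)}) x l ?_ ?_ (a := a) ?_ ?_).elim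
    fun N hN => hN (by
      rw [l1, Function.iterate_succ_apply', hf]
      simp [eng])
  · rintro g hg t z ⟨b1, b2, b3⟩
    obtain ⟨i, hi, e⟩ := l2 g hg
    obtain ⟨α, d1, d2, d3⟩ := hcmid t i hi
    obtain ⟨β, e1, e2, e3⟩ := hcmid (2 * (L + 1) - (t + 1)) i hi
    rw [show 2 * (L + 1) - (t + 1) + 1 = 2 * (L + 1) - t by omega] at e3
    exact ⟨α, β, (e α).2 (d1 F hF), (e β).2 (e1 F hF), d3.trans b2, b3.trans e2,
      fun x hx => ⟨by omega, d2.trans hx.1, hx.2.trans e3⟩⟩
  · refine l3.imp ?_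
    rintro g g' ⟨i, hi, e⟩ t z ⟨-, b2, b3⟩ e1 e2
    have a4 : c 0 ≤ z := (hcm (Nat.zero_le t)).trans b2
    have a5 : z ≤ c (2 * (L + 1)) := b3.trans (hcm (Nat.sub_le _ _))
    rcases e with e | e
    · exact hlt i hi z a4 a5 ((e.1 z).1 e1) ((e.2 z).1 e2)
    · exact hlt i hi z a4 a5 ((e.2 z).1 e2) ((e.1 z).1 e1)
  · rw [Ne, l4 a]
    exact hlt n (Nat.lt_succ_self n) a ((hcm (Nat.zero_le L)).trans a2)
      (a3.trans (hcm (by omega))) (a1 F hF)
  · rw [l0]
    exact ⟨Nat.le_succ L, a2, a3.trans (hcm (by omega))⟩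

end Pool.Agent.MP_f21dda_al.H92

end

-- part MP_f21dda_al.H92.Dyn
section

/-!
Engel elements of groups acting on a complete linear order.
-/

namespace Pool.Agent.MP_f21dda_al.H92

open Pool.Agent.MP_f36ac3_al Filter Set

variable {G Y : Type*} [Group G] [CompleteLinearOrder Y] [MulAction G Y]

theorem cof_pow (hm : Mono G Y) {n : ℕ} {f : G} (hf : IsEng n f) (H : Subgroup G)
    (hH : Cof {z : Y | ∀ u ∈ H, u • z = z}) (m : ℕ) :
    Cof {z : Y | ∀ j : ℕ, j ≤ m → ∀ u ∈ H, (f ^ j * u * (f ^ j)⁻¹) • z = z} := by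
  induction m with
  | zero =>
    intro y hy
    obtain ⟨z, hz, h⟩ := hH y hy
    refine ⟨z, fun j hj u hu => ?_, h⟩
    obtain rfl : j = 0 := by omega
    simpa using hz u hu
  | succ m ih =>
    let S : Set G := {g | ∃ j : ℕ, j ≤ m ∧ ∃ u ∈ H, g = f ^ j * u * (f ^ j)⁻¹}
    have h1 : Cof {z : Y | ∀ u ∈ Subgroup.closure S, u • z = z} := fun y hy => by
      obtain ⟨z, hz, h⟩ := ih y hy
      refine ⟨z, fun u hu => ?_, h⟩
      have : Subgroup.closure S ≤ MulAction.stabilizer G z := by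
        rw [Subgroup.closure_le]
        rintro _ ⟨j, hj, u, hu, rfl⟩
        exact hz j hj u hu
      exact this hu
    intro y hy
    obtain ⟨z, ⟨hz, hz'⟩, h⟩ := cof_conj hm hf _ h1 y hy
    refine ⟨z, fun j hj u hu => ?_, h⟩
    rcases j with _ | j
    · exact hz _ (Subgroup.subset_closure ⟨0, Nat.zero_le _, u, hu, rfl⟩)
    · have := hz' _ (Subgroup.subset_closure ⟨j, by omega, u, hu, rfl⟩)
      have e : f * (f ^ j * u * (f ^ j)⁻¹) * f⁻¹ = f ^ (j + 1) * u * (f ^ (j + 1))⁻¹ := by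
        rw [pow_succ']
        group
      rwa [e] at this

theorem cof_zpow (hm : Mono G Y) {n : ℕ} {f : G} (hf : IsEng n f) (H : Subgroup G)
    (hH : Cof {z : Y | ∀ u ∈ H, u • z = z}) :
    Cof {z : Y | ∀ j : ℤ, ∀ u ∈ H, u • f ^ j • z = f ^ j • z} := by
  intro y hy
  obtain ⟨z, hz, h⟩ := cof_pow hm hf H hH n y hy
  refine ⟨z, fun j u hu => ?_, h⟩
  have := hf.zpow_conj_mem (MulAction.stabilizer G z) u (fun i hi => hz i hi.le u hu) (-j)
  rw [MulAction.mem_stabilizer_iff, zpow_neg, inv_inv, mul_smul, mul_smul, inv_smul_eq_iff] at this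
  exact this

theorem fix_lim (hm : Mono G Y) {u : G} {x : ℕ → Y} {z : Y} (hx : ∀ k, u • x k = x k)
    (h1 : ∀ p, p < z → ∀ᶠ k in atTop, p < x k) (h2 : ∀ v, z < v → ∀ᶠ k in atTop, x k < v) :
    u • z = z := by
  have key : ∀ w : G, (∀ k, w • x k = x k) → ¬ w • z < z := fun w hw h => by
    have h3 : z < w⁻¹ • z := by simpa using hm.lt w⁻¹ h
    obtain ⟨k, a, b⟩ := ((h1 _ h).and (h2 _ h3)).exists
    have a' := hm.lt w⁻¹ a
    have b' := hm.lt w b
    rw [inv_smul_smul, fix_inv (hw k)] at a'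
    rw [smul_inv_smul, hw k] at b'
    exact lt_asymm a' b'
  rcases lt_trichotomy (u • z) z with h | h | h
  · exact (key u hx h).elim
  · exact h
  · exact (key u⁻¹ (fun k => fix_inv (hx k)) (by simpa using hm.lt u⁻¹ h)).elim

theorem cof_fix (hm : Mono G Y) {n : ℕ} {f : G} (hf : IsEng n f) (H : Subgroup G)
    (hH : Cof {z : Y | ∀ u ∈ H, u • z = z}) (hc : Cof {z : Y | f • z = z}) :
    Cof {z : Y | (∀ u ∈ H, u • z = z) ∧ f • z = z} := by
  intro y hy
  obtain ⟨α, hα, a1, a2⟩ := hc y hy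
  obtain ⟨z, hz, z1, z2⟩ := cof_zpow hm hf H hH α a2
  obtain ⟨β, hβ, b1, b2⟩ := hc z z2
  obtain ⟨z', c1, c2, c3, c4, c5⟩ := hm.exists_lim hα hβ z1 b1
  refine ⟨z', ⟨fun u hu => fix_lim hm (fun k => ?_) c4 c5, c3⟩, a1.trans c1, c2.trans_lt b2⟩
  simpa using hz k u hu

theorem fix_last (hm : Mono G Y) {n : ℕ} {f : G} (hf : IsEng n f) (H : Subgroup G)
    (hH : Cof {z : Y | ∀ u ∈ H, u • z = z}) {a : Y} (ha : a < ⊤) (hfa : f • a = a)
    (hlast : ∀ z, a ≤ z → z < ⊤ → f • z = z → z = a) : ∀ u ∈ H, u • a = a := by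
  obtain ⟨z, hz, z1, z2⟩ := cof_zpow hm hf H hH a ha
  have key : ∀ L : G, L • a = a → (∀ w : Y, L • w = w → f • w = w) → L • z ≤ z →
      (∀ k : ℕ, ∃ j : ℤ, L ^ k = f ^ j) → ∀ u ∈ H, u • a = a := fun L h1 h2 h3 h4 u hu => by
    obtain ⟨z', c1, -, c3, c4, c5⟩ := hm.exists_lim h1 (hm.smul_top L) z1 le_top
    have c6 : z' ≤ z := by
      by_contra hq
      obtain ⟨k, hk⟩ := (c4 z (not_le.1 hq)).exists
      have := hm.dual.pow_mono (g := L) (z := OrderDual.toDual z) h3 (Nat.zero_le k)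
      simp only [pow_zero, one_smul] at this
      exact lt_irrefl _ (hk.trans_le this)
    rw [← hlast z' c1 (c6.trans_lt z2) (h2 _ c3)]
    refine fix_lim hm (fun k => ?_) c4 c5
    obtain ⟨j, hj⟩ := h4 k
    rw [hj]
    exact hz j u hu
  rcases le_total (f • z) z with h | h
  · exact key f hfa (fun _ h => h) h fun k => ⟨k, by simp⟩
  · exact key f⁻¹ (fix_inv hfa) (fun _ h => by simpa using fix_inv h)
      (by simpa using hm.le f⁻¹ h) fun k => ⟨-k, by simp⟩

theorem exists_real_of_cof (hm : Mono G Y) (hG : Group.FG G)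
    (hA : ∀ a b : G, Cof {z : Y | a • z = z} → Cof {z : Y | b • z = z} →
      Cof {z : Y | (a * b) • z = z}) (hne : ∃ g : G, ¬ Cof {z : Y | g • z = z}) :
    ∃ (τ : G →* Multiplicative ℝ) (g : G), τ g ≠ 1 := by
  have hUA : ∀ a b : G, Up Y a → Cof {z : Y | b • z = z} → Up Y (a * b) := fun a b ha hb => by
    rcases hm.up_or (a * b) with h | h | h
    · exact h
    · have := hm.up_mul h ha
      rw [mul_inv_rev, inv_mul_cancel_right] at this
      exact (this.not_cof (cof_inv hb)).elim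
    · have := hA _ _ h (cof_inv hb)
      rw [mul_inv_cancel_right] at this
      exact (ha.not_cof this).elim
  have hQ : ∀ a : G, ¬ Up Y a⁻¹ ↔ Up Y a ∨ Cof {z : Y | a • z = z} := fun a => by
    refine ⟨fun h => (hm.up_or a).imp_right fun h' => h'.resolve_left h, ?_⟩
    rintro (h | h) h'
    · have := hm.up_mul h h'
      rw [mul_inv_cancel] at this
      exact this.not_cof fun y hy => ⟨y, one_smul _ _, le_rfl, hy⟩
    · exact h'.not_cof (cof_inv h)
  let C : Cone G :=
    { Q := fun a => ¬ Up Y a⁻¹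
      mul := fun a b ha hb => by
        rw [hQ] at ha hb ⊢
        rcases ha with ha | ha <;> rcases hb with hb | hb
        · exact Or.inl (hm.up_mul ha hb)
        · exact Or.inl (hUA _ _ ha hb)
        · have := hm.up_conj (hUA _ _ hb ha) a
          rw [← mul_assoc, mul_inv_cancel_right] at this
          exact Or.inl this
        · exact Or.inr (hA _ _ ha hb)
      conj := fun a b ha h => ha (by simpa [mul_assoc] using hm.up_conj h b)
      total := fun a => by
        rw [inv_inv, hQ]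
        tauto }
  refine C.exists_real hG ?_
  by_contra hc
  push Not at hc
  obtain ⟨g, hg⟩ := hne
  exact hg (((hQ g).1 (hc g)).resolve_left fun h => hc g⁻¹ (by rwa [inv_inv]))

end Pool.Agent.MP_f21dda_al.H92

end

-- part MP_f21dda_al.H92.Cone0
section

/-!
Invariant cones for Engel automorphisms.
-/

namespace Pool.Agent.MP_f21dda_al.H92

open Pool.Agent.MP_f36ac3_al Filter Set

universe u

variable {Q : Type*} [Group Q]

theorem LCone.one (C : LCone Q) : C.P 1 := by simpa using C.total 1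

theorem LCone.closure_mem (C : LCone Q) {S : Set Q} (h : ∀ s ∈ S, C.P s ∧ C.P s⁻¹) {a : Q}
    (ha : a ∈ Subgroup.closure S) : C.P a ∧ C.P a⁻¹ := by
  induction ha using Subgroup.closure_induction with
  | mem x hx => exact h x hx
  | one => simpa using C.one
  | mul x y _ _ hx hy => exact ⟨C.mul _ _ hx.1 hy.1, by simpa using C.mul _ _ hy.2 hx.2⟩
  | inv x _ hx => exact ⟨hx.2, by simpa using hx.1⟩

theorem cone0_ev (p : ℕ → Prop) (h : ∀ᶠ k in atTop, p k → p (k + 1)) :
    (∀ᶠ k in atTop, p k) ∨ ∀ᶠ k in atTop, ¬ p k := by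
  obtain ⟨k₀, hk₀⟩ := eventually_atTop.1 h
  by_cases hc : ∃ k, k₀ ≤ k ∧ p k
  · obtain ⟨k, h1, h2⟩ := hc
    refine Or.inl (eventually_atTop.2 ⟨k, fun j hj => ?_⟩)
    induction j, hj using Nat.le_induction with
    | base => exact h2
    | succ j hj ih => exact hk₀ j (h1.trans hj) ih
  · exact Or.inr (eventually_atTop.2 ⟨k₀, fun j hj hp => hc ⟨j, hj, hp⟩⟩)

/- PROOF.  Proper: if all generators and their inverses were in the limit, some `C i` would
contain them all, hence everything. -/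
theorem LCone.exists_lim (hQ : Group.FG Q) {ι : Type*} (𝒰 : Ultrafilter ι) (C : ι → LCone Q) :
    ∃ C' : LCone Q, ∀ q, C'.P q ↔ ∀ᶠ i in (𝒰 : Filter ι), (C i).P q := by
  obtain ⟨S, hS⟩ := hQ.out
  refine ⟨⟨fun q => ∀ᶠ i in (𝒰 : Filter ι), (C i).P q, fun a b ha hb => ?_, fun a => ?_, ?_⟩,
    fun _ => Iff.rfl⟩
  · filter_upwards [ha, hb] with i h1 h2 using (C i).mul a b h1 h2
  · exact Ultrafilter.eventually_or.1 (Eventually.of_forall fun i => (C i).total a)
  · by_contra hc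
    push Not at hc
    have h1 : ∀ᶠ i in (𝒰 : Filter ι), ∀ s ∈ S, (C i).P s ∧ (C i).P s⁻¹ :=
      (eventually_all_finset S).2 fun s _ => (hc s).and (hc s⁻¹)
    obtain ⟨i, hi⟩ := h1.exists
    obtain ⟨a, ha⟩ := (C i).proper
    have h2 : a ∈ Subgroup.closure (S : Set Q) := hS ▸ Subgroup.mem_top a
    exact ha ((C i).closure_mem (fun s hs => hi s hs) h2).1

/- PROOF (Rolle).  `a k = (α ^ k) q`, `(a k)⁻¹ * a (k + 1) = (α ^ k) (q⁻¹ * α q)`.  By downward induction
on the number of steps, `C.P ((α ^ k) q)` holds eventually or fails eventually.  Take the limit of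
the cones `q ↦ C.P ((α ^ k) q)` along `hyperfilter ℕ`. -/
theorem rolle (hQ : Group.FG Q) (α : MulAut Q) (n : ℕ)
    (hα : ∀ q, (fun q => q⁻¹ * α q)^[n] q = 1) (C : LCone Q) (N : Subgroup Q)
    (hN : ∀ x ∈ N, C.P x) (hNα : ∀ x ∈ N, α x ∈ N) :
    ∃ C' : LCone Q, (∀ q, C'.P (α q) ↔ C'.P q) ∧ ∀ x ∈ N, C'.P x := by
  have key : ∀ (m : ℕ) (q : Q), (fun q => q⁻¹ * α q)^[m] q = 1 →
      (∀ᶠ k : ℕ in atTop, C.P ((α ^ k) q)) ∨ ∀ᶠ k : ℕ in atTop, ¬ C.P ((α ^ k) q) := by
    intro m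
    induction m with
    | zero =>
      intro q hq
      have hq' : q = 1 := hq
      left
      exact Eventually.of_forall fun k => by rw [hq', map_one]; exact C.one
    | succ m ih =>
      intro q hq
      rw [Function.iterate_succ_apply] at hq
      have e : ∀ k : ℕ, (α ^ k) (q⁻¹ * α q) = ((α ^ k) q)⁻¹ * (α ^ (k + 1)) q := fun k => by
        rw [map_mul, map_inv, pow_succ, MulAut.mul_apply]
      rcases ih _ hq with h | h
      · refine cone0_ev _ ?_
        filter_upwards [h] with k hk h1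
        rw [e] at hk
        simpa using C.mul _ _ h1 hk
      · have := cone0_ev (fun k => ¬ C.P ((α ^ k) q)) (by
          filter_upwards [h] with k hk h1 h2
          have h3 := (C.total _).resolve_left hk
          rw [e] at h3
          exact h1 (by simpa using C.mul _ _ h2 h3))
        simpa only [not_not, or_comm] using this
  let D : ℕ → LCone Q := fun k =>
    { P := fun q => C.P ((α ^ k) q)
      mul := fun a b ha hb => by rw [map_mul]; exact C.mul _ _ ha hb
      total := fun a => by rw [map_inv]; exact C.total _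
      proper := by
        obtain ⟨a, ha⟩ := C.proper
        exact ⟨(α ^ k).symm a, by simpa using ha⟩ }
  obtain ⟨C', hC'⟩ := LCone.exists_lim hQ (hyperfilter ℕ) D
  have hle : (hyperfilter ℕ : Filter ℕ) ≤ atTop := Nat.cofinite_eq_atTop ▸ hyperfilter_le_cofinite
  have sh : ∀ q (k : ℕ), (α ^ k) (α q) = (α ^ (k + 1)) q := fun q k => by
    rw [pow_succ, MulAut.mul_apply]
  refine ⟨C', fun q => ?_, fun x hx => ?_⟩
  · rw [hC', hC']
    rcases key n q (hα q) with h | h
    · refine iff_of_true (hle ?_) (hle h)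
      have := (tendsto_add_atTop_nat 1).eventually h
      filter_upwards [this] with k hk
      show C.P ((α ^ k) (α q))
      rwa [sh]
    · refine iff_of_false (fun h' => ?_) fun h' => ?_
      · have := (tendsto_add_atTop_nat 1).eventually h
        obtain ⟨k, h1, h2⟩ := (h'.and (hle this)).exists
        have h3 : C.P ((α ^ k) (α q)) := h1
        rw [sh] at h3
        exact h2 h3
      · obtain ⟨k, h1, h2⟩ := (h'.and (hle h)).exists
        exact h2 h1
  · rw [hC']
    refine Eventually.of_forall fun k => hN _ ?_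
    induction k with
    | zero => simpa using hx
    | succ k ih =>
      rw [pow_succ', MulAut.mul_apply]
      exact hNα _ ih

/-- The group with the preorder given by a cone. -/
structure Pre {Γ : Type u} [Group Γ] (C : LCone Γ) : Type u where
  /-- The group element. -/
  val : Γ

instance {Γ : Type u} [Group Γ] (C : LCone Γ) : LE (Pre C) := ⟨fun x y => C.P (x.val⁻¹ * y.val)⟩

instance {Γ : Type u} [Group Γ] (C : LCone Γ) : @Std.Total (LowerSet (Pre C)) (· ≤ ·) :=
  ⟨fun S T => by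
    by_contra hc
    rw [not_or] at hc
    obtain ⟨x, hx, hx'⟩ := Set.not_subset.1 (show ¬ (S : Set (Pre C)) ⊆ T from hc.1)
    obtain ⟨y, hy, hy'⟩ := Set.not_subset.1 (show ¬ (T : Set (Pre C)) ⊆ S from hc.2)
    rcases C.total (x.val⁻¹ * y.val) with h | h
    · exact hx' (T.lower (show x ≤ y from h) hy)
    · exact hy' (S.lower (show C.P (y.val⁻¹ * x.val) by simpa using h) hx)⟩

/-- The cuts form a complete linear order. -/
@[reducible] noncomputable def cone0_clo {Γ : Type u} [Group Γ] (C : LCone Γ) :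
    CompleteLinearOrder (LowerSet (Pre C)) :=
  { LowerSet.completelyDistribLattice,
    (by classical exact Lattice.toLinearOrder _ : LinearOrder (LowerSet (Pre C))) with }

/-- The action on cuts. -/
@[reducible] def cone0_act {Γ : Type u} [Group Γ] (C : LCone Γ) :
    MulAction Γ (LowerSet (Pre C)) where
  smul g S := ⟨{x | Pre.mk (g⁻¹ * x.val) ∈ S}, fun a b h hx => S.lower (by
    have h1 : C.P (b.val⁻¹ * a.val) := h
    show C.P ((g⁻¹ * b.val)⁻¹ * (g⁻¹ * a.val))
    simpa [mul_assoc] using h1) hx⟩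
  one_smul S := LowerSet.ext (Set.ext fun x => by
    show Pre.mk (1⁻¹ * x.val) ∈ S ↔ x ∈ S
    rw [inv_one, one_mul])
  mul_smul g h S := LowerSet.ext (Set.ext fun x => by
    show Pre.mk ((g * h)⁻¹ * x.val) ∈ S ↔ Pre.mk (h⁻¹ * (g⁻¹ * x.val)) ∈ S
    rw [mul_inv_rev, mul_assoc])

/- PROOF.  `Ω = Γ ⧸ (P ∩ P⁻¹)` is linearly ordered by `[x] ≤ [y] ↔ P (x⁻¹ * y)`; `Y = LowerSet Ω` with
`g • S = {x | g⁻¹ • x ∈ S}`; `o = Iic [1]`. -/
theorem exists_action {Γ : Type u} [Group Γ] (C : LCone Γ) :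
    ∃ (Y : Type u) (_ : CompleteLinearOrder Y) (_ : MulAction Γ Y) (o : Y), Mono Γ Y ∧ o < ⊤ ∧
      (∀ g : Γ, C.P g → C.P g⁻¹ → g • o = o) ∧
      (∀ g : Γ, (∀ x, C.P (x⁻¹ * g * x) ∧ C.P (x⁻¹ * g⁻¹ * x)) → ∀ z : Y, g • z = z) ∧
      ∀ z z' : Y, o ≤ z → z' < ⊤ → ∃ g : Γ, z' < g • o ∧ z' < g • z := by
  let _ := cone0_clo C
  let _ := cone0_act C
  have hmem : ∀ (g : Γ) (x : Pre C) (S : LowerSet (Pre C)), x ∈ g • S ↔ Pre.mk (g⁻¹ * x.val) ∈ S :=
    fun _ _ _ => Iff.rfl
  have hle : ∀ S T : LowerSet (Pre C), S ≤ T ↔ ∀ x, x ∈ S → x ∈ T := fun _ _ => Iff.rfl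
  have hm : Mono Γ (LowerSet (Pre C)) := fun g =>
    Monotone.strictMono_of_injective (fun S T h => (hle _ _).2 fun x hx => (hle _ _).1 h _ hx)
      (MulAction.injective g)
  let o : LowerSet (Pre C) := ⟨{x | C.P x.val⁻¹}, fun a b h ha => by
    have h1 : C.P (b.val⁻¹ * a.val) := h
    have h2 : C.P a.val⁻¹ := ha
    show C.P b.val⁻¹
    simpa using C.mul _ _ h1 h2⟩
  have ho : ∀ x : Pre C, x ∈ o ↔ C.P x.val⁻¹ := fun _ => Iff.rfl
  refine ⟨LowerSet (Pre C), inferInstance, inferInstance, o, hm, ?_, fun g h1 h2 => ?_,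
    fun g hg z => ?_, fun z z' hz hz' => ?_⟩
  · obtain ⟨a, ha⟩ := C.proper
    refine lt_top_iff_ne_top.2 fun h => ha ?_
    have : Pre.mk a⁻¹ ∈ o := by
      rw [h]
      exact LowerSet.mem_top
    simpa [ho] using this
  · refine LowerSet.ext (Set.ext fun x => ?_)
    show x ∈ g • o ↔ x ∈ o
    rw [hmem, ho, ho]
    exact ⟨fun h => by simpa using C.mul _ _ h h2, fun h => by simpa using C.mul _ _ h h1⟩
  · refine LowerSet.ext (Set.ext fun x => ?_)
    show x ∈ g • z ↔ x ∈ z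
    rw [hmem]
    refine ⟨fun h => z.lower ?_ h, fun h => z.lower ?_ h⟩
    · show C.P (x.val⁻¹ * (g⁻¹ * x.val))
      simpa [mul_assoc] using (hg x.val).2
    · show C.P ((g⁻¹ * x.val)⁻¹ * x.val)
      simpa [mul_assoc] using (hg x.val).1
  · have : ∃ x, x ∉ z' := by
      by_contra hc
      push Not at hc
      exact hz'.ne (eq_top_iff.2 ((hle _ _).2 fun x _ => hc x))
    obtain ⟨x, hx⟩ := this
    have h1 : z' < x.val • o := by
      refine lt_of_le_of_ne ((hle _ _).2 fun y hy => ?_) fun h => hx ?_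
      · rw [hmem, ho]
        rcases C.total (x.val⁻¹ * y.val) with h | h
        · exact (hx (z'.lower (show x ≤ y from h) hy)).elim
        · exact h
      · rw [h, hmem, ho]
        simpa using C.one
    exact ⟨x.val, h1, h1.trans_le (hm.le _ hz)⟩

end Pool.Agent.MP_f21dda_al.H92

end

-- part MP_f21dda_al.H92.Cone1
section

/-!
Invariant cones for Engel automorphisms.
-/

namespace Pool.Agent.MP_f21dda_al.H92

open Pool.Agent.MP_f36ac3_al Filter Set

variable {Q : Type*} [Group Q]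

theorem cone1_cof_conj {G Y : Type*} [Group G] [CompleteLinearOrder Y] [MulAction G Y]
    (hm : Mono G Y) {f : G} (h : Cof {z : Y | f • z = z}) (g : G) :
    Cof {z : Y | (g * f * g⁻¹) • z = z} := fun y hy => by
  obtain ⟨z, hz, h1, h2⟩ := h (g⁻¹ • y) (hm.lt_top _ hy)
  have hz' : f • z = z := hz
  refine ⟨g • z, ?_, by simpa using hm.le g h1, hm.lt_top g h2⟩
  show (g * f * g⁻¹) • g • z = g • z
  rw [mul_smul, mul_smul, inv_smul_smul, hz']

theorem cone1_finite {G Y : Type*} [Group G] [CompleteLinearOrder Y] [MulAction G Y]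
    (hm : Mono G Y) {n : ℕ} {f : G} (hf : IsEng n f) (h : Cof {z : Y | f • z = z}) {ι : Type*}
    (g : ι → G) (s : Finset ι) :
    Cof {z : Y | f • z = z ∧ ∀ i ∈ s, (g i * f * (g i)⁻¹) • z = z} := by
  classical
  induction s using Finset.induction_on with
  | empty => simpa using h
  | insert j s _ ih =>
    have h1 := cof_fix hm (hf.conj (g j))
      (fixingSubgroup G {z : Y | f • z = z ∧ ∀ i ∈ s, (g i * f * (g i)⁻¹) • z = z})
      (fun y hy => by
        obtain ⟨z, hz, h2⟩ := ih y hy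
        exact ⟨z, fun u hu => (mem_fixingSubgroup_iff G).1 hu z hz, h2⟩)
      (cone1_cof_conj hm h (g j))
    intro y hy
    obtain ⟨z, hz, h2⟩ := h1 y hy
    refine ⟨z, ⟨hz.1 f ((mem_fixingSubgroup_iff G).2 fun _ hw => hw.1), fun i hi => ?_⟩, h2⟩
    rcases Finset.mem_insert.1 hi with rfl | hi
    · exact hz.2
    · exact hz.1 _ ((mem_fixingSubgroup_iff G).2 fun _ hw => hw.2 i hi)

theorem cone1_zpow (α : MulAut Q) (C : LCone Q) (hinv : ∀ q, C.P (α q) ↔ C.P q) (k : ℤ) (q : Q) :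
    C.P ((α ^ k) q) ↔ C.P q := by
  induction k using Int.induction_on generalizing q with
  | zero => simp
  | succ k ih => rw [zpow_add_one, MulAut.mul_apply, ih, hinv]
  | pred k ih =>
    rw [zpow_sub_one, MulAut.mul_apply, ih, ← hinv]
    simp

/- PROOF.  `Γ = Q ⋊[zpowersHom α] Multiplicative ℤ` with the cone `γ ↦ C.P γ.left`; `f = inr (ofAdd 1)`
is Engel (`IsEng (n + 1) f`), fixes `o`; in the last clause of `exists_action` one may take `g` in `Q`
for `z = o`, so `Q` fixes no point of `[o, ⊤)` and the orbit of any such point is cofinal.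
For `o ≤ z < ⊤`, `q ↦ z ≤ inl q • z` is a cone containing `N`.
If `Fix f` is cofinal, so is `Fix (q⁻¹ f q)`, and by `cof_fix` and induction every finite set of
conjugates of `f` has a common fixed point in `[o, ⊤)`; take the limit along an ultrafilter
refining `atTop` on `Finset Q`.  Otherwise `a = sSup {z < ⊤ | f • z = z}`; by `fix_last` (for
`H = zpowers (g⁻¹ q g)`) an element `q` of `Q` has cofinal fixed points iff it fixes the orbit of `a`;
`exists_real_of_cof` for the action of `Q` (`MulAction.compHom`) contradicts `hno`. -/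
theorem cone_step (hQ : Group.FG Q) (α : MulAut Q) (n : ℕ)
    (hα : ∀ q, (fun q => q⁻¹ * α q)^[n] q = 1) (C : LCone Q) (hinv : ∀ q, C.P (α q) ↔ C.P q)
    (N : Subgroup Q) [N.Normal] (hN : ∀ x ∈ N, C.P x)
    (hno : ∀ (τ : Q →* Multiplicative ℝ) (q : Q), τ q = 1) :
    ∃ C' : LCone Q, ∀ x ∈ N ⊔ Subgroup.closure (Set.range fun q => q⁻¹ * α q), C'.P x := by
  classical
  let φ : Multiplicative ℤ →* MulAut Q := zpowersHom (MulAut Q) α
  have hφ : ∀ k q, C.P (φ k q) ↔ C.P q := fun k q => cone1_zpow α C hinv _ q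
  let D : LCone (Q ⋊[φ] Multiplicative ℤ) :=
    { P := fun γ => C.P γ.left
      mul := fun a b ha hb => C.mul _ _ ha ((hφ _ _).2 hb)
      total := fun a => (C.total a.left).imp_right fun h => (hφ _ _).2 h
      proper := by
        obtain ⟨a, ha⟩ := C.proper
        exact ⟨SemidirectProduct.inl a, ha⟩ }
  let i : Q →* Q ⋊[φ] Multiplicative ℤ := SemidirectProduct.inl
  let f : Q ⋊[φ] Multiplicative ℤ := SemidirectProduct.inr (Multiplicative.ofAdd 1)
  have hfi : ∀ q, f * i q * f⁻¹ = i (α q) := fun q => by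
    have := SemidirectProduct.inl_aut (φ := φ) (Multiplicative.ofAdd 1) q
    rw [map_inv] at this
    rw [← this]
    simp [φ, i]
  have hf : IsEng (n + 1) f := fun x => by
    have h1 : ∀ (m : ℕ) (q : Q), (eng f)^[m] (i q) = i ((fun q => q⁻¹ * α q)^[m] q) := fun m => by
      induction m with
      | zero => intro q; rfl
      | succ m ih =>
        intro q
        rw [Function.iterate_succ_apply, Function.iterate_succ_apply, ← ih, eng, hfi, map_mul,
          map_inv]
    have h2 : eng f x = i (eng f x).left := by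
      have h3 := SemidirectProduct.inl_left_mul_inr_right (eng f x)
      have h4 : (eng f x).right = 1 := by
        simp only [eng, SemidirectProduct.mul_right, SemidirectProduct.inv_right]
        rw [mul_comm f.right, mul_inv_cancel_right, inv_mul_cancel]
      rw [h4, map_one, mul_one] at h3
      exact h3.symm
    rw [Function.iterate_succ_apply, h2, h1, hα, map_one]
  obtain ⟨Y, _, _, o, hm, ho, hfix, htriv, hcof⟩ := exists_action D
  have hro : ∀ k : Multiplicative ℤ,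
      (SemidirectProduct.inr k : Q ⋊[φ] Multiplicative ℤ) • o = o := fun k =>
    hfix _ C.one (by rw [← map_inv]; exact C.one)
  have hNt : ∀ x ∈ N, ∀ z : Y, i x • z = z := fun x hx => by
    have key : ∀ x ∈ N, ∀ y : Q ⋊[φ] Multiplicative ℤ, D.P (y⁻¹ * i x * y) := fun x hx y => by
      have e : (y⁻¹ * i x * y).left = φ y.right⁻¹ (y.left⁻¹ * x * y.left) := by
        simp [i, map_mul]
      show C.P (y⁻¹ * i x * y).left
      rw [e, hφ]
      exact hN _ (Subgroup.Normal.conj_mem' inferInstance x hx y.left)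
    exact htriv _ fun y => ⟨key x hx y, by rw [← map_inv]; exact key _ (N.inv_mem hx) y⟩
  have horb : ∀ z z' : Y, o ≤ z → z' < ⊤ → ∃ q, z' < i q • z := fun z z' hz hz' => by
    obtain ⟨g, hg, -⟩ := hcof z z' hz hz'
    rw [← SemidirectProduct.inl_left_mul_inr_right g, mul_smul, hro] at hg
    exact ⟨g.left, hg.trans_le (hm.le _ hz)⟩
  have hcone : ∀ z : Y, o ≤ z → z < ⊤ → ∃ E : LCone Q, ∀ q, i q • z = z → E.P q ∧ E.P q⁻¹ :=
    fun z h1 h2 => by
      refine ⟨⟨fun q => z ≤ i q • z, fun a b ha hb => ?_, fun a => ?_, ?_⟩, fun q hq => ⟨hq.ge, ?_⟩⟩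
      · rw [map_mul, mul_smul]
        exact ha.trans (hm.le _ hb)
      · refine (le_total z (i a • z)).imp_right fun h => ?_
        rw [map_inv]
        simpa using hm.le (i a)⁻¹ h
      · obtain ⟨q, hq⟩ := horb z z h1 h2
        refine ⟨q⁻¹, not_le.2 ?_⟩
        rw [map_inv]
        simpa using hm.lt (i q)⁻¹ hq
      · show z ≤ i q⁻¹ • z
        rw [map_inv, fix_inv hq]
  by_cases hc : Cof {z : Y | f • z = z}
  · have h1 : ∀ s : Finset Q, ∃ E : LCone Q, (∀ x ∈ N, E.P x ∧ E.P x⁻¹) ∧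
        ∀ q ∈ s, E.P (q⁻¹ * α q) ∧ E.P (q⁻¹ * α q)⁻¹ := fun s => by
      obtain ⟨z, hz, h2, h3⟩ := cone1_finite hm hf hc (fun q => (i q)⁻¹) s o ho
      obtain ⟨E, hE⟩ := hcone z h2 h3
      refine ⟨E, fun x hx => hE x (hNt x hx z), fun q hq => hE _ ?_⟩
      have h4 := hz.2 q hq
      have e : i (q⁻¹ * α q) = (i q)⁻¹ * f * (i q)⁻¹⁻¹ * f⁻¹ := by
        rw [map_mul, map_inv, ← hfi, inv_inv]
        simp only [mul_assoc]
      rw [e, mul_smul, fix_inv hz.1, h4]
    choose E hE1 hE2 using h1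
    obtain ⟨C', hC'⟩ := LCone.exists_lim hQ (Ultrafilter.of (atTop : Filter (Finset Q))) E
    refine ⟨C', fun x hx => ?_⟩
    rw [← N.closure_eq, ← Subgroup.closure_union] at hx
    refine (C'.closure_mem ?_ hx).1
    rintro s (hs | ⟨q, rfl⟩)
    · rw [hC', hC']
      exact ⟨Eventually.of_forall fun t => (hE1 t s hs).1,
        Eventually.of_forall fun t => (hE1 t s hs).2⟩
    · rw [hC', hC']
      have h2 : ∀ᶠ t in (Ultrafilter.of (atTop : Filter (Finset Q)) : Filter (Finset Q)), q ∈ t :=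
        Ultrafilter.of_le _ ((eventually_ge_atTop {q}).mono fun t ht =>
          ht (Finset.mem_singleton_self q))
      exact ⟨h2.mono fun t ht => (hE2 t q ht).1, h2.mono fun t ht => (hE2 t q ht).2⟩
  · exfalso
    obtain ⟨y, hy, hy'⟩ : ∃ y : Y, y < ⊤ ∧ ∀ z, f • z = z → z < ⊤ → z ≤ y := by
      by_contra h
      push Not at h
      exact hc fun y hy => by
        obtain ⟨z, h1, h2, h3⟩ := h y hy
        exact ⟨z, h1, h3.le, h2⟩
    let a : Y := sSup {z | z < ⊤ ∧ f • z = z}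
    have ha : a < ⊤ := (sSup_le fun z hz => hy' z hz.2 hz.1).trans_lt hy
    have hle : ∀ z, z < ⊤ → f • z = z → z ≤ a := fun z h1 h2 => le_sSup ⟨h1, h2⟩
    have hfa : f • a = a := by
      refine le_antisymm ?_ (sSup_le fun z hz => hz.2.ge.trans (hm.le f (hle z hz.1 hz.2)))
      have : a ≤ f⁻¹ • a :=
        sSup_le fun z hz => (fix_inv hz.2).ge.trans (hm.le f⁻¹ (hle z hz.1 hz.2))
      simpa using hm.le f this
    have hoa : o ≤ a := hle o ho (hro _)
    have hiff : ∀ q, Cof {z : Y | i q • z = z} ↔ ∀ g, i q • i g • a = i g • a := fun q => by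
      refine ⟨fun h g => ?_, fun h y hy => ?_⟩
      · have h1 := cone1_cof_conj hm h (i g)⁻¹
        have h2 := fix_last hm hf (Subgroup.zpowers ((i g)⁻¹ * i q * (i g)⁻¹⁻¹))
          (fun y hy => by
            obtain ⟨z, hz, h3⟩ := h1 y hy
            refine ⟨z, fun u hu => ?_, h3⟩
            exact (Subgroup.zpowers_le_of_mem
              (MulAction.mem_stabilizer_iff.2 hz) hu : u ∈ MulAction.stabilizer _ z))
          ha hfa (fun z h3 h4 h5 => le_antisymm (hle z h4 h5) h3) _ (Subgroup.mem_zpowers _)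
        rwa [inv_inv, mul_smul, mul_smul, inv_smul_eq_iff] at h2
      · obtain ⟨g, hg⟩ := horb a y hoa hy
        exact ⟨i g • a, h g, hg.le, hm.lt_top _ ha⟩
    let _ : MulAction Q Y := MulAction.compHom Y i
    have hs : ∀ (q : Q) (z : Y), q • z = i q • z := fun _ _ => rfl
    have hm' : Mono Q Y := fun q => hm (i q)
    obtain ⟨τ, q, hq⟩ := exists_real_of_cof hm' hQ (fun u v hu hv => by
      simp only [hs] at hu hv ⊢
      rw [hiff] at hu hv ⊢
      intro g
      rw [map_mul, mul_smul, hv, hu]) (by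
      obtain ⟨g, hg⟩ := horb a a hoa ha
      refine ⟨g, fun h => ?_⟩
      simp only [hs] at h
      have := (hiff g).1 h 1
      rw [map_one, one_smul] at this
      exact hg.ne' this)
    exact hq (hno τ q)

end Pool.Agent.MP_f21dda_al.H92

end

-- part MP_f21dda_al.H92.Cone
section

/-!
Invariant cones for Engel automorphisms.
-/

namespace Pool.Agent.MP_f21dda_al.H92

open Pool.Agent.MP_f36ac3_al Filter Set

section

variable {K : Type*} [Group K] (Q : Subgroup K) [Q.Normal]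

/-- The subgroup generated by the commutators of `Q` with the elements of `R`. -/
def comms (R : Set K) : Subgroup Q :=
  Subgroup.closure {x | ∃ y ∈ R, ∃ q : Q, x = q⁻¹ * MulAut.conjNormal y q}

variable {Q}

theorem mem_comms {R : Set K} {y : K} (hy : y ∈ R) (q : Q) :
    q⁻¹ * MulAut.conjNormal y q ∈ comms Q R := Subgroup.subset_closure ⟨y, hy, q, rfl⟩

theorem comms_mono {R R' : Set K} (h : R ⊆ R') : comms Q R ≤ comms Q R' :=
  Subgroup.closure_mono fun _ ⟨y, a, b⟩ => ⟨y, h a, b⟩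

theorem comms_normal (R : Set K) : (comms Q R).Normal := by
  refine ⟨fun x hx g => ?_⟩
  have : comms Q R ≤ (comms Q R).comap (MulAut.conj g).toMonoidHom := by
    refine (Subgroup.closure_le _).2 ?_
    rintro _ ⟨y, hy, q, rfl⟩
    have h := mul_mem (mem_comms hy (q * g⁻¹)) (inv_mem (mem_comms hy g⁻¹))
    show g * (q⁻¹ * MulAut.conjNormal y q) * g⁻¹ ∈ comms Q R
    convert h using 1
    simp only [map_mul, map_inv]
    group
  exact this hx

variable (Q)

/-- The elements acting trivially modulo `comms Q R`. -/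
def triv (R : Set K) : Subgroup K where
  carrier := {k | ∀ q : Q, q⁻¹ * MulAut.conjNormal k q ∈ comms Q R}
  one_mem' := fun q => by simp
  mul_mem' := fun {a b} ha hb q => by
    have h := mul_mem (hb q) (ha (MulAut.conjNormal b q))
    convert h using 1
    simp only [map_mul, MulAut.mul_apply]
    group
  inv_mem' := fun {a} ha q => by
    have h := inv_mem (ha (MulAut.conjNormal a⁻¹ q))
    convert h using 1
    simp

variable {Q}

theorem mem_triv {R : Set K} {k : K} :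
    k ∈ triv Q R ↔ ∀ q : Q, q⁻¹ * MulAut.conjNormal k q ∈ comms Q R := Iff.rfl

theorem le_normalizer_triv (R : Set K) : Q ≤ Subgroup.normalizer (triv Q R : Set K) := by
  have key : ∀ g ∈ Q, ∀ k ∈ triv Q R, g * k * g⁻¹ ∈ triv Q R := fun g hg k hk q => by
    have h := (comms_normal R).conj_mem _ (hk ((⟨g, hg⟩ : Q)⁻¹ * q * ⟨g, hg⟩)) ⟨g, hg⟩
    convert h using 1
    ext
    simp only [Subgroup.coe_mul, Subgroup.coe_inv, MulAut.conjNormal_apply]
    group
  intro g hg
  rw [Subgroup.mem_normalizer_iff]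
  refine fun k => ⟨key g hg k, fun h => ?_⟩
  have := key g⁻¹ (inv_mem hg) _ h
  simpa [mul_assoc] using this

end

/-- The elements equivalent to the identity. -/
def LCone.sym {G : Type*} [Group G] (C : LCone G) : Subgroup G where
  carrier := {x | C.P x ∧ C.P x⁻¹}
  one_mem' := by simpa using C.total 1
  mul_mem' := fun {a b} ha hb => ⟨C.mul _ _ ha.1 hb.1, by simpa using C.mul _ _ hb.2 ha.2⟩
  inv_mem' := fun {a} ha => ⟨ha.2, by simpa using ha.1⟩

theorem exists_real {K : Type*} [Group K] (n : ℕ)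
    (hgen : Subgroup.closure {f : K | IsEng n f} = ⊤) (Q : Subgroup K) [Q.Normal] (hQ : Group.FG Q)
    (c : ℕ) (hc : (⊤ : Subgroup K).lowerCentralSeries c ≤ Q) (C : LCone Q) :
    ∃ (τ : Q →* Multiplicative ℝ) (q : Q), τ q ≠ 1 := by
  by_contra hno
  push Not at hno
  let S : Set (Set K) :=
    {R | R ⊆ {f : K | IsEng n f} ∧ ∃ C : LCone Q, ∀ x ∈ comms Q R, C.P x}
  obtain ⟨R, -, ⟨hRO, D, hD⟩, hmax⟩ := zorn_subset_nonempty S (fun ch hS hch hne => by
    refine ⟨⋃₀ ch, ⟨sUnion_subset fun t ht => (hS ht).1, ?_⟩, fun s hs => subset_sUnion_of_mem hs⟩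
    have : Nonempty ch := hne.to_subtype
    have : IsDirectedOrder ch := ⟨fun a b => by
      rcases hch.total a.2 b.2 with h | h
      · exact ⟨b, h, le_rfl⟩
      · exact ⟨a, le_rfl, h⟩⟩
    choose E hE using fun t : ch => (hS t.2).2
    obtain ⟨C', hC'⟩ := LCone.exists_lim hQ (Ultrafilter.of (atTop : Filter ch)) E
    have : comms Q (⋃₀ ch) ≤ C'.sym := by
      refine (Subgroup.closure_le _).2 ?_
      rintro _ ⟨y, ⟨t, ht, hy⟩, q, rfl⟩
      have h : ∀ x ∈ comms Q t, C'.P x := fun x hx =>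
        (hC' x).2 (Ultrafilter.of_le _ ((eventually_ge_atTop (⟨t, ht⟩ : ch)).mono fun t' h' =>
          hE t' x (comms_mono h' hx)))
      exact ⟨h _ (mem_comms hy q), h _ (inv_mem (mem_comms hy q))⟩
    exact ⟨C', fun x hx => (this hx).1⟩) ∅ ⟨empty_subset _, C, fun x hx => by
      have : comms Q (∅ : Set K) ≤ C.sym :=
        (Subgroup.closure_le _).2 fun _ ⟨_, h, _⟩ => h.elim
      exact (this hx).1⟩
  have hRU : ∀ r ∈ R, r ∈ triv Q R := fun r hr => mem_comms hr
  have hstep : ∀ y, IsEng n y → (∀ r ∈ R, y * r * y⁻¹ ∈ triv Q R) → y ∈ R := fun y hy h => by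
    have hα : ∀ q : Q, (fun q => q⁻¹ * MulAut.conjNormal y q)^[n] q = 1 := fun q => by
      have : ∀ (k : ℕ) (q : Q), (((fun q => q⁻¹ * MulAut.conjNormal y q)^[k] q : Q) : K) =
          (eng y)^[k] q := fun k => by
        induction k with
        | zero => exact fun _ => rfl
        | succ k ih => exact fun q => ih _
      exact Subtype.ext ((this n q).trans (hy q))
    have hinv : comms Q R ≤ (comms Q R).comap (MulAut.conjNormal y : MulAut Q).toMonoidHom := by
      refine (Subgroup.closure_le _).2 ?_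
      rintro _ ⟨r, hr, q, rfl⟩
      have h' := h r hr (MulAut.conjNormal y q)
      show MulAut.conjNormal y (q⁻¹ * MulAut.conjNormal r q) ∈ comms Q R
      convert h' using 1
      simp
    obtain ⟨C₁, h1, h2⟩ := rolle hQ _ n hα D (comms Q R) hD fun x hx => hinv hx
    have := comms_normal (Q := Q) R
    obtain ⟨C₂, h3⟩ := cone_step hQ _ n hα C₁ h1 (comms Q R) h2 hno
    refine hmax (y := insert y R) ⟨insert_subset hy hRO, C₂, fun x hx => h3 x ?_⟩
      (subset_insert _ _) (mem_insert _ _)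
    refine (Subgroup.closure_le _).2 ?_ hx
    rintro _ ⟨r, rfl | hr, q, rfl⟩
    · exact Subgroup.mem_sup_right (Subgroup.subset_closure ⟨q, rfl⟩)
    · exact Subgroup.mem_sup_left (mem_comms hr q)
  have hW : ∀ y, IsEng n y → y ∈ triv Q R ⊔ Q → y ∈ R := fun y hy h =>
    hstep y hy fun r hr => (Subgroup.mem_normalizer_iff.1
      (sup_le Subgroup.le_normalizer (le_normalizer_triv R) h) r).1 (hRU r hr)
  have hO : {f : K | IsEng n f} ⊆ (triv Q R ⊔ Q : Subgroup K) := by
    by_contra h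
    obtain ⟨y, hy, h1, h2⟩ := exists_normalizing {f : K | IsEng n f}
      (fun x hx g => IsEng.conj hx g) _ c (hc.trans le_sup_right) h
    refine h1 (Subgroup.mem_sup_left (hRU y (hstep y hy fun r hr => hRU _ (hW _ ?_ ?_))))
    · exact IsEng.conj (hRO hr) y
    · exact (h2 r (hRO hr) (Subgroup.mem_sup_left (hRU r hr))).1
  have hU : ∀ k, k ∈ triv Q R := fun k =>
    (Subgroup.closure_le _).2 (fun y hy => hRU y (hW y hy (hO hy))) (hgen ▸ Subgroup.mem_top k)
  let C' : Cone Q :=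
    { Q := D.P
      mul := D.mul
      conj := fun a b ha => by
        have := D.mul _ _ ha (hD _ (hU (b : K)⁻¹ a))
        convert this using 1
        ext
        simp [mul_assoc]
      total := D.total }
  obtain ⟨τ, q, h⟩ := C'.exists_real hQ D.proper
  exact h (hno τ q)

end Pool.Agent.MP_f21dda_al.H92

end

-- part MP_f21dda_al.H92.Poly
section

/-!
Small tools: coefficients of polynomial functions, the Leibniz rule, naturality of the truncated
exponential.
-/

namespace Pool.Agent.MP_f21dda_al.H92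

open Finset

theorem coeff_mem {V : Type*} [AddCommGroup V] [Module ℚ V] (K : Submodule ℚ V) (D : ℕ)
    (v : ℕ → V) (Z : Set ℚ) (hZ : Z.Infinite) (h : ∀ c ∈ Z, ∑ i ∈ range D, c ^ i • v i ∈ K) :
    ∀ i < D, v i ∈ K := by
  intro i hi
  rw [← Submodule.Quotient.mk_eq_zero, ← Module.forall_dual_apply_eq_zero_iff ℚ]
  intro φ
  set p : Polynomial ℚ := ∑ j ∈ range D, Polynomial.monomial j (φ (K.mkQ (v j))) with hp
  have hp0 : p = 0 := by
    refine Polynomial.eq_zero_of_infinite_isRoot p (hZ.mono fun c hc => ?_)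
    have h1 : φ (K.mkQ (∑ j ∈ range D, c ^ j • v j)) = 0 := by
      rw [Submodule.mkQ_apply, (Submodule.Quotient.mk_eq_zero K).2 (h c hc), map_zero]
    simp only [map_sum, map_smul, smul_eq_mul] at h1
    simp only [Set.mem_ofPred_eq, Polynomial.IsRoot, hp, Polynomial.eval_finsetSum,
      Polynomial.eval_monomial]
    rw [← h1]
    exact Finset.sum_congr rfl fun j _ => mul_comm _ _
  have := congrArg (fun q => Polynomial.coeff q i) hp0
  simpa [hp, Polynomial.finsetSum_coeff, Polynomial.coeff_monomial, hi] using this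

/-- The iterated Leibniz rule for a bilinear map. -/
theorem leibniz {U V W : Type*} [AddCommGroup U] [Module ℚ U] [AddCommGroup V] [Module ℚ V]
    [AddCommGroup W] [Module ℚ W] (β : U →ₗ[ℚ] V →ₗ[ℚ] W) (f : Module.End ℚ U)
    (g : Module.End ℚ V) (h : Module.End ℚ W) (H : ∀ x y, h (β x y) = β (f x) y + β x (g y))
    (k : ℕ) (x : U) (y : V) :
    (h ^ k) (β x y) = ∑ i ∈ range (k + 1), (k.choose i : ℚ) • β ((f ^ i) x) ((g ^ (k - i)) y) := by
  induction k with
  | zero => simp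
  | succ k ih =>
    rw [pow_succ', Module.End.mul_apply, ih, map_sum]
    simp only [map_smul, H, smul_add, sum_add_distrib]
    rw [sum_range_succ' (n := k + 1)]
    simp only [Nat.choose_succ_succ', Nat.cast_add, add_smul, sum_add_distrib, Nat.choose_zero_right,
      Nat.cast_one, one_smul, pow_zero, Module.End.one_apply, Nat.sub_zero, Nat.add_sub_add_right]
    rw [add_assoc]
    congr 1
    · exact sum_congr rfl fun i _ => by rw [pow_succ', Module.End.mul_apply]
    · rw [sum_range_succ' (n := k), sum_range_succ (n := k)]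
      simp only [Nat.choose_succ_self, Nat.cast_zero, zero_smul, add_zero, Nat.choose_zero_right,
        Nat.cast_one, one_smul, pow_zero, Module.End.one_apply, Nat.sub_zero]
      congr 1
      · refine sum_congr rfl fun i hi => ?_
        have : k - i = k - (i + 1) + 1 := by have := mem_range.1 hi; omega
        rw [this, pow_succ' g, Module.End.mul_apply]
      · rw [pow_succ', Module.End.mul_apply]

section

variable {S S' : Type*} [Ring S] [Algebra ℚ S] [Ring S'] [Algebra ℚ S']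

theorem map_texp (φ : S →+* S') (M : ℕ) (x : S) : φ (texp M x) = texp M (φ x) := by
  simp only [texp, map_sum, map_rat_smul, map_pow]

omit [Algebra ℚ S] [Algebra ℚ S'] in
theorem map_iter (φ : S →+* S') (E E' : S) (n : ℕ) (p : S × S) :
    (φ ((iter E E')^[n] p).1, φ ((iter E E')^[n] p).2) =
      (iter (φ E) (φ E'))^[n] (φ p.1, φ p.2) := by
  induction n with
  | zero => rfl
  | succ n ih =>
    rw [Function.iterate_succ_apply', Function.iterate_succ_apply', ← ih]
    simp [iter]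

theorem map_engExpr (φ : S →+* S') (n M : ℕ) (A B R₁ R₂ : S) :
    φ (engExpr n M A B R₁ R₂) = engExpr n M (φ A) (φ B) (φ R₁) (φ R₂) := by
  have := congrArg Prod.fst (map_iter φ (texp M A) (texp M (-A)) n
    (texp M R₁ * texp M R₂ * texp M B * texp M (-R₂) * texp M (-R₁),
      texp M R₁ * texp M R₂ * texp M (-B) * texp M (-R₂) * texp M (-R₁)))
  simp only [map_mul, map_texp, map_neg] at this
  simp only [engExpr, map_sub, map_texp, this]

theorem texp_eq_exp {M : ℕ} {x : S} (h : x ^ M = 0) : texp M x = IsNilpotent.exp x :=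
  (IsNilpotent.exp_eq_sum h).symm

end

end Pool.Agent.MP_f21dda_al.H92

end

-- part MP_f21dda_al.H92.Log
section

/-!
The logarithm of unipotent elements.
-/

namespace Pool.Agent.MP_f21dda_al.H92

open Polynomial

theorem exp_eq_quad {A : Type*} [Ring A] [Algebra ℚ A] {y : A} (hy : IsNilpotent y) :
    ∃ r : ℚ[X], IsNilpotent.exp y = 1 + y + y ^ 2 * aeval y r := by
  obtain ⟨k, hk⟩ := hy
  have h2 : y ^ (k + 2) = 0 := by rw [pow_add, hk, zero_mul]
  refine ⟨∑ i ∈ Finset.range k, (((i + 2).factorial : ℚ)⁻¹) • X ^ i, ?_⟩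
  rw [IsNilpotent.exp_eq_sum h2, Finset.sum_range_succ', Finset.sum_range_succ', map_sum,
    Finset.mul_sum]
  simp only [map_smul, map_pow, aeval_X, mul_smul_comm, ← pow_add]
  simp only [zero_add, Nat.factorial_one, Nat.cast_one, inv_one, pow_one, one_smul,
    Nat.factorial_zero, pow_zero]
  have : ∀ i : ℕ, (((i + 1 + 1).factorial : ℚ)⁻¹) • y ^ (i + 1 + 1) =
      (((i + 2).factorial : ℚ)⁻¹) • y ^ (2 + i) := fun i => by
    rw [show i + 1 + 1 = i + 2 from rfl, add_comm 2 i]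
  simp only [this]
  abel

theorem exists_log_approx {A : Type*} [CommRing A] [Algebra ℚ A] {x : A} (hx : IsNilpotent x)
    (k : ℕ) : ∃ q r : A, IsNilpotent.exp (x + x ^ 2 * q) = 1 + x + x ^ (k + 2) * r := by
  induction k with
  | zero =>
    obtain ⟨r, hr⟩ := exp_eq_quad hx
    exact ⟨0, aeval x r, by simpa using hr⟩
  | succ k ih =>
    obtain ⟨q, r, h⟩ := ih
    have hp : IsNilpotent (x + x ^ 2 * q) := by
      have : x + x ^ 2 * q = x * (1 + x * q) := by ring
      rw [this]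
      exact (Commute.all _ _).isNilpotent_mul_right hx
    have hd : IsNilpotent (-(x ^ (k + 2) * r)) := by
      have : -(x ^ (k + 2) * r) = x * (-(x ^ (k + 1) * r)) := by ring
      rw [this]
      exact (Commute.all _ _).isNilpotent_mul_right hx
    obtain ⟨t, ht⟩ := exp_eq_quad hd
    generalize aeval (-(x ^ (k + 2) * r)) t = t' at ht
    refine ⟨q - x ^ k * r, -r - x ^ (k + 1) * r ^ 2 +
      x ^ (k + 1) * r ^ 2 * t' * (1 + x + x ^ (k + 2) * r), ?_⟩
    have : x + x ^ 2 * (q - x ^ k * r) = (x + x ^ 2 * q) + -(x ^ (k + 2) * r) := by ring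
    rw [this, IsNilpotent.exp_add_of_commute (Commute.all _ _) hp hd, h, ht]
    ring

/- PROOF.  Induction on `k`: there is `p` with `X ∣ p` and `X ^ k ∣ texp s p - (1 + X)`, for
`k ≤ s`; work in the commutative ring `ℚ[X] ⧸ (X ^ s)` (or `AdjoinRoot (X ^ s)`) where `texp s` is
`IsNilpotent.exp` on multiples of `X`: if `δ = 1 + X - exp p ∈ (X ^ k)`, `k ≥ 1`, then
`exp (p + δ) = exp p * exp δ ≡ exp p + δ` modulo `X ^ (k + 1)`.  Start with `p = X` (and keep the form
`p = X + X ^ 2 * q`: for `k ≥ 2` the correction is divisible by `X ^ 2`; `exp X ≡ 1 + X` mod `X ^ 2`). -/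
theorem exists_logPoly (s : ℕ) : ∃ q : ℚ[X], X ^ s ∣ texp s (X + X ^ 2 * q) - (1 + X) := by
  set x : AdjoinRoot (X ^ s : ℚ[X]) := AdjoinRoot.mk (X ^ s : ℚ[X]) X with hx
  have hxs : x ^ s = 0 := by
    rw [hx, ← map_pow, AdjoinRoot.mk_self]
  obtain ⟨q, r, h⟩ := exists_log_approx (x := x) ⟨s, hxs⟩ s
  obtain ⟨q, rfl⟩ := AdjoinRoot.mk_surjective q
  refine ⟨q, AdjoinRoot.mk_eq_mk.1 ?_⟩
  have hp : (x + x ^ 2 * AdjoinRoot.mk (X ^ s : ℚ[X]) q) ^ s = 0 := by
    have : x + x ^ 2 * AdjoinRoot.mk (X ^ s : ℚ[X]) q =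
        x * (1 + x * AdjoinRoot.mk (X ^ s : ℚ[X]) q) := by ring
    rw [this, mul_pow, hxs, zero_mul]
  rw [map_texp, map_add, map_mul, map_pow, map_add, map_one, ← hx, texp_eq_exp hp, h, pow_add, hxs]
  ring

/-- The polynomial part of the logarithm. -/
noncomputable def logPoly (s : ℕ) : ℚ[X] := X + X ^ 2 * (exists_logPoly s).choose

/-- The logarithm of `u` when `(u - 1) ^ s = 0`. -/
noncomputable def lg {R : Type*} [Ring R] [Algebra ℚ R] (s : ℕ) (u : R) : R :=
  aeval (u - 1) (logPoly s)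

variable {R R' : Type*} [Ring R] [Algebra ℚ R] [Ring R'] [Algebra ℚ R']

theorem lg_pow_eq_zero {s : ℕ} {u : R} (h : (u - 1) ^ s = 0) : lg s u ^ s = 0 := by
  have : logPoly s = X * (1 + X * (exists_logPoly s).choose) := by
    rw [logPoly]; ring
  rw [lg, ← map_pow, this, mul_pow, map_mul, map_pow, aeval_X, h, zero_mul]

theorem exp_lg {s : ℕ} {u : R} (h : (u - 1) ^ s = 0) : IsNilpotent.exp (lg s u) = u := by
  obtain ⟨r, hr⟩ := (exists_logPoly s).choose_spec
  have h1 := congrArg (aeval (u - 1) : ℚ[X] →ₐ[ℚ] R) hr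
  rw [map_mul, map_pow, aeval_X, h, zero_mul, map_sub, map_add, map_one, aeval_X, sub_eq_zero] at h1
  have h2 := map_texp (aeval (u - 1) : ℚ[X] →ₐ[ℚ] R).toRingHom s (logPoly s)
  rw [← texp_eq_exp (lg_pow_eq_zero h)]
  change texp s ((aeval (u - 1) : ℚ[X] →ₐ[ℚ] R).toRingHom (logPoly s)) = u
  rw [← h2]
  change aeval (u - 1) (texp s (X + X ^ 2 * (exists_logPoly s).choose)) = u
  rw [h1]
  abel

theorem map_lg (φ : R →+* R') (s : ℕ) (u : R) : φ (lg s u) = lg s (φ u) := by
  have := aeval_algHom_apply φ.toRatAlgHom (u - 1) (logPoly s)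
  simp only [RingHom.toRatAlgHom_apply, map_sub, map_one] at this
  exact this.symm

/-- `lg s u = (u - 1) + (u - 1) ^ 2 * q (u - 1)`. -/
theorem lg_eq (s : ℕ) : ∃ q : ℚ[X], ∀ (R : Type) [Ring R] [Algebra ℚ R] (u : R),
    lg s u = (u - 1) + (u - 1) ^ 2 * aeval (u - 1) q := by
  refine ⟨(exists_logPoly s).choose, fun R _ _ u => ?_⟩
  simp only [lg, logPoly, map_add, map_mul, map_pow, aeval_X]

theorem pow_succ_mem (I : Submodule ℚ R) (hI : ∀ x ∈ I, ∀ y ∈ I, x * y ∈ I) {x : R} (h : x ∈ I)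
    (k : ℕ) : x ^ (k + 1) ∈ I := by
  induction k with
  | zero => simpa using h
  | succ k ih => rw [pow_succ]; exact hI _ ih _ h

theorem mul_aeval_mem (I : Submodule ℚ R) (hI : ∀ x ∈ I, ∀ y ∈ I, x * y ∈ I) {x : R} (h : x ∈ I)
    (p : ℚ[X]) : x * aeval x p ∈ I := by
  rw [aeval_eq_sum_range, Finset.mul_sum]
  refine I.sum_mem fun i _ => ?_
  rw [mul_smul_comm, ← pow_succ']
  exact I.smul_mem _ (pow_succ_mem I hI h i)

theorem lg_mem (s : ℕ) (u : R) (I : Submodule ℚ R) (hI : ∀ x ∈ I, ∀ y ∈ I, x * y ∈ I)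
    (hu : u - 1 ∈ I) : lg s u ∈ I := by
  have : logPoly s = X * (1 + X * (exists_logPoly s).choose) := by
    rw [logPoly]; ring
  rw [lg, this, map_mul, aeval_X]
  exact mul_aeval_mem I hI hu _

theorem exp_sub_one_mem {x : R} (hx : IsNilpotent x) (I : Submodule ℚ R)
    (hI : ∀ x ∈ I, ∀ y ∈ I, x * y ∈ I) (h : x ∈ I) : IsNilpotent.exp x - 1 ∈ I := by
  obtain ⟨r, hr⟩ := exp_eq_quad hx
  have : IsNilpotent.exp x - 1 = x + x * (x * aeval x r) := by
    rw [hr, pow_two, mul_assoc]; abel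
  rw [this]
  exact I.add_mem h (hI _ h _ (mul_aeval_mem I hI h r))

theorem exp_nsmul {x : R} (hx : IsNilpotent x) (k : ℕ) :
    IsNilpotent.exp ((k : ℚ) • x) = IsNilpotent.exp x ^ k := by
  induction k with
  | zero => simp
  | succ k ih =>
    rw [Nat.cast_succ, add_smul, one_smul, IsNilpotent.exp_add_of_commute
      ((Commute.refl x).smul_left _) (hx.smul _) hx, ih, pow_succ]

theorem lg_conj (s : ℕ) (u g g' : R) (h1 : g * g' = 1) (h2 : g' * g = 1) :
    lg s (g * u * g') = g * lg s u * g' := by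
  have h : g * u * g' - 1 = g * (u - 1) * g' := by
    rw [mul_sub, sub_mul, mul_one, h1]
  have hp : ∀ (y : R) (k : ℕ), (g * y * g') ^ k = g * y ^ k * g' := fun y k => by
    induction k with
    | zero => simp [h1]
    | succ k ih =>
      rw [pow_succ, ih, pow_succ]
      calc g * y ^ k * g' * (g * y * g') = g * y ^ k * (g' * g) * y * g' := by
            simp only [mul_assoc]
        _ = g * (y ^ k * y) * g' := by rw [h2]; simp only [mul_one, mul_assoc]
  rw [lg, lg, h, aeval_eq_sum_range, aeval_eq_sum_range, Finset.mul_sum, Finset.sum_mul]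
  refine Finset.sum_congr rfl fun i _ => ?_
  rw [hp, mul_smul_comm, smul_mul_assoc]

/-- The span of the elements `ρ g - 1`. -/
def aug {G : Type*} [Group G] (ρ : G →* R) : Submodule ℚ R :=
  Submodule.span ℚ (Set.range fun g => ρ g - 1)

theorem aug_mul {G : Type*} [Group G] (ρ : G →* R) : ∀ x ∈ aug ρ, ∀ y ∈ aug ρ, x * y ∈ aug ρ := by
  intro x hx y hy
  induction hx using Submodule.span_induction with
  | zero => simp
  | add a b _ _ ha hb => rw [add_mul]; exact Submodule.add_mem _ ha hb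
  | smul c a _ ha => rw [smul_mul_assoc]; exact Submodule.smul_mem _ _ ha
  | mem a ha =>
    obtain ⟨g, rfl⟩ := ha
    induction hy using Submodule.span_induction with
    | zero => simp
    | add a b _ _ ha hb => rw [mul_add]; exact Submodule.add_mem _ ha hb
    | smul c a _ ha => rw [mul_smul_comm]; exact Submodule.smul_mem _ _ ha
    | mem b hb =>
      obtain ⟨h, rfl⟩ := hb
      have : (ρ g - 1) * (ρ h - 1) = (ρ (g * h) - 1) - (ρ g - 1) - (ρ h - 1) := by
        rw [map_mul]; noncomm_ring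
      change (ρ g - 1) * (ρ h - 1) ∈ _
      rw [this]
      exact Submodule.sub_mem _ (Submodule.sub_mem _ (Submodule.subset_span ⟨_, rfl⟩)
        (Submodule.subset_span ⟨_, rfl⟩)) (Submodule.subset_span ⟨_, rfl⟩)

theorem Unip.prod_eq_zero {G : Type*} [Group G] {ρ : G →* R} {s : ℕ} (h : Unip ρ s) (l : List R)
    (hl : ∀ x ∈ l, x ∈ aug ρ) (hs : l.length = s) : l.prod = 0 := by
  have key : ∀ (l : List R), (∀ x ∈ l, x ∈ aug ρ) → ∀ l' : List G, l'.length + l.length = s →
      (l'.map fun g => ρ g - 1).prod * l.prod = 0 := by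
    intro l
    induction l with
    | nil => intro _ l' hl'; simpa using h l' (by simpa using hl')
    | cons x l ih =>
      intro hl l' hl'
      have hx : x ∈ aug ρ := hl x (by simp)
      have ih' := ih fun y hy => hl y (by simp [hy])
      rw [List.prod_cons]
      clear hl
      have hlen : l'.length + l.length + 1 = s := by simpa [add_assoc] using hl'
      clear hl'
      induction hx using Submodule.span_induction with
      | zero => simp
      | add a b _ _ ha hb => rw [add_mul, mul_add, ha, hb, add_zero]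
      | smul c a _ ha => rw [smul_mul_assoc, mul_smul_comm, ha, smul_zero]
      | mem a ha =>
        obtain ⟨g, rfl⟩ := ha
        have := ih' (l' ++ [g]) (by simp; omega)
        simpa [mul_assoc] using this
  simpa using key l hl [] (by simpa using hs)

theorem Unip.pow_eq_zero {G : Type*} [Group G] {ρ : G →* R} {s : ℕ} (h : Unip ρ s) {x : R}
    (hx : x ∈ aug ρ) : x ^ s = 0 := by
  have := h.prod_eq_zero (List.replicate s x) (fun y hy => by
    rw [List.eq_of_mem_replicate hy]; exact hx) (by simp)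
  simpa using this

end Pool.Agent.MP_f21dda_al.H92

end

-- part MP_f21dda_al.H92.Closure
section

/-!
The Lie algebra of the closure of a unipotent group under polynomial curves.
-/

namespace Pool.Agent.MP_f21dda_al.H92

open Polynomial

attribute [local instance 100] LieRing.ofAssociativeRing

section Ev

variable {R : Type*} [Ring R] [Algebra ℚ R]

/-- Evaluation of a polynomial at a rational number. -/
noncomputable def evC (R : Type*) [Ring R] [Algebra ℚ R] (c : ℚ) : R[X] →+* R :=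
  Polynomial.eval₂RingHom' (RingHom.id R) (algebraMap ℚ R c)
    fun a => (Algebra.commutes c a).symm

theorem evC_C (c : ℚ) (a : R) : evC R c (C a) = a :=
  Polynomial.eval₂_C (RingHom.id R) (algebraMap ℚ R c)

theorem evC_X (c : ℚ) : evC R c X = algebraMap ℚ R c :=
  Polynomial.eval₂_X (RingHom.id R) (algebraMap ℚ R c)

theorem evC_X_mul (c : ℚ) (p : R[X]) : evC R c (X * p) = c • evC R c p := by
  rw [map_mul, evC_X, Algebra.smul_def]

theorem evC_eq_sum (c : ℚ) (p : R[X]) {D : ℕ} (hD : p.natDegree < D) :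
    evC R c p = ∑ i ∈ Finset.range D, c ^ i • p.coeff i := by
  conv_lhs => rw [p.as_sum_range' D hD]
  rw [map_sum]
  refine Finset.sum_congr rfl fun i _ => ?_
  rw [← C_mul_X_pow_eq_monomial, map_mul, map_pow, evC_C, evC_X, ← map_pow, Algebra.smul_def,
    Algebra.commutes]

theorem evC_coeff_mem (K : Submodule ℚ R) (p : R[X]) {Z : Set ℚ} (hZ : Z.Infinite)
    (h : ∀ c ∈ Z, evC R c p ∈ K) (i : ℕ) : p.coeff i ∈ K := by
  by_cases hi : i < p.natDegree + 1
  · refine coeff_mem K (p.natDegree + 1) p.coeff Z hZ (fun c hc => ?_) i hi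
    rw [← evC_eq_sum c p (Nat.lt_succ_self _)]
    exact h c hc
  · rw [coeff_eq_zero_of_natDegree_lt (by omega)]
    exact K.zero_mem

theorem evC_mem (K : Submodule ℚ R) (p : R[X]) {Z : Set ℚ} (hZ : Z.Infinite)
    (h : ∀ c ∈ Z, evC R c p ∈ K) (c : ℚ) : evC R c p ∈ K := by
  rw [evC_eq_sum c p (Nat.lt_succ_self _)]
  exact K.sum_mem fun i _ => K.smul_mem _ (evC_coeff_mem K p hZ h i)

theorem evC_eq (p q : R[X]) {Z : Set ℚ} (hZ : Z.Infinite)
    (h : ∀ c ∈ Z, evC R c p = evC R c q) (c : ℚ) : evC R c p = evC R c q := by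
  have := evC_mem ⊥ (p - q) hZ (fun c hc => by rw [map_sub, h c hc, sub_self]; rfl) c
  rwa [map_sub, Submodule.mem_bot, sub_eq_zero] at this

theorem infinite_ne_zero : {t : ℚ | t ≠ 0}.Infinite :=
  (Set.finite_singleton (0 : ℚ)).infinite_compl

theorem texp_X_mul (M : ℕ) (z : R[X]) :
    ∃ a : R[X], texp (M + 2) (X * z) = 1 + X * a ∧ evC R 0 a = evC R 0 z := by
  refine ⟨z + X * ∑ k ∈ Finset.range M, (((k + 2).factorial : ℚ)⁻¹) • (X ^ k * z ^ (k + 2)), ?_, ?_⟩
  · rw [texp, Finset.sum_range_succ', Finset.sum_range_succ', mul_add, ← mul_assoc,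
      Finset.mul_sum]
    simp only [zero_add, Nat.factorial_one, Nat.cast_one, inv_one, pow_one, one_smul,
      Nat.factorial_zero, pow_zero]
    rw [add_comm, add_comm _ (X * z)]
    congr 2
    refine Finset.sum_congr rfl fun k _ => ?_
    rw [mul_smul_comm, (commute_X z).mul_pow, ← mul_assoc]
    congr 2
    rw [pow_succ', pow_succ', mul_assoc]
  · rw [map_add, evC_X_mul, zero_smul, add_zero]

theorem evC_texp (c : ℚ) {M : ℕ} (p : R[X]) (h : evC R c p ^ M = 0) :
    evC R c (texp M p) = IsNilpotent.exp (evC R c p) := by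
  rw [map_texp, texp_eq_exp h]

/-- Conjugation by an invertible element. -/
def conjHom (g g' : R) (h1 : g * g' = 1) (h2 : g' * g = 1) : R →+* R where
  toFun z := g * z * g'
  map_one' := by rw [mul_one, h1]
  map_mul' x y := by
    calc g * (x * y) * g' = g * x * (g' * g) * y * g' := by rw [h2]; simp only [mul_assoc, one_mul]
      _ = _ := by simp only [mul_assoc]
  map_zero' := by simp
  map_add' x y := by rw [mul_add, add_mul]

end Ev

section Clo

variable {K R : Type*} [Group K] [Ring R] [Algebra ℚ R]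

/-- The closure of the image of `ρ` under polynomial curves; pairs (element, inverse). -/
inductive Clo (ρ : K →* R) : R → R → Prop
  | base (k : K) : Clo ρ (ρ k) (ρ k⁻¹)
  | curve (γ γ' : R[X]) (Z : Set ℚ) (hZ : Z.Infinite)
      (h : ∀ c ∈ Z, Clo ρ (evC R c γ) (evC R c γ')) (c : ℚ) : Clo ρ (evC R c γ) (evC R c γ')

variable {ρ : K →* R}

theorem Clo.swap {g g' : R} (h : Clo ρ g g') : Clo ρ g' g := by
  induction h with
  | base k => simpa using Clo.base (ρ := ρ) k⁻¹
  | curve γ γ' Z hZ _ c ih => exact Clo.curve γ' γ Z hZ ih c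

theorem Clo.mul_eq_one {g g' : R} (h : Clo ρ g g') : g * g' = 1 := by
  induction h with
  | base k => rw [← map_mul, mul_inv_cancel, map_one]
  | curve γ γ' Z hZ _ c ih =>
    have := evC_eq (γ * γ') 1 hZ (fun c hc => by rw [map_mul, map_one, ih c hc]) c
    rwa [map_mul, map_one] at this

theorem Clo.sub_one_mem {g g' : R} (h : Clo ρ g g') : g - 1 ∈ aug ρ := by
  induction h with
  | base k => exact Submodule.subset_span ⟨k, rfl⟩
  | curve γ γ' Z hZ _ c ih =>
    have := evC_mem (aug ρ) (γ - 1) hZ (fun c hc => by rw [map_sub, map_one]; exact ih c hc) c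
    rwa [map_sub, map_one] at this

omit [Algebra ℚ R] in
theorem iter_base (ρ : K →* R) (e : K) (n : ℕ) (k : K) :
    (iter (ρ e) (ρ e⁻¹))^[n] (ρ k, ρ k⁻¹) =
      (ρ ((fun v => v * e * v⁻¹)^[n] k), ρ ((fun v => v * e * v⁻¹)^[n] k)⁻¹) := by
  induction n with
  | zero => rfl
  | succ n ih =>
    rw [Function.iterate_succ_apply', Function.iterate_succ_apply', ih]
    simp only [iter, ← map_mul, mul_inv_rev, inv_inv, mul_assoc]

theorem Clo.engel {g g' : R} (h : Clo ρ g g') {n : ℕ} {e : K} (he : IsEngT n e) :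
    ((iter (ρ e) (ρ e⁻¹))^[n] (g, g')).1 = ρ e := by
  induction h with
  | base k => rw [iter_base, he k]
  | curve γ γ' Z hZ _ c ih =>
    have key : ∀ c : ℚ, evC R c ((iter (C (ρ e)) (C (ρ e⁻¹)))^[n] (γ, γ')).1 =
        ((iter (ρ e) (ρ e⁻¹))^[n] (evC R c γ, evC R c γ')).1 := by
      intro c
      have := congrArg Prod.fst (map_iter (evC R c) (C (ρ e)) (C (ρ e⁻¹)) n (γ, γ'))
      simpa only [evC_C] using this
    have := evC_eq ((iter (C (ρ e)) (C (ρ e⁻¹)))^[n] (γ, γ')).1 (C (ρ e)) hZ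
      (fun c hc => by rw [key, evC_C, ih c hc]) c
    rwa [key, evC_C] at this

theorem Clo.base_mul (k : K) {h h' : R} (hh : Clo ρ h h') : Clo ρ (ρ k * h) (h' * ρ k⁻¹) := by
  induction hh with
  | base k' => simpa only [map_mul, mul_inv_rev] using Clo.base (ρ := ρ) (k * k')
  | curve γ γ' Z hZ _ c ih =>
    simpa only [map_mul, evC_C] using Clo.curve (C (ρ k) * γ) (γ' * C (ρ k⁻¹)) Z hZ
      (fun c hc => by simpa only [map_mul, evC_C] using ih c hc) c

theorem Clo.mul {g g' h h' : R} (hg : Clo ρ g g') (hh : Clo ρ h h') : Clo ρ (g * h) (h' * g') := by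
  induction hg with
  | base k => exact Clo.base_mul k hh
  | curve γ γ' Z hZ _ c ih =>
    simpa only [map_mul, evC_C] using Clo.curve (γ * C h) (C h' * γ') Z hZ
      (fun c hc => by simpa only [map_mul, evC_C] using ih c hc) c

theorem Clo.one : Clo ρ 1 1 := by
  simpa using Clo.base (ρ := ρ) 1

theorem Clo.pow {g g' : R} (hg : Clo ρ g g') (k : ℕ) : Clo ρ (g ^ k) (g' ^ k) := by
  induction k with
  | zero => simpa using Clo.one
  | succ k ih =>
    rw [pow_succ, pow_succ']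
    exact ih.mul hg

theorem Clo.exp {y g' : R} (hy : IsNilpotent y) (h : Clo ρ (IsNilpotent.exp y) g') :
    Clo ρ (IsNilpotent.exp y) (IsNilpotent.exp (-y)) := by
  have : IsNilpotent.exp (-y) = g' := by
    rw [← mul_one (IsNilpotent.exp (-y)), ← h.mul_eq_one, ← mul_assoc,
      IsNilpotent.exp_neg_mul_exp_self hy, one_mul]
  rwa [this]

/-- The elements whose one-parameter group lies in the closure. -/
def InLie (ρ : K →* R) (x : R) : Prop :=
  x ∈ aug ρ ∧ ∀ c : ℚ, Clo ρ (IsNilpotent.exp (c • x)) (IsNilpotent.exp (-(c • x)))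

theorem InLie.smul {x : R} (hx : InLie ρ x) (c : ℚ) : InLie ρ (c • x) :=
  ⟨(aug ρ).smul_mem c hx.1, fun c' => by rw [smul_smul]; exact hx.2 _⟩

theorem InLie.zero : InLie ρ 0 :=
  ⟨(aug ρ).zero_mem, fun c => by simpa using Clo.one⟩

variable {s : ℕ}

theorem inLie_of_curve (hu : Unip ρ s) (V : R[X]) {Z : Set ℚ} (hZ : Z.Infinite)
    (h : ∀ t ∈ Z, InLie ρ (evC R t V)) (t : ℚ) : InLie ρ (evC R t V) := by
  have hm : ∀ t, evC R t V ∈ aug ρ := evC_mem (aug ρ) V hZ fun t ht => (h t ht).1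
  refine ⟨hm t, fun c => ?_⟩
  have e1 : ∀ t, evC R t (texp s (c • V)) = IsNilpotent.exp (c • evC R t V) := fun t => by
    rw [evC_texp, map_rat_smul]
    rw [map_rat_smul]
    exact hu.pow_eq_zero ((aug ρ).smul_mem c (hm t))
  have e2 : ∀ t, evC R t (texp s (-(c • V))) = IsNilpotent.exp (-(c • evC R t V)) := fun t => by
    rw [evC_texp, map_neg, map_rat_smul]
    rw [map_neg, map_rat_smul]
    exact hu.pow_eq_zero ((aug ρ).neg_mem ((aug ρ).smul_mem c (hm t)))
  have := Clo.curve (ρ := ρ) (texp s (c • V)) (texp s (-(c • V))) Z hZ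
    (fun t ht => by rw [e1, e2]; exact (h t ht).2 c) t
  rwa [e1, e2] at this

theorem Clo.log (hu : Unip ρ s) {u u' : R} (h : Clo ρ u u') : InLie ρ (lg s u) := by
  have hx : lg s u ∈ aug ρ := lg_mem s u (aug ρ) (aug_mul ρ) h.sub_one_mem
  have hn : ∀ c : ℚ, (c • lg s u) ^ s = 0 := fun c => hu.pow_eq_zero ((aug ρ).smul_mem c hx)
  refine ⟨hx, fun c => ?_⟩
  have e1 : ∀ t, evC R t (texp s (X * C (lg s u))) = IsNilpotent.exp (t • lg s u) :=
    fun t => by
      rw [evC_texp, evC_X_mul, evC_C]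
      rw [evC_X_mul, evC_C]
      exact hn t
  have e2 : ∀ t, evC R t (texp s (-(X * C (lg s u)))) = IsNilpotent.exp (-(t • lg s u)) :=
    fun t => by
      rw [evC_texp, map_neg, evC_X_mul, evC_C]
      rw [map_neg, evC_X_mul, evC_C, ← neg_smul]
      exact hn _
  have := Clo.curve (ρ := ρ) (texp s (X * C (lg s u))) (texp s (-(X * C (lg s u))))
    (Set.range (Nat.cast : ℕ → ℚ)) (Set.infinite_range_of_injective Nat.cast_injective)
    (by
      rintro _ ⟨k, rfl⟩
      rw [e1, e2]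
      refine Clo.exp ⟨s, hn _⟩ (g' := u' ^ k) ?_
      rw [exp_nsmul ⟨s, hu.pow_eq_zero hx⟩, exp_lg (hu.pow_eq_zero h.sub_one_mem)]
      exact h.pow k) c
  rwa [e1, e2] at this

theorem evC_texp_X (hu : Unip ρ s) {x : R} (hx : x ∈ aug ρ) (t : ℚ) :
    evC R t (texp (s + 2) (X * C x)) = IsNilpotent.exp (t • x) := by
  rw [evC_texp, evC_X_mul, evC_C]
  rw [evC_X_mul, evC_C, pow_add, hu.pow_eq_zero ((aug ρ).smul_mem t hx), zero_mul]

theorem InLie.conj (hu : Unip ρ s) {x g g' : R} (hx : InLie ρ x) (hg : Clo ρ g g') :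
    InLie ρ (g * x * g') := by
  have h1 := hg.sub_one_mem
  have h2 := hg.swap.sub_one_mem
  have hm : g * x * g' ∈ aug ρ := by
    have e : g * x * g' = x + (g - 1) * x + x * (g' - 1) + (g - 1) * x * (g' - 1) := by noncomm_ring
    rw [e]
    exact add_mem (add_mem (add_mem hx.1 (aug_mul ρ _ h1 _ hx.1)) (aug_mul ρ _ hx.1 _ h2))
      (aug_mul ρ _ (aug_mul ρ _ h1 _ hx.1) _ h2)
  refine ⟨hm, fun c => ?_⟩
  refine Clo.exp ⟨s, hu.pow_eq_zero ((aug ρ).smul_mem c hm)⟩
    (g' := g * (IsNilpotent.exp (-(c • x)) * g')) ?_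
  have e : IsNilpotent.exp (c • (g * x * g')) = g * IsNilpotent.exp (c • x) * g' := by
    have := IsNilpotent.map_exp (a := c • x) ⟨s, hu.pow_eq_zero ((aug ρ).smul_mem c hx.1)⟩
      (conjHom g g' hg.mul_eq_one hg.swap.mul_eq_one)
    rw [map_rat_smul] at this
    exact this.symm
  rw [e]
  exact (hg.mul (hx.2 c)).mul hg.swap

end Clo

section Add

variable {K R : Type} [Group K] [Ring R] [Algebra ℚ R] {ρ : K →* R} {s : ℕ}

theorem InLie.add (hu : Unip ρ s) {x y : R} (hx : InLie ρ x) (hy : InLie ρ y) :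
    InLie ρ (x + y) := by
  obtain ⟨a, ha, ha0⟩ := texp_X_mul s (C x)
  obtain ⟨b, hb, hb0⟩ := texp_X_mul s (C y)
  obtain ⟨q, hq⟩ := lg_eq s
  set U := texp (s + 2) (X * C x) * texp (s + 2) (X * C y) with hU
  set W := a + b + X * (a * b) with hW
  have hUW : U - 1 = X * W := by
    rw [hU, ha, hb, hW]
    have : a * X = X * a := (commute_X a).eq.symm
    calc (1 + X * a) * (1 + X * b) - 1 = X * a + X * b + X * (a * X) * b := by noncomm_ring
      _ = _ := by rw [this]; noncomm_ring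
  set V := W + X * (W * W * aeval (U - 1) q) with hV
  have hlg : lg s U = X * V := by
    have : W * X = X * W := (commute_X W).eq.symm
    rw [hq, hV]
    generalize aeval (U - 1) q = A
    rw [hUW]
    calc X * W + (X * W) ^ 2 * A = X * W + X * (W * X) * W * A := by noncomm_ring
      _ = _ := by rw [this]; noncomm_ring
  have hV0 : evC R 0 V = x + y := by
    rw [hV, map_add, evC_X_mul, zero_smul, add_zero, hW, map_add, evC_X_mul, zero_smul, add_zero,
      map_add, ha0, hb0, evC_C, evC_C]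
  rw [← hV0]
  refine inLie_of_curve hu V infinite_ne_zero (fun t ht => ?_) 0
  have h1 : InLie ρ (lg s (evC R t U)) := by
    rw [hU, map_mul, evC_texp_X hu hx.1, evC_texp_X hu hy.1]
    exact ((hx.2 t).mul (hy.2 t)).log hu
  rw [← map_lg, hlg, evC_X_mul] at h1
  have := h1.smul t⁻¹
  rwa [smul_smul, inv_mul_cancel₀ ht, one_smul] at this

theorem InLie.lie (hu : Unip ρ s) {x y : R} (hx : InLie ρ x) (hy : InLie ρ y) :
    InLie ρ (x * y - y * x) := by
  obtain ⟨a, ha, ha0⟩ := texp_X_mul s (C x)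
  obtain ⟨b, hb, hb0⟩ := texp_X_mul s (C (-x))
  set P := texp (s + 2) (X * C x) * C y * texp (s + 2) (X * C (-x)) with hP
  set V := a * C y + C y * b + X * (a * C y * b) with hV
  have hPV : P = C y + X * V := by
    rw [hP, ha, hb, hV]
    have h1 : C y * X = X * C y := (commute_X (C y)).eq.symm
    have h2 : a * C y * X = X * (a * C y) := (commute_X (a * C y)).eq.symm
    calc (1 + X * a) * C y * (1 + X * b)
        = C y + X * a * C y + (C y * X) * b + X * (a * C y * X) * b := by noncomm_ring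
      _ = _ := by rw [h1, h2]; noncomm_ring
  have hV0 : evC R 0 V = x * y - y * x := by
    rw [hV, map_add, evC_X_mul, zero_smul, add_zero, map_add, map_mul, map_mul, ha0, hb0, evC_C,
      evC_C, evC_C, mul_neg, sub_eq_add_neg]
  rw [← hV0]
  refine inLie_of_curve hu V infinite_ne_zero (fun t ht => ?_) 0
  have h1 : InLie ρ (evC R t P) := by
    rw [hP, map_mul, map_mul, evC_texp_X hu hx.1, evC_texp_X hu ((aug ρ).neg_mem hx.1), evC_C,
      smul_neg]
    exact hy.conj hu (hx.2 t)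
  rw [hPV, map_add, evC_C, evC_X_mul] at h1
  have := (h1.add hu (hy.smul (-1))).smul t⁻¹
  rwa [neg_one_smul, add_neg_cancel_comm, smul_smul, inv_mul_cancel₀ ht, one_smul] at this

end Add

/- PROOF.  `ev c : R[X] →+* R` is evaluation at the central element `algebraMap ℚ R c`
(`Polynomial.eval₂RingHom'`).  `Clo : R × R → Prop` is the inductive predicate on pairs:
`Clo (ρ k, ρ k⁻¹)`; if `γ, γ' : R[X]` and `Clo (ev c γ, ev c γ')` for infinitely many `c` then for all
`c`.  A condition of the form `Φ (g, g') = 0`, with `Φ` commuting with ring homs and with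
coefficients from `R`, that holds on `ρ K` holds on `Clo` (`coeff_mem` with `K = ⊥`: a polynomial
with infinitely many rational zeros vanishes): this gives `g g' = 1`, `g' g = 1`, the Engel identity,
and similarly `g - 1 ∈ aug ρ` (`coeff_mem` with `K = aug ρ`).
`Clo` is closed under `(g, g') (h, h') ↦ (g h, h' g')` (two inductions) and under swapping.
`𝔤 = {x ∈ aug ρ | ∀ c, Clo (exp (c • x), exp (-(c • x)))}`.  If `Clo (u, u')` then `lg s u ∈ 𝔤`
(the curve `texp s (X * C x)` takes the values `u ^ k` at `k : ℕ`).  Sum: for `x, y ∈ 𝔤` let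
`U = texp s (X * C x) * texp s (X * C y) : R[X]`; `lg s U = X * V` with `V.coeff 0 = x + y`
(`lg_eq`); all coefficients of `V` lie in `aug ρ`; for `t ≠ 0`, `ev t V = t⁻¹ • lg s (ev t U) ∈ 𝔤`, so
the curve `texp s (c • V)` gives `Clo (exp (c • (x + y)), _)` at `t = 0`.  Bracket: `𝔤` is stable under
conjugation by `Clo` pairs; `exp (t x) y exp (-t x) ∈ 𝔤` for all `t`, take the coefficient of `t`
(`coeff_mem`). -/
theorem exists_lie {K R : Type} [Group K] [Ring R] [Algebra ℚ R] (ρ : K →* R) (s : ℕ)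
    (h : Unip ρ s) : ∃ 𝔤 : LieSubalgebra ℚ R, (∀ k, lg s (ρ k) ∈ 𝔤) ∧ (∀ x ∈ 𝔤, x ∈ aug ρ) ∧
      ∀ (n : ℕ) (e : K), IsEngT n e → ∀ l : List R, (∀ x ∈ l, x ∈ 𝔤) →
        ((iter (ρ e) (ρ e⁻¹))^[n] ((l.map IsNilpotent.exp).prod,
          (l.reverse.map fun x => IsNilpotent.exp (-x)).prod)).1 = ρ e := by
  refine ⟨{ carrier := {x | InLie ρ x}
            add_mem' := fun hx hy => InLie.add h hx hy
            zero_mem' := InLie.zero
            smul_mem' := fun c _ hx => InLie.smul hx c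
            lie_mem' := fun hx hy => InLie.lie h hx hy }, fun k => (Clo.base k).log h,
    fun x hx => And.left hx, fun n e he l hl => Clo.engel ?_ he⟩
  induction l with
  | nil => simpa using Clo.one
  | cons x l ih =>
    have hx : InLie ρ x := hl x (by simp)
    have h1 := hx.2 1
    rw [one_smul] at h1
    simpa using h1.mul (ih fun y hy => hl y (by simp [hy]))

end Pool.Agent.MP_f21dda_al.H92

end

-- part MP_f21dda_al.H92.Transfer
section

/-!
The formal Engel identity passes to quotients, subalgebras and products.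
-/

namespace Pool.Agent.MP_f21dda_al.H92

open Polynomial

variable {L L' : Type*} [LieRing L] [LieAlgebra ℚ L] [LieRing L'] [LieAlgebra ℚ L']

/- PROOF.  The pairs `(f, f')` of endomorphisms with `π ∘ f = f' ∘ π` form a ℚ-subalgebra `𝒯` of the
product containing `(ad x, ad (π x))`; apply `map_engExpr` to the two maps
`Polynomial.mapRingHom` from `𝒯[X]`. -/
theorem engExpr_compat (π : L →ₗ⁅ℚ⁆ L') (n M d j : ℕ) (a b r₁ r₂ v : L) :
    π ((engExpr n M (C (LieAlgebra.ad ℚ L a)) (X * C (LieAlgebra.ad ℚ L b))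
      (X ^ 2 * C (LieAlgebra.ad ℚ L r₁)) (X ^ d * C (LieAlgebra.ad ℚ L r₂)) :
        (Module.End ℚ L)[X]).coeff j v) =
    (engExpr n M (C (LieAlgebra.ad ℚ L' (π a))) (X * C (LieAlgebra.ad ℚ L' (π b)))
      (X ^ 2 * C (LieAlgebra.ad ℚ L' (π r₁))) (X ^ d * C (LieAlgebra.ad ℚ L' (π r₂))) :
        (Module.End ℚ L')[X]).coeff j (π v) := by
  let 𝒯 : Subalgebra ℚ (Module.End ℚ L × Module.End ℚ L') :=
    { carrier := {f | ∀ x, π (f.1 x) = f.2 (π x)}
      mul_mem' := fun {f g} hf hg x => (hf _).trans (congrArg f.2 (hg x))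
      add_mem' := fun {f g} hf hg x => by simp [hf x, hg x]
      algebraMap_mem' := fun q x => by simp }
  let p : 𝒯 →+* Module.End ℚ L := (RingHom.fst _ _).comp 𝒯.val.toRingHom
  let q : 𝒯 →+* Module.End ℚ L' := (RingHom.snd _ _).comp 𝒯.val.toRingHom
  let t : L → 𝒯 := fun x => ⟨(LieAlgebra.ad ℚ L x, LieAlgebra.ad ℚ L' (π x)), fun y => by simp⟩
  have h1 := map_engExpr (mapRingHom p) n M (C (t a)) (X * C (t b)) (X ^ 2 * C (t r₁))
    (X ^ d * C (t r₂))
  have h2 := map_engExpr (mapRingHom q) n M (C (t a)) (X * C (t b)) (X ^ 2 * C (t r₁))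
    (X ^ d * C (t r₂))
  simp only [map_mul, map_pow, coe_mapRingHom, map_X, map_C] at h1 h2
  have e1 : ∀ x, p (t x) = LieAlgebra.ad ℚ L x := fun _ => rfl
  have e2 : ∀ x, q (t x) = LieAlgebra.ad ℚ L' (π x) := fun _ => rfl
  simp only [e1, e2] at h1 h2
  rw [← h1, ← h2, coeff_map, coeff_map]
  have e3 : ∀ f : 𝒯, π (p f v) = q f (π v) := fun f => f.2 v
  exact e3 _

theorem ad_pow_compat (π : L →ₗ⁅ℚ⁆ L') (n : ℕ) (a v : L) :
    π ((LieAlgebra.ad ℚ L a ^ n) v) = (LieAlgebra.ad ℚ L' (π a) ^ n) (π v) := by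
  induction n with
  | zero => rfl
  | succ n ih => simp [pow_succ', ih]

theorem LieEng.of_surjective (π : L →ₗ⁅ℚ⁆ L') (hπ : Function.Surjective π) {n : ℕ} {a : L}
    (h : LieEng n a) : LieEng n (π a) := by
  refine ⟨LinearMap.ext fun v => ?_, fun b r₁ r₂ M d j hM hd hj => LinearMap.ext fun v => ?_⟩
  · obtain ⟨v, rfl⟩ := hπ v
    rw [← ad_pow_compat, h.1]
    simp
  · obtain ⟨v, rfl⟩ := hπ v
    obtain ⟨b, rfl⟩ := hπ b
    obtain ⟨r₁, rfl⟩ := hπ r₁
    obtain ⟨r₂, rfl⟩ := hπ r₂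
    rw [← engExpr_compat, h.2 b r₁ r₂ M d j hM hd hj]
    simp

theorem LieEng.of_family {κ : Type*} {R : κ → Type*} [∀ i, LieRing (R i)]
    [∀ i, LieAlgebra ℚ (R i)] (π : ∀ i, L →ₗ⁅ℚ⁆ R i) (hπ : ∀ v, (∀ i, π i v = 0) → v = 0) {n : ℕ}
    {a : L} (h : ∀ i, LieEng n (π i a)) : LieEng n a := by
  refine ⟨LinearMap.ext fun v => hπ _ fun i => ?_,
    fun b r₁ r₂ M d j hM hd hj => LinearMap.ext fun v => hπ _ fun i => ?_⟩
  · rw [ad_pow_compat, (h i).1]
    simp
  · rw [engExpr_compat, (h i).2 _ _ _ M d j hM hd hj]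
    simp

end Pool.Agent.MP_f21dda_al.H92

end
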