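import Pool.Agent.MP_f21dda_al.Mg.H92_Main

/-!
The main theorem for groups in an arbitrary universe.
-/

namespace Pool.Agent.MP_f21dda_al.H92

theorem IsEng.map_equiv {G H : Type*} [Group G] [Group H] (e : G ≃* H) {n : ℕ} {f : G}
    (h : IsEng n f) : IsEng n (e f) := by
  intro x
  obtain ⟨x, rfl⟩ := e.surjective x
  have : ∀ k : ℕ, (eng (e f))^[k] (e x) = e ((eng f)^[k] x) := by
    intro k
    induction k with
    | zero => rfl
    | succ k ih => rw [Function.iterate_succ_apply', Function.iterate_succ_apply', ih]; simp [eng]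
  rw [this, h x, map_one]

theorem nilpotent_bound_univ.{u} (r n : ℕ) : ∃ c : ℕ, ∀ (K : Type u) [Group K] (y : Fin r → K),
    Subgroup.closure (Set.range y) = ⊤ → (∀ i, IsEng n (y i)) →
      ∀ P : K → Prop, (∀ a b, P a → P b → P (a * b)) → (∀ a, P a ∨ P a⁻¹) →
        (∀ a, P a → P a⁻¹ → a = 1) → (⊤ : Subgroup K).lowerCentralSeries c = ⊥ := by
  obtain ⟨c, hc⟩ := nilpotent_bound r n
  refine ⟨c, fun K _ y hy hn P hmul htot hanti => ?_⟩
  have hs : Function.Surjective (FreeGroup.lift y) := by
    rw [← MonoidHom.range_eq_top, FreeGroup.range_lift_eq_closure, hy]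
  let e := QuotientGroup.quotientKerEquivOfSurjective _ hs
  have h := hc _ (fun i => e.symm (y i)) (by
      have := congrArg (Subgroup.map e.symm.toMonoidHom) hy
      rw [MonoidHom.map_closure, ← Set.range_comp,
        Subgroup.map_top_of_surjective _ e.symm.surjective] at this
      exact this)
    (fun i => (hn i).map_equiv e.symm) (fun a => P (e a))
    (fun a b ha hb => by rw [map_mul]; exact hmul _ _ ha hb)
    (fun a => by rw [map_inv]; exact htot _)
    (fun a ha ha' => e.injective (by rw [map_inv] at ha'; rw [map_one]; exact hanti _ ha ha'))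
  have := congrArg (Subgroup.map e.toMonoidHom) h
  rwa [Subgroup.map_lowerCentralSeries, Subgroup.map_bot,
    Subgroup.map_top_of_surjective e.toMonoidHom e.surjective] at this

/-- Elements of the subgroup generated by two bounded Engel elements are bounded Engel. -/
theorem isEng_of_mem_closure_univ {G : Type*} [Group G] (P : G → Prop)
    (hmul : ∀ a b, P a → P b → P (a * b)) (htot : ∀ a, P a ∨ P a⁻¹)
    (hanti : ∀ a, P a → P a⁻¹ → a = 1) {n : ℕ} {a b : G} (ha : IsEng n a) (hb : IsEng n b) {f : G}
    (hf : f ∈ Subgroup.closure {a, b}) : ∃ m, IsEng (m + 1) f := by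
  obtain ⟨c, hc⟩ := nilpotent_bound_univ 4 n
  refine ⟨c, fun x => ?_⟩
  let y : Fin 4 → G := ![a, b, x⁻¹ * a * x⁻¹⁻¹, x⁻¹ * b * x⁻¹⁻¹]
  have hy : ∀ i, IsEng n (y i) := by
    intro i
    fin_cases i
    · exact ha
    · exact hb
    · exact ha.conj x⁻¹
    · exact hb.conj x⁻¹
  let K := Subgroup.closure (Set.range y)
  have hyK : ∀ i, y i ∈ K := fun i => Subgroup.subset_closure ⟨i, rfl⟩
  have hbot := hc K (fun i => ⟨y i, hyK i⟩) (by
      rw [← Subgroup.closure_closure_coe_preimage (k := Set.range y)]
      congr 1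
      ext z
      simp only [Set.mem_range, Set.mem_preimage, Subtype.ext_iff])
    (fun i z => Subtype.ext (by rw [eng_iter_coe]; exact hy i z))
    (fun z => P z) (fun u v => hmul u v) (fun u => htot u)
    (fun u h h' => Subtype.ext (hanti u h h'))
  have hfK : f ∈ K ∧ x⁻¹ * f * x ∈ K := by
    induction hf using Subgroup.closure_induction with
    | mem z hz =>
      rcases hz with rfl | rfl
      · exact ⟨hyK 0, by simpa [y] using hyK 2⟩
      · exact ⟨hyK 1, by simpa [y] using hyK 3⟩
    | one => simp
    | mul u v _ _ hu hv =>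
      refine ⟨mul_mem hu.1 hv.1, ?_⟩
      have := mul_mem hu.2 hv.2
      simpa [mul_assoc] using this
    | inv u _ hu =>
      refine ⟨inv_mem hu.1, ?_⟩
      have := inv_mem hu.2
      simpa [mul_assoc] using this
  have hx : eng f x ∈ K := by
    have := mul_mem hfK.2 (inv_mem hfK.1)
    simpa [eng, mul_assoc] using this
  have key : ∀ (j : ℕ) (z : K), (eng (⟨f, hfK.1⟩ : K))^[j] z ∈
      (⊤ : Subgroup K).lowerCentralSeries j := by
    intro j z
    induction j with
    | zero => exact Subgroup.mem_top _
    | succ j ih =>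
      rw [Function.iterate_succ_apply', Subgroup.lowerCentralSeries_succ]
      have := Subgroup.commutator_mem_commutator (inv_mem ih) (Subgroup.mem_top (⟨f, hfK.1⟩ : K))
      simpa [commutatorElement_def, eng, mul_assoc] using this
  have := key c ⟨_, hx⟩
  rw [hbot, Subgroup.mem_bot] at this
  have h2 := congrArg Subtype.val this
  rw [eng_iter_coe] at h2
  rw [Function.iterate_succ_apply]
  exact h2

end Pool.Agent.MP_f21dda_al.H92
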